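import Mathlib

section
/-! Abstract rigidity of synchronized rows (necessity part of the classification of
progression plus point sets). -/
namespace MPae024f

structure Sync (D : ℤ → ℤ → ℤ) (τ : ℤ → ℤ) (d c κ : ℤ) : Prop where
  step : ∀ j N, D j (N + 1) = D j N + 1 ∨ D j (N + 1) = D j N - 1
  flip : ∀ j N, (j - τ N) % 2 = 0 → D (j + 1) N = D j (N + 1) ∧ D (j + 1) (N + 1) = D j N
  same : ∀ j N, (τ (N + 1) - τ N) % 2 = 0 → D j (N + 2) = D j N
  par : ∀ j N, (D j N - N - j) % 2 = 0
  shD : ∀ j N, D (j - d) (N + c) = D j N + κ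
  shT : ∀ N, (τ (N + c) - τ N - d) % 2 = 0
  per : ∃ c' > 0, ∃ κ', ∀ N, (∀ j, D j (N + c') = D j N + κ') ∧ (τ (N + c') - τ N) % 2 = 0

variable {D : ℤ → ℤ → ℤ} {τ : ℤ → ℤ} {d c κ : ℤ}

theorem const_of_step {f : ℤ → ℤ} (h : ∀ N, f (N + 1) = f N) (N : ℤ) : f N = f 0 := by
  induction N using Int.induction_on with
  | zero => rfl
  | succ n ih => rw [h, ih]
  | pred n ih =>
    have := h (-(n : ℤ) - 1)
    rw [← ih, ← this]; congr 1; ring

namespace Sync

theorem neg (h : Sync D τ d c κ) : Sync (fun j N => -D j N) τ d c (-κ) where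
  step := fun j N => by have := h.step j N; omega
  flip := fun j N hj => by have := h.flip j N hj; omega
  same := fun j N hj => by have := h.same j N hj; omega
  par := fun j N => by have := h.par j N; omega
  shD := fun j N => by have := h.shD j N; omega
  shT := h.shT
  per := by
    obtain ⟨c', hc', κ', h'⟩ := h.per
    exact ⟨c', hc', -κ', fun N => ⟨fun j => by have := (h' N).1 j; omega, (h' N).2⟩⟩

/-- drift over a period vanishes -/
theorem per0 (h : Sync D τ d c κ) :
    ∃ c' > 0, ∀ N, (∀ j, D j (N + c') = D j N) ∧ (τ (N + c') - τ N) % 2 = 0 := by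
  obtain ⟨c', hc', κ', h'⟩ := h.per
  refine ⟨c', hc', ?_⟩
  suffices hk : κ' = 0 by
    intro N; refine ⟨fun j => ?_, (h' N).2⟩
    have := (h' N).1 j; omega
  set n := c'.toNat with hn
  have hnc : (n : ℤ) = c' := Int.toNat_of_nonneg hc'.le
  let f : ℤ → ℤ := fun j => ∑ i ∈ Finset.range n,
    if (j - τ i) % 2 = 0 then D j (i + 1) - D j i else 0
  let g : ℤ → ℤ := fun j => ∑ i ∈ Finset.range n,
    if (j - τ i) % 2 = 0 then 0 else D j (i + 1) - D j i
  have hfg : ∀ j, f j + g j = κ' := by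
    intro j
    show (∑ i ∈ Finset.range n, _) + (∑ i ∈ Finset.range n, _) = _
    rw [← Finset.sum_add_distrib]
    have : ∀ i ∈ Finset.range n, ((if (j - τ i) % 2 = 0 then D j (i + 1) - D j i else 0) +
        (if (j - τ i) % 2 = 0 then 0 else D j (i + 1) - D j i)) =
        (fun i : ℕ => D j (i : ℤ)) (i + 1) - (fun i : ℕ => D j (i : ℤ)) i := by
      intro i _
      split_ifs <;> push_cast <;> ring
    rw [Finset.sum_congr rfl this, Finset.sum_range_sub (fun i : ℕ => D j (i : ℤ)) n]
    have := (h' 0).1 j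
    simp only [Nat.cast_zero, hnc]
    rw [zero_add] at this
    omega
  have hgf : ∀ j, g (j + 1) = - f j := by
    intro j
    show (∑ i ∈ Finset.range n, _) = - (∑ i ∈ Finset.range n, _)
    rw [← Finset.sum_neg_distrib]
    apply Finset.sum_congr rfl
    intro i _
    by_cases hi : (j - τ i) % 2 = 0
    · rw [if_neg (by omega), if_pos hi]
      have := h.flip j i hi
      rw [this.1, this.2]; ring
    · rw [if_pos (by omega), if_neg hi]; ring
  have hf : ∀ i : ℕ, f i = f 0 + i * κ' := by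
    intro i
    induction i with
    | zero => simp
    | succ i ih =>
      have h1 := hfg (i + 1)
      have h2 := hgf i
      push_cast
      rw [h2] at h1
      linarith
  have hb : ∀ j, |f j| ≤ n := by
    intro j
    refine (Finset.abs_sum_le_sum_abs _ _).trans ?_
    have : ∀ i ∈ Finset.range n, |if (j - τ i) % 2 = 0 then D j (i + 1) - D j i else 0| ≤ (1 : ℤ) := by
      intro i _
      split_ifs
      · rcases h.step j i with h1 | h1 <;> rw [h1] <;> simp
      · simp
    refine (Finset.sum_le_sum this).trans ?_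
    simp
  by_contra hk
  have h1 := hb ((2 * n + 1 : ℕ) : ℤ)
  have h2 := hb 0
  rw [hf] at h1
  rw [abs_le] at h1 h2
  push_cast at h1
  have h3 : (2 * (n : ℤ) + 1) * κ' ≤ 2 * n ∧ -(2 * (n : ℤ)) ≤ (2 * n + 1) * κ' := by
    constructor <;> linarith [h1.1, h1.2, h2.1, h2.2]
  rcases lt_or_gt_of_ne hk with h4 | h4
  · nlinarith [h3.2]
  · nlinarith [h3.1]

theorem bdd (h : Sync D τ d c κ) (j : ℤ) : ∃ B, ∀ N, -B ≤ D j N ∧ D j N ≤ B := by
  obtain ⟨c', hc', h'⟩ := h.per0
  have hlip : ∀ n : ℕ, -(n : ℤ) ≤ D j n - D j 0 ∧ D j n - D j 0 ≤ n := by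
    intro n
    induction n with
    | zero => simp
    | succ n ih =>
      have := h.step j n
      push_cast
      omega
  have hmul : ∀ N i : ℤ, D j (N + i * c') = D j N := by
    intro N i
    have := const_of_step (f := fun i => D j (N + i * c')) (fun i => by
      have := (h' (N + i * c')).1 j
      show D j (N + (i + 1) * c') = D j (N + i * c')
      rw [← this]; congr 1; ring) i
    simpa using this
  refine ⟨|D j 0| + c', fun N => ?_⟩
  have h1 : D j N = D j (N % c') := by
    have := hmul (N % c') (N / c')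
    rw [← this]; congr 1
    rw [Int.mul_comm]; exact (Int.emod_add_mul_ediv N c').symm
  have h2 : 0 ≤ N % c' := Int.emod_nonneg _ (by omega)
  have h3 : N % c' < c' := Int.emod_lt_of_pos _ hc'
  have h4 := hlip (N % c').toNat
  rw [Int.toNat_of_nonneg h2] at h4
  rw [h1]
  have h5 := abs_le.1 (le_refl |D j 0|)
  omega

/-- the run lemma -/
theorem run (h : Sync D τ d c κ) (j N : ℤ) (n : ℕ)
    (hr : ∀ i : ℕ, i < n → (τ (N + i) - τ N) % 2 = 0) :
    D j (N + n) = D j N ∨ D j (N + n) = D j (N + 1) := by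
  induction n using Nat.strong_induction_on with
  | _ n ih =>
    rcases n with _ | _ | n
    · left; simp
    · right; simp
    · have h1 := hr n (by omega)
      have h2 := hr (n + 1) (by omega)
      push_cast at h2
      have h3 := h.same j (N + n) (by
        rw [show N + (n : ℤ) + 1 = N + (n + 1) by ring]; omega)
      have h4 := ih n (by omega) (fun i hi => hr i (by omega))
      push_cast
      rw [show N + ((n : ℤ) + 1 + 1) = N + n + 2 by ring, h3]
      exact h4

theorem mix (h : Sync D τ d c κ) (hd : d % 2 = 1) (ε : ℤ) : ∃ N, (τ N - ε) % 2 = 0 := by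
  by_cases h0 : (τ 0 - ε) % 2 = 0
  · exact ⟨0, h0⟩
  · exact ⟨0 + c, by have := h.shT 0; omega⟩

theorem mix_ge (h : Sync D τ d c κ) (hd : d % 2 = 1) (ε N : ℤ) :
    ∃ n : ℕ, (τ (N + n) - ε) % 2 = 0 := by
  obtain ⟨N₀, h0⟩ := h.mix hd ε
  obtain ⟨c', hc', h'⟩ := h.per0
  have hmul : ∀ i : ℕ, (τ (N₀ + i * c') - ε) % 2 = 0 := by
    intro i
    induction i with
    | zero => simpa using h0
    | succ i ih =>
      have := (h' (N₀ + i * c')).2
      push_cast
      rw [show N₀ + ((i : ℤ) + 1) * c' = N₀ + i * c' + c' by ring]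
      omega
  refine ⟨(N₀ + (N - N₀).natAbs * c' - N).toNat, ?_⟩
  rw [Int.toNat_of_nonneg]
  · rw [show N + (N₀ + ((N - N₀).natAbs : ℤ) * c' - N) = N₀ + (N - N₀).natAbs * c' by ring]
    exact hmul _
  · have h1 : N - N₀ ≤ ((N - N₀).natAbs : ℤ) := Int.le_natAbs
    have h2 : (0 : ℤ) ≤ ((N - N₀).natAbs : ℤ) := by positivity
    nlinarith

theorem up_one (h : Sync D τ d c κ) (hd : d % 2 = 1) (j N : ℤ) :
    ∃ N', D j N - 1 ≤ D (j + 1) N' := by
  classical
  have hex := h.mix_ge hd j N
  have h1 := Nat.find_spec hex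
  have h2 := fun i hi => Nat.find_min hex (m := i) hi
  set n := Nat.find hex
  have hrun := h.run j N n (fun i hi => by
    have h3 := h2 i hi
    rcases Nat.eq_zero_or_pos n with h0 | h0
    · omega
    · have h4 := h2 0 h0
      simp only [Nat.cast_zero, add_zero] at h4
      omega)
  have h5 := (h.flip j (N + n) (by omega)).2
  refine ⟨N + n + 1, ?_⟩
  rw [h5]
  have := h.step j N
  omega

theorem down_one (h : Sync D τ d c κ) (hd : d % 2 = 1) (j N : ℤ) :
    ∃ N', D (j + 1) N - 1 ≤ D j N' := by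
  classical
  have hex := h.mix_ge hd j N
  have h1 := Nat.find_spec hex
  have h2 := fun i hi => Nat.find_min hex (m := i) hi
  set n := Nat.find hex
  have hrun := h.run (j + 1) N n (fun i hi => by
    have h3 := h2 i hi
    rcases Nat.eq_zero_or_pos n with h0 | h0
    · omega
    · have h4 := h2 0 h0
      simp only [Nat.cast_zero, add_zero] at h4
      omega)
  have h5 := (h.flip j (N + n) (by omega)).1
  refine ⟨N + n + 1, ?_⟩
  rw [← h5]
  have := h.step (j + 1) N
  omega

theorem up_many (h : Sync D τ d c κ) (hd : d % 2 = 1) (j N : ℤ) (n : ℕ) :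
    (∃ N', D j N - n ≤ D (j + n) N') ∧ ∃ N', D (j + n) N - n ≤ D j N' := by
  induction n generalizing N with
  | zero => simp only [Nat.cast_zero, sub_zero, add_zero]; exact ⟨⟨N, le_refl _⟩, ⟨N, le_refl _⟩⟩
  | succ n ih =>
    constructor
    · obtain ⟨N', h1⟩ := (ih N).1
      obtain ⟨N'', h2⟩ := h.up_one hd (j + n) N'
      refine ⟨N'', ?_⟩
      push_cast
      rw [show j + ((n : ℤ) + 1) = j + n + 1 by ring]
      omega
    · obtain ⟨N', h2⟩ := h.down_one hd (j + n) N
      obtain ⟨N'', h1⟩ := (ih N').2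
      refine ⟨N'', ?_⟩
      push_cast
      rw [show j + ((n : ℤ) + 1) = j + n + 1 by ring]
      omega

theorem climb {f : ℤ → ℤ} {B : ℤ} (hB : ∀ N, f N ≤ B) (h : ∀ N, ∃ N', f N + 1 ≤ f N') : False := by
  have : ∀ n : ℕ, ∃ N, f 0 + n ≤ f N := by
    intro n
    induction n with
    | zero => exact ⟨0, by simp⟩
    | succ n ih =>
      obtain ⟨N, hN⟩ := ih
      obtain ⟨N', hN'⟩ := h N
      exact ⟨N', by push_cast; omega⟩
  obtain ⟨N, hN⟩ := this (B - f 0 + 1).toNat
  have h1 := hB N
  have h2 := hB 0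
  omega

theorem kle (h : Sync D τ d c κ) (hd : d % 2 = 1) (hd0 : 0 < d) : -d ≤ κ ∧ κ ≤ d := by
  obtain ⟨B, hB⟩ := h.bdd 0
  have hdn : ((d.toNat : ℕ) : ℤ) = d := Int.toNat_of_nonneg hd0.le
  constructor
  · by_contra hcon
    apply climb (fun N => (hB N).2)
    intro N
    obtain ⟨N', h1⟩ := (h.up_many hd 0 (N - c) d.toNat).2
    rw [hdn] at h1
    have h2 := h.shD (0 + d) (N - c)
    rw [show (0 : ℤ) + d - d = 0 by ring, show N - c + c = N by ring] at h2
    exact ⟨N', by omega⟩
  · by_contra hcon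
    apply climb (fun N => (hB N).2)
    intro N
    obtain ⟨N', h1⟩ := (h.up_many hd 0 N d.toNat).1
    rw [hdn] at h1
    have h2 := h.shD (0 + d) N'
    rw [show (0 : ℤ) + d - d = 0 by ring] at h2
    exact ⟨N' + c, by omega⟩

theorem cne (h : Sync D τ d c κ) (hd : d % 2 = 1) : c ≠ 0 := by
  rintro rfl
  have := h.shT 0
  simp only [add_zero] at this
  omega

/-- item `N` of row `j` lies at height at least `t` -/
def Lv (D : ℤ → ℤ → ℤ) (t N j : ℤ) : Prop := t ≤ D j N ∧ t ≤ D j (N + 1)

def IsA (D : ℤ → ℤ → ℤ) (t N a : ℤ) : Prop := Lv D t N a ∧ ∀ j, Lv D t N j → j ≤ a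

theorem IsA.uniq {t N a b : ℤ} (ha : IsA D t N a) (hb : IsA D t N b) : a = b :=
  le_antisymm (hb.2 a ha.1) (ha.2 b hb.1)

theorem exA (h : Sync D τ d c κ) (hd0 : 0 < d) (hκ : 0 < κ) (t N : ℤ) : ∃ a, IsA D t N a := by
  have hsh : ∀ i : ℤ, ∀ j N, D (j - i * d) (N + i * c) - i * κ = D j N := by
    intro i j N
    have := const_of_step (f := fun i => D (j - i * d) (N + i * c) - i * κ) (fun i => by
      have := h.shD (j - i * d) (N + i * c)
      show D (j - (i + 1) * d) (N + (i + 1) * c) - (i + 1) * κ = D (j - i * d) (N + i * c) - i * κ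
      rw [show j - (i + 1) * d = j - i * d - d by ring,
        show N + (i + 1) * c = N + i * c + c by ring, this]; ring) i
    simpa using this
  -- uniform bound on the rows `0 .. d-1`
  have hbd : ∀ n : ℕ, ∃ B, ∀ j : ℤ, 0 ≤ j → j < n → ∀ N, -B ≤ D j N ∧ D j N ≤ B := by
    intro n
    induction n with
    | zero => exact ⟨0, fun j h1 h2 => by simp at h2; omega⟩
    | succ n ih =>
      obtain ⟨B, hB⟩ := ih
      obtain ⟨B', hB'⟩ := h.bdd n
      refine ⟨max B B', fun j h1 h2 N => ?_⟩
      rcases lt_or_eq_of_le (show j ≤ n by push_cast at h2; omega) with h3 | h3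
      · have := hB j h1 h3 N
        omega
      · have := hB' N
        rw [← h3] at this
        omega
  obtain ⟨B, hB⟩ := hbd d.toNat
  have hdn : ((d.toNat : ℕ) : ℤ) = d := Int.toNat_of_nonneg hd0.le
  rw [hdn] at hB
  have hrow : ∀ j N, -B - (j / d) * κ ≤ D j N ∧ D j N ≤ B - (j / d) * κ := by
    intro j N
    have h1 := hsh (j / d) j N
    have h2 : j - j / d * d = j % d := by
      have := Int.emod_add_mul_ediv j d
      linarith
    rw [h2] at h1
    have h3 := hB (j % d) (Int.emod_nonneg _ (by omega)) (Int.emod_lt_of_pos _ hd0) (N + j / d * c)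
    constructor <;> linarith [h3.1, h3.2]
  apply Int.exists_greatest_of_bdd
  · -- bounded above
    refine ⟨(|B| + |t| + 1) * d, fun z hz => ?_⟩
    by_contra hcon
    have h1 : |B| + |t| + 1 ≤ z / d := by
      rw [Int.le_ediv_iff_mul_le hd0]; omega
    have h2 := (hrow z N).2
    have h3 := hz.1
    have h4 : z / d ≤ z / d * κ := by nlinarith [abs_nonneg B, abs_nonneg t]
    have h5 := le_abs_self B
    have h6 := neg_abs_le t
    omega
  · refine ⟨(-(|B| + |t| + 1)) * d, ?_, ?_⟩
    · have h2 := (hrow (-(|B| + |t| + 1) * d) N).1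
      rw [Int.mul_ediv_cancel _ (by omega)] at h2
      have h5 := le_abs_self B
      have h6 := le_abs_self t
      nlinarith [abs_nonneg B, abs_nonneg t]
    · have h2 := (hrow (-(|B| + |t| + 1) * d) (N + 1)).1
      rw [Int.mul_ediv_cancel _ (by omega)] at h2
      have h5 := le_abs_self B
      have h6 := le_abs_self t
      nlinarith [abs_nonneg B, abs_nonneg t]

theorem IsA.down (h : Sync D τ d c κ) {t N a : ℤ} (ha : IsA D t N a) : (a - τ N) % 2 = 1 := by
  by_contra hcon
  have h1 := h.flip a N (by omega)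
  have h2 := ha.2 (a + 1) ⟨by rw [h1.1]; exact ha.1.2, by rw [h1.2]; exact ha.1.1⟩
  omega

theorem IsA.stay (h : Sync D τ d c κ) {t N a : ℤ} (ha : IsA D t N a)
    (hs : (τ (N + 1) - τ N) % 2 = 0) : IsA D t (N + 1) a := by
  have key : ∀ j, Lv D t (N + 1) j ↔ Lv D t N j := by
    intro j
    have := h.same j N hs
    unfold Lv
    rw [show N + 1 + 1 = N + 2 by ring, this]
    tauto
  exact ⟨(key a).2 ha.1, fun j hj => ha.2 j ((key j).1 hj)⟩

theorem IsA.move (h : Sync D τ d c κ) {t N a : ℤ} (ha : IsA D t N a)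
    (hs : (τ (N + 1) - τ N) % 2 = 1) :
    IsA D t (N + 1) (if (t + N + a) % 2 = 0 then a + 1 else a - 1) := by
  have hdn := ha.down h
  -- the vertex `N+1` in the rows above `a`
  have hab : ∀ j, a < j → D j (N + 1) ≤ t := by
    intro j hj
    by_contra hcon
    have h1 := h.step j N
    have := ha.2 j ⟨by omega, by omega⟩
    omega
  have hfl := h.flip a (N + 1) (by omega)
  rw [show N + 1 + 1 = N + 2 by ring] at hfl
  have h1 := hab (a + 1) (by omega)
  have h2 := ha.1.2
  have h3 := h.step a (N + 1)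
  rw [show N + 1 + 1 = N + 2 by ring] at h3
  have h4 := h.par a (N + 1)
  split_ifs with hpar
  · refine ⟨⟨by omega, by rw [show N + 1 + 1 = N + 2 by ring]; omega⟩, ?_⟩
    intro j hj
    by_contra hcon
    have hj1 := hj.1
    have hj2 := hj.2
    rw [show N + 1 + 1 = N + 2 by ring] at hj2
    by_cases hja : (j - a) % 2 = 0
    · have h5 := hab j (by omega)
      have h6 := h.par j (N + 1)
      omega
    · have h5 := hab (j - 1) (by omega)
      have h6 := h.par (j - 1) (N + 1)
      have h7 := h.flip (j - 1) (N + 1) (by omega)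
      rw [show j - 1 + 1 = j by ring, show N + 1 + 1 = N + 2 by ring] at h7
      omega
  · constructor
    · have h5 := h.flip (a - 1) N (by omega)
      rw [show a - 1 + 1 = a by ring] at h5
      have h6 := ha.1.1
      have h7 := h.par (a - 1) (N + 1)
      have h8 := h.step (a - 1) (N + 1)
      exact ⟨by omega, by omega⟩
    · intro j hj
      by_contra hcon
      have hj1 := hj.1
      have hj2 := hj.2
      by_cases hja : (j - a) % 2 = 0
      · have h5 := hab (j + 1) (by omega)
        have h6 := h.par (j + 1) (N + 1)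
        have h7 := h.flip j (N + 1) (by omega)
        omega
      · have h5 := hab j (by omega)
        have h6 := h.par j (N + 1)
        omega

theorem even_zero_aux (h : Sync D τ d c κ) (hd : d % 2 = 1) (hd0 : 0 < d) (hκ : 0 < κ)
    (hκ2 : κ % 2 = 0) : False := by
  choose A hA using h.exA hd0 hκ
  have hdn : ∀ t N, (A t N - τ N) % 2 = 1 := fun t N => (hA t N).down h
  have hstep : ∀ t N, A t (N + 1) = if (τ (N + 1) - τ N) % 2 = 0 then A t N else
      if (t + N + A t N) % 2 = 0 then A t N + 1 else A t N - 1 := by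
    intro t N
    split_ifs with h1 h2
    · exact (hA t (N + 1)).uniq ((hA t N).stay h h1)
    · have := (hA t N).move h (by omega)
      rw [if_pos h2] at this
      exact (hA t (N + 1)).uniq this
    · have := (hA t N).move h (by omega)
      rw [if_neg h2] at this
      exact (hA t (N + 1)).uniq this
  have hsum : ∀ t N, A t N + A (t + 1) N = A t 0 + A (t + 1) 0 := by
    intro t N
    apply const_of_step (f := fun N => A t N + A (t + 1) N)
    intro N
    show A t (N + 1) + A (t + 1) (N + 1) = A t N + A (t + 1) N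
    rw [hstep t N, hstep (t + 1) N]
    have h1 := hdn t N
    have h2 := hdn (t + 1) N
    split_ifs <;> omega
  have hdiff : ∀ (i : ℕ) t N, A (t + 2 * i) N - A t N = A (t + 2 * i) 0 - A t 0 := by
    intro i t N
    apply const_of_step (f := fun N => A (t + 2 * i) N - A t N)
    intro N
    show A (t + 2 * i) (N + 1) - A t (N + 1) = A (t + 2 * i) N - A t N
    rw [hstep t N, hstep (t + 2 * i) N]
    have h1 := hdn t N
    have h2 := hdn (t + 2 * i) N
    split_ifs <;> omega
  have hshift : ∀ t N, A (t + κ) (N + c) = A t N - d := by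
    intro t N
    have key : ∀ j, Lv D (t + κ) (N + c) (j - d) ↔ Lv D t N j := by
      intro j
      have h1 := h.shD j N
      have h2 := h.shD j (N + 1)
      rw [show N + 1 + c = N + c + 1 by ring] at h2
      unfold Lv
      rw [h1, h2]
      constructor
      · rintro ⟨a, b⟩; exact ⟨by omega, by omega⟩
      · rintro ⟨a, b⟩; exact ⟨by omega, by omega⟩
    refine (hA (t + κ) (N + c)).uniq ⟨(key _).2 (hA t N).1, fun j hj => ?_⟩
    have := (hA t N).2 (j + d) ((key (j + d)).1 (by rwa [show j + d - d = j by ring]))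
    omega
  have hmono : ∀ t N, A (t + 1) N ≤ A t N := by
    intro t N
    apply (hA t N).2
    have := (hA (t + 1) N).1
    exact ⟨by have := this.1; omega, by have := this.2; omega⟩
  -- the odd translation
  obtain ⟨i, hi⟩ : ∃ i : ℕ, κ = 2 * i := ⟨(κ / 2).toNat, by omega⟩
  have hX : ∀ t, ∃ X : ℤ, X % 2 = 1 ∧ ∀ N, A t (N + c) = A t N + X := by
    intro t
    refine ⟨A t 0 - A (t + κ) 0 - d, ?_, fun N => ?_⟩
    · have h1 := hdn t 0
      have h2 := hdn (t + κ) 0
      omega
    · have h1 := hshift t N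
      have h2 := hdiff i t (N + c)
      rw [← hi] at h2
      omega
  obtain ⟨X, hX1, hX2⟩ := hX 0
  obtain ⟨Y, hY1, hY2⟩ := hX 1
  have hXY : X + Y = 0 := by
    have h1 := hsum 0 (0 + c)
    rw [show (0 : ℤ) + 1 = 1 by ring] at h1
    have h2 := hX2 0
    have h3 := hY2 0
    omega
  have hYX : Y = -X := by omega
  have hit : ∀ n : ℕ, A 0 (0 + n * c) - A 1 (0 + n * c) = A 0 0 - A 1 0 + 2 * n * X ∧
      A 0 (0 - n * c) - A 1 (0 - n * c) = A 0 0 - A 1 0 - 2 * n * X := by
    intro n
    induction n with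
    | zero => simp
    | succ n ih =>
      have h1 := hX2 (0 + n * c)
      have h2 := hY2 (0 + n * c)
      have h3 := hX2 (0 - (n + 1) * c)
      have h4 := hY2 (0 - (n + 1) * c)
      rw [show (0 : ℤ) - (n + 1) * c + c = 0 - n * c by ring] at h3 h4
      rw [show (0 : ℤ) + n * c + c = 0 + (n + 1) * c by ring] at h1 h2
      rw [hYX] at h2 h4
      push_cast
      constructor
      · rw [h1, h2]; linarith [ih.1]
      · linarith [ih.2]
  have hXn : X ≠ 0 := by omega
  set Δ := A 0 0 - A 1 0 with hΔ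
  have hmono0 : ∀ N, A 1 N ≤ A 0 N := fun N => hmono 0 N
  have hΔ0 : 0 ≤ Δ := by have := hmono0 0; omega
  have h1 := hit (Δ.toNat + 1)
  have h2 := hmono0 (0 + ((Δ.toNat + 1 : ℕ) : ℤ) * c)
  have h3 := hmono0 (0 - ((Δ.toNat + 1 : ℕ) : ℤ) * c)
  have h4 : ((Δ.toNat + 1 : ℕ) : ℤ) = Δ + 1 := by push_cast; omega
  rw [h4] at h1 h2 h3
  rcases lt_or_gt_of_ne hXn with h5 | h5
  · nlinarith [h1.1]
  · nlinarith [h1.2]

theorem even_zero (h : Sync D τ d c κ) (hd : d % 2 = 1) (hd0 : 0 < d) (hκ2 : κ % 2 = 0) :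
    κ = 0 := by
  rcases lt_trichotomy κ 0 with h1 | h1 | h1
  · exact (h.neg.even_zero_aux hd hd0 (by omega) (by omega)).elim
  · exact h1
  · exact (h.even_zero_aux hd hd0 h1 hκ2).elim

end Sync

end MPae024f
end

section
/-! From a tiling of the plane lattice by two-row tiles to synchronized rows. -/
namespace MPae024f

def len (m : ℤ) (s : Bool) : ℤ := if s then m else 1
def off (m : ℤ) (s : Bool) : ℤ := if s then 0 else m - 1

theorem len_add_off (m : ℤ) (s : Bool) : len m s + off m s = m := by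
  cases s <;> simp [len, off]

theorem off_add_off (m : ℤ) (s : Bool) : off m s + off m (!s) = m - 1 := by
  cases s <;> simp [off]

structure Rows (m d e T : ℤ) (it : ℤ → ℤ → Bool → Bool → Prop) : Prop where
  cov : ∀ x j, ∃ y s u, it y j s u ∧ y ≤ x ∧ x < y + len m s
  uniq : ∀ x j y s u y' s' u', it y j s u → it y' j s' u' → y ≤ x → x < y + len m s →
    y' ≤ x → x < y' + len m s' → y = y' ∧ s = s' ∧ u = u'
  pr : ∀ x j s, it x j s true ↔ it (x - off m s) (j + 1) (!s) false
  sh : ∀ x j s u, it (x + e) (j - d) s u ↔ it x j s u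
  pe : ∀ x j s u, it (x + T) j s u ↔ it x j s u

variable {m d e T : ℤ} {it : ℤ → ℤ → Bool → Bool → Prop}

theorem len_pos (hm : 4 ≤ m) (s : Bool) : 1 ≤ len m s := by
  cases s <;> simp [len]; omega

theorem len_le (hm : 4 ≤ m) (s : Bool) : len m s ≤ m := by
  cases s <;> simp [len]; omega

namespace Rows

theorem pr' (h : Rows m d e T it) (x j : ℤ) (s : Bool) :
    it x j s false ↔ it (x + off m (!s)) (j - 1) (!s) true := by
  rw [h.pr]
  rw [show x + off m (!s) - off m (!s) = x by ring, show j - 1 + 1 = j by ring, Bool.not_not]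

theorem disj (h : Rows m d e T it) (hm : 4 ≤ m) {j y y' : ℤ} {s u s' u' : Bool}
    (h1 : it y j s u) (h2 : it y' j s' u') (h3 : y ≤ y') (h4 : y' < y + len m s) :
    y = y' ∧ s = s' ∧ u = u' :=
  h.uniq y' j y s u y' s' u' h1 h2 h3 h4 le_rfl (by have := len_pos hm s'; omega)

theorem nxt (h : Rows m d e T it) (hm : 4 ≤ m) {j y : ℤ} {s u : Bool} (h1 : it y j s u) :
    ∃ s' u', it (y + len m s) j s' u' := by
  obtain ⟨z, s', u', hz, h2, h3⟩ := h.cov (y + len m s) j
  have hl := len_pos hm s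
  rcases lt_or_eq_of_le h2 with h4 | h4
  · exfalso
    rcases le_or_gt y z with h5 | h5
    · obtain ⟨h6, h7, -⟩ := h.disj hm h1 hz h5 h4
      rw [← h6, ← h7] at h3; omega
    · have := h.disj hm hz h1 h5.le (by omega)
      omega
  · exact ⟨s', u', by rw [← h4]; exact hz⟩

theorem prv (h : Rows m d e T it) (hm : 4 ≤ m) {j y : ℤ} {s u : Bool} (h1 : it y j s u) :
    ∃ s' u', it (y - len m s') j s' u' := by
  obtain ⟨z, s', u', hz, h2, h3⟩ := h.cov (y - 1) j
  rcases lt_or_ge y (z + len m s') with h4 | h4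
  · exfalso
    have := h.disj hm hz h1 (by omega) h4
    omega
  · exact ⟨s', u', by rw [show y - len m s' = z by omega]; exact hz⟩

/-- singles of the same direction are at distance at least `m` -/
theorem sdist (h : Rows m d e T it) (hm : 4 ≤ m) {j x y : ℤ} {u : Bool} (h1 : it x j false u)
    (h2 : it y j false u) (h3 : x < y) (h4 : y < x + m) : False := by
  cases u
  · rw [h.pr'] at h1 h2
    simp only [Bool.not_false] at h1 h2
    have := h.disj hm h1 h2 (by omega) (by simp only [len, if_true]; omega)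
    omega
  · rw [h.pr] at h1 h2
    simp only [Bool.not_false] at h1 h2
    have := h.disj hm h1 h2 (by omega) (by simp only [len, if_true]; omega)
    omega

/-- two singles of the same direction are never at distance exactly `m` -/
theorem gap (h : Rows m d e T it) (hm : 4 ≤ m) {j x : ℤ} {u : Bool} (h1 : it x j false u)
    (h2 : it (x + m) j false u) : False := by
  have key : ∀ i : ℤ, i = 1 ∨ i = 2 → (∀ i', 0 < i' → i' < i → ∃ w, it (x + i') j false w) →
      ∃ w, it (x + i) j false w := by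
    intro i hi hprev
    obtain ⟨y, s, w, hy, h3, h4⟩ := h.cov (x + i) j
    cases s
    · simp only [len, Bool.false_eq_true, if_false] at h4
      exact ⟨w, by rw [show x + i = y by omega]; exact hy⟩
    · exfalso
      simp only [len, if_true] at h4
      rcases lt_or_ge x y with h5 | h5
      · rcases lt_or_ge y (x + i) with h6 | h6
        · obtain ⟨w', hw'⟩ := hprev (y - x) (by omega) (by omega)
          rw [show x + (y - x) = y by ring] at hw'
          have := h.disj hm hy hw' le_rfl (by simp only [len, if_true]; omega)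
          simp at this
        · have := h.disj hm hy h2 (by omega) (by simp only [len, if_true]; omega)
          simp at this
      · have := h.disj hm hy h1 h5 (by simp only [len, if_true]; omega)
        simp at this
  obtain ⟨w1, hw1⟩ := key 1 (Or.inl rfl) (fun i' h3 h4 => by omega)
  obtain ⟨w2, hw2⟩ := key 2 (Or.inr rfl) (fun i' h3 h4 => by
    rw [show i' = 1 by omega]; exact ⟨w1, hw1⟩)
  by_cases hu1 : w1 = u
  · rw [hu1] at hw1
    exact h.sdist hm h1 hw1 (by omega) (by omega)
  · by_cases hu2 : w2 = u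
    · rw [hu2] at hw2
      exact h.sdist hm h1 hw2 (by omega) (by omega)
    · have : w1 = w2 := by cases w1 <;> cases w2 <;> cases u <;> simp_all
      rw [this] at hw1
      exact h.sdist hm hw1 hw2 (by omega) (by omega)

theorem bb (h : Rows m d e T it) (hm : 4 ≤ m) {j x : ℤ} {u : Bool} (h1 : it x j true u)
    (h2 : it (x + m) j true u) : False := by
  cases u
  · rw [h.pr'] at h1 h2
    simp only [Bool.not_true] at h1 h2
    rw [show x + m + off m false = x + off m false + m by ring] at h2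
    exact h.gap hm h1 h2
  · rw [h.pr] at h1 h2
    simp only [Bool.not_true] at h1 h2
    rw [show x + m - off m true = x - off m true + m by ring] at h2
    exact h.gap hm h1 h2

/-- adjacent items of the same direction are of different kinds -/
theorem altern (h : Rows m d e T it) (hm : 4 ≤ m) {j x : ℤ} {s s' u : Bool} (h1 : it x j s u)
    (h2 : it (x + len m s) j s' u) : s' = !s := by
  cases s <;> cases s'
  · exact (h.sdist hm h1 h2 (by simp [len]) (by simp [len]; omega)).elim
  · rfl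
  · rfl
  · simp only [len, if_true] at h2
    exact (h.bb hm h1 h2).elim

theorem down_up (h : Rows m d e T it) (hm : 4 ≤ m) {j : ℤ}
    (hA : ∀ x s u, it x j s u → u = false) : ∀ x s u, it x (j - 1) s u → u = true := by
  intro y s' u' hy
  obtain ⟨z, s, u, hz, h1, h2⟩ := h.cov (y + 1) j
  obtain rfl := hA _ _ _ hz
  cases s
  · simp only [len, Bool.false_eq_true, if_false] at h2
    obtain ⟨s2, u2, hw⟩ := h.prv hm hz
    obtain rfl := hA _ _ _ hw
    have hz' : it (z - len m s2 + len m s2) j false false := by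
      rw [show z - len m s2 + len m s2 = z by ring]; exact hz
    have hs := h.altern hm hw hz'
    have hs2 : s2 = true := by
      cases s2
      · simp at hs
      · rfl
    rw [hs2] at hw
    rw [h.pr'] at hw
    have h3 : z - len m true + off m (!true) = y := by
      simp only [len, off, Bool.not_true, Bool.false_eq_true, if_false, if_true]
      omega
    rw [h3] at hw
    exact ((h.disj hm hy hw le_rfl (by have := len_pos hm s'; omega)).2.2)
  · simp only [len, if_true] at h2
    obtain ⟨s2, u2, hw⟩ := h.prv hm hz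
    obtain rfl := hA _ _ _ hw
    have hz' : it (z - len m s2 + len m s2) j true false := by
      rw [show z - len m s2 + len m s2 = z by ring]; exact hz
    have hs := h.altern hm hw hz'
    have hs2 : s2 = false := by
      cases s2
      · rfl
      · simp at hs
    rw [hs2] at hw
    rw [h.pr'] at hw
    have h3 : z - len m false + off m (!false) = z - 1 := by
      simp only [len, off, Bool.not_false, Bool.false_eq_true, if_false, if_true]
      omega
    rw [h3] at hw
    exact (h.disj hm hw hy (by omega) (by simp only [Bool.not_false, len, if_true]; omega)).2.2.symm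

theorem up_down (h : Rows m d e T it) {j : ℤ}
    (hA : ∀ x s u, it x j s u → u = true) : ∀ x s u, it x (j - 1) s u → u = false := by
  intro y s u hy
  cases u
  · rfl
  · rw [h.pr, show j - 1 + 1 = j by ring] at hy
    exact absurd (hA _ _ _ hy) (by simp)

theorem allb (h : Rows m d e T it) (hm : 4 ≤ m) (b : Bool) {j : ℤ}
    (hA : ∀ x s u, it x j s u → u = b) : ∀ x s u, it x (j - 1) s u → u = !b := by
  cases b
  · exact h.down_up hm hA
  · exact h.up_down hA

theorem allb2 (h : Rows m d e T it) (hm : 4 ≤ m) (b : Bool) {j : ℤ}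
    (hA : ∀ x s u, it x j s u → u = b) (n : ℕ) : ∀ x s u, it x (j - 2 * n) s u → u = b := by
  induction n with
  | zero => simpa using hA
  | succ n ih =>
    have h1 := h.allb hm (!b) (h.allb hm b ih)
    rw [Bool.not_not] at h1
    push_cast
    rw [show j - 2 * ((n : ℤ) + 1) = j - 2 * n - 1 - 1 by ring]
    exact h1

/-- every row has items of both directions -/
theorem mixed (h : Rows m d e T it) (hm : 4 ≤ m) (hd : d % 2 = 1) (hd0 : 0 < d) (b : Bool) (j : ℤ) :
    ∃ x s, it x j s b := by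
  by_contra hcon
  have hA : ∀ x s u, it x j s u → u = !b := by
    intro x s u hx
    by_contra hu
    apply hcon
    refine ⟨x, s, ?_⟩
    have : u = b := by cases u <;> cases b <;> simp_all
    rwa [this] at hx
  have h1 := h.allb hm _ (h.allb2 hm _ hA (d / 2).toNat)
  rw [show j - 2 * (((d / 2).toNat : ℕ) : ℤ) - 1 = j - d by omega, Bool.not_not] at h1
  obtain ⟨y, s, u, hy, -, -⟩ := h.cov 0 j
  have h2 := hA _ _ _ hy
  have h3 := h1 _ _ _ ((h.sh _ _ _ _).2 hy)
  rw [h2] at h3
  cases b <;> simp at h3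

/-- enumeration of a row -/
theorem enum (h : Rows m d e T it) (hm : 4 ≤ m) (j : ℤ) :
    ∃ (X : ℤ → ℤ) (S U : ℤ → Bool), (∀ N, it (X N) j (S N) (U N)) ∧
      (∀ N, X (N + 1) = X N + len m (S N)) := by
  classical
  let V := {v : ℤ × Bool × Bool // it v.1 j v.2.1 v.2.2}
  have hn : ∀ v : V, ∃ w : V, w.1.1 = v.1.1 + len m v.1.2.1 := by
    rintro ⟨⟨y, s, u⟩, hv⟩
    obtain ⟨s', u', h'⟩ := h.nxt hm hv
    exact ⟨⟨(_, s', u'), h'⟩, rfl⟩
  have hp : ∀ v : V, ∃ w : V, v.1.1 = w.1.1 + len m w.1.2.1 := by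
    rintro ⟨⟨y, s, u⟩, hv⟩
    obtain ⟨s', u', h'⟩ := h.prv hm hv
    exact ⟨⟨(_, s', u'), h'⟩, by simp⟩
  have hstart : ∀ v w : V, v.1.1 = w.1.1 → v = w := by
    rintro ⟨⟨y, s, u⟩, hv⟩ ⟨⟨y', s', u'⟩, hw⟩ (rfl : y = y')
    obtain ⟨-, h1, h2⟩ := h.disj hm hv hw le_rfl (by
      show y < y + len m s
      have := len_pos hm s
      omega)
    have h1' : s = s' := h1
    have h2' : u = u' := h2
    subst h1' h2'
    rfl
  have hend : ∀ v w : V, v.1.1 + len m v.1.2.1 = w.1.1 + len m w.1.2.1 → v = w := by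
    intro v w hvw
    have h1 := len_pos hm v.1.2.1
    have h2 := len_pos hm w.1.2.1
    apply hstart
    exact (h.uniq (v.1.1 + len m v.1.2.1 - 1) j _ _ _ _ _ _ v.2 w.2 (by omega) (by omega)
      (by omega) (by omega)).1
  choose nx hnx using hn
  choose pv hpv using hp
  let E : Equiv.Perm V := ⟨nx, pv, fun v => hend _ _ (by rw [← hpv, hnx]), fun v => hstart _ _ (by
    rw [hnx, ← hpv])⟩
  obtain ⟨y, s, u, hy, -, -⟩ := h.cov 0 j
  let v0 : V := ⟨(y, s, u), hy⟩
  refine ⟨fun N => ((E ^ N) v0).1.1, fun N => ((E ^ N) v0).1.2.1, fun N => ((E ^ N) v0).1.2.2,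
    fun N => ((E ^ N) v0).2, fun N => ?_⟩
  have : (E ^ (N + 1)) v0 = nx ((E ^ N) v0) := by
    rw [add_comm, zpow_add, zpow_one]; rfl
  simp only [this]
  exact hnx _

end Rows

/-- a row given by its consecutive items -/
structure Seq (m : ℤ) (itj : ℤ → Bool → Bool → Prop) (X : ℤ → ℤ) (S U : ℤ → Bool) : Prop where
  mem : ∀ N, itj (X N) (S N) (U N)
  nx : ∀ N, X (N + 1) = X N + len m (S N)

namespace Seq

variable {X : ℤ → ℤ} {S U : ℤ → Bool} {j : ℤ}

theorem lin (hm : 4 ≤ m) (q : Seq m (fun x => it x j) X S U) {N M : ℤ} (hNM : N ≤ M) :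
    X N + (M - N) ≤ X M := by
  induction M, hNM using Int.leInduction with
  | base => simp
  | succ M _ ih =>
    rw [q.nx]
    have := len_pos hm (S M)
    omega

theorem lt (hm : 4 ≤ m) (q : Seq m (fun x => it x j) X S U) {N M : ℤ} (hNM : N < M) :
    X N + len m (S N) ≤ X M := by
  have := q.lin hm (show N + 1 ≤ M by omega)
  rw [q.nx] at this
  omega

theorem inj (hm : 4 ≤ m) (q : Seq m (fun x => it x j) X S U) {N M : ℤ} (hX : X N = X M) :
    N = M := by
  rcases lt_trichotomy N M with h | h | h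
  · have := q.lin hm h.le; omega
  · exact h
  · have := q.lin hm h.le; omega

theorem surj (h : Rows m d e T it) (hm : 4 ≤ m) (q : Seq m (fun x => it x j) X S U) {y : ℤ}
    {s u : Bool} (hy : it y j s u) : ∃ N, X N = y ∧ S N = s ∧ U N = u := by
  obtain ⟨N, h1, h2⟩ := Int.exists_greatest_of_bdd (P := fun N => X N ≤ y)
    ⟨max 0 (y - X 0), fun z hz => by
      rcases le_or_gt z 0 with h3 | h3
      · exact h3.trans (le_max_left _ _)
      · have := q.lin hm h3.le
        exact le_trans (by omega) (le_max_right _ _)⟩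
    ⟨min 0 (y - X 0), by
      have := q.lin hm (min_le_left 0 (y - X 0))
      have h4 := min_le_right 0 (y - X 0)
      show X _ ≤ y
      omega⟩
  have h3 : y < X N + len m (S N) := by
    rw [← q.nx]
    by_contra hcon
    have := h2 (N + 1) (by omega)
    omega
  exact ⟨N, h.disj hm (q.mem N) hy h1 h3⟩

theorem at_eq (h : Rows m d e T it) (hm : 4 ≤ m) (q : Seq m (fun x => it x j) X S U) {N : ℤ}
    {s u : Bool} (hy : it (X N) j s u) : S N = s ∧ U N = u :=
  (h.disj hm (q.mem N) hy le_rfl (by have := len_pos hm (S N); omega)).2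

/-- two enumerations of the same row coincide after a shift of the index -/
theorem coincide (h : Rows m d e T it) (hm : 4 ≤ m) (q : Seq m (fun x => it x j) X S U)
    {X' : ℤ → ℤ} {S' U' : ℤ → Bool} (q' : Seq m (fun x => it x j) X' S' U') {a : ℤ}
    (h0 : X a = X' 0) : ∀ N, X (N + a) = X' N ∧ S (N + a) = S' N ∧ U (N + a) = U' N := by
  have key : ∀ N, X (N + a) = X' N → X (N + a) = X' N ∧ S (N + a) = S' N ∧ U (N + a) = U' N := by
    intro N hN
    have := q.at_eq h hm (N := N + a) (s := S' N) (u := U' N) (by rw [hN]; exact q'.mem N)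
    exact ⟨hN, this⟩
  intro N
  induction N using Int.induction_on with
  | zero => exact key 0 (by rw [zero_add]; exact h0)
  | succ n ih =>
    apply key
    rw [show (n : ℤ) + 1 + a = n + a + 1 by ring, q.nx, q'.nx, ih.1, ih.2.1]
  | pred n ih =>
    apply key
    -- both items end at the same place
    have h1 := q.nx (-(n : ℤ) - 1 + a)
    have h2 := q'.nx (-(n : ℤ) - 1)
    rw [show -(n : ℤ) - 1 + a + 1 = -n + a by ring, ih.1] at h1
    rw [show -(n : ℤ) - 1 + 1 = -n by ring] at h2
    have h3 := len_pos hm (S (-(n : ℤ) - 1 + a))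
    have h4 := len_pos hm (S' (-(n : ℤ) - 1))
    exact (h.uniq (X' (-n) - 1) j _ _ _ _ _ _ (q.mem (-(n : ℤ) - 1 + a)) (q'.mem (-(n : ℤ) - 1))
      (by omega) (by omega) (by omega) (by omega)).1

end Seq

end MPae024f
end

section
/-! Monohedral tilings of `ℤ` in terms of translation sets; scaling; periodic tilings. -/
namespace MPae024f

/-- every integer is covered exactly once by the translates `t + A` (`P t`) and `t - A` (`Q t`) -/
def PQ (A : Set ℤ) (P Q : ℤ → Prop) : Prop :=
  ∀ p : ℤ, ∃! s : Bool × ℤ, s.2 ∈ A ∧ (if s.1 = true then P (p - s.2) else Q (p + s.2))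

theorem translate_inj {A : Set ℤ} (hf : A.Finite) (hne : A.Nonempty) {t t' : ℤ}
    (h : {p : ℤ | ∃ a ∈ A, p = t + a} = {p : ℤ | ∃ a ∈ A, p = t' + a}) : t = t' := by
  obtain ⟨a, ha⟩ := Set.Finite.exists_minimal hf hne
  have hmin : ∀ b ∈ A, a ≤ b := by
    intro b hb
    by_contra hcon
    have := ha.2 hb (by omega)
    omega
  have h1 : t + a ∈ {p : ℤ | ∃ a ∈ A, p = t' + a} := by rw [← h]; exact ⟨a, ha.1, rfl⟩
  have h2 : t' + a ∈ {p : ℤ | ∃ a ∈ A, p = t + a} := by rw [h]; exact ⟨a, ha.1, rfl⟩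
  obtain ⟨b, hb, hb'⟩ := h1
  obtain ⟨b', hb1, hb1'⟩ := h2
  have := hmin b hb
  have := hmin b' hb1
  omega

theorem translate_inj' {A : Set ℤ} (hf : A.Finite) (hne : A.Nonempty) {t t' : ℤ}
    (h : {p : ℤ | ∃ a ∈ A, p = t + -a} = {p : ℤ | ∃ a ∈ A, p = t' + -a}) : t = t' := by
  have h1 : {p : ℤ | ∃ a ∈ A, p = -t + a} = {p : ℤ | ∃ a ∈ A, p = -t' + a} := by
    ext p
    have h2 : -p ∈ {p : ℤ | ∃ a ∈ A, p = t + -a} ↔ -p ∈ {p : ℤ | ∃ a ∈ A, p = t' + -a} := by rw [h]
    constructor
    · rintro ⟨a, ha, hp⟩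
      obtain ⟨b, hb, hb'⟩ := h2.1 ⟨a, ha, by omega⟩
      exact ⟨b, hb, by omega⟩
    · rintro ⟨a, ha, hp⟩
      obtain ⟨b, hb, hb'⟩ := h2.2 ⟨a, ha, by omega⟩
      exact ⟨b, hb, by omega⟩
  have := translate_inj hf hne h1
  omega

theorem pq_of_partition {A : Set ℤ} (hf : A.Finite) (hne : A.Nonempty)
    (h : ∃ parts : Set (Set ℤ), Setoid.IsPartition parts ∧
      ∀ S ∈ parts, ∃ t : ℤ, S = {p | ∃ a ∈ A, p = t + a} ∨ S = {p | ∃ a ∈ A, p = t + -a}) :
    ∃ P Q, PQ A P Q := by
  obtain ⟨parts, hpart, htile⟩ := h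
  refine ⟨fun t => {p : ℤ | ∃ a ∈ A, p = t + a} ∈ parts,
    fun t => {p : ℤ | ∃ a ∈ A, p = t + -a} ∈ parts ∧
      ∀ t', {p : ℤ | ∃ a ∈ A, p = t + -a} ≠ {p : ℤ | ∃ a ∈ A, p = t' + a}, fun p => ?_⟩
  obtain ⟨S, ⟨hS, hpS⟩, huniq⟩ := hpart.2 p
  by_cases hex : ∃ t', S = {p : ℤ | ∃ a ∈ A, p = t' + a}
  · obtain ⟨t', ht'⟩ := hex
    rw [ht'] at hpS
    obtain ⟨a, ha, hpa⟩ := hpS
    refine ⟨(true, a), ⟨ha, ?_⟩, ?_⟩
    · simp only [if_true]
      rw [show p - a = t' by omega, ← ht']; exact hS
    · rintro ⟨σ, b⟩ ⟨hb, hc⟩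
      cases σ
      · exfalso
        simp only [Bool.false_eq_true, if_false] at hc
        have := huniq _ ⟨hc.1, ⟨b, hb, by omega⟩⟩
        exact hc.2 t' (this.trans ht')
      · simp only [if_true] at hc
        have h1 := huniq _ ⟨hc, ⟨b, hb, by omega⟩⟩
        have h2 := translate_inj hf hne (h1.trans ht')
        simp only [Prod.mk.injEq, true_and]
        omega
  · obtain ⟨t, ht | ht⟩ := htile S hS
    · exact absurd ⟨t, ht⟩ hex
    · rw [ht] at hpS
      obtain ⟨a, ha, hpa⟩ := hpS
      refine ⟨(false, a), ⟨ha, ?_⟩, ?_⟩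
      · simp only [Bool.false_eq_true, if_false]
        rw [show p + a = t by omega, ← ht]
        exact ⟨hS, fun t' ht' => hex ⟨t', ht'⟩⟩
      · rintro ⟨σ, b⟩ ⟨hb, hc⟩
        cases σ
        · simp only [Bool.false_eq_true, if_false] at hc
          have h1 := huniq _ ⟨hc.1, ⟨b, hb, by omega⟩⟩
          have h2 := translate_inj' hf hne (h1.trans ht)
          simp only [Prod.mk.injEq, true_and]
          omega
        · exfalso
          simp only [if_true] at hc
          have h1 := huniq _ ⟨hc, ⟨b, hb, by omega⟩⟩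
          exact hex ⟨_, h1.symm⟩

theorem partition_of_pq {A : Set ℤ} (hne : A.Nonempty) {P Q : ℤ → Prop} (h : PQ A P Q) :
    ∃ parts : Set (Set ℤ), Setoid.IsPartition parts ∧
      ∀ S ∈ parts, ∃ t : ℤ, S = {p | ∃ a ∈ A, p = t + a} ∨ S = {p | ∃ a ∈ A, p = t + -a} := by
  refine ⟨{S | ∃ t : ℤ, (P t ∧ S = {p | ∃ a ∈ A, p = t + a}) ∨
    (Q t ∧ S = {p | ∃ a ∈ A, p = t + -a})}, ⟨?_, ?_⟩, ?_⟩
  · obtain ⟨a, ha⟩ := hne
    rintro ⟨t, ⟨-, h1⟩ | ⟨-, h1⟩⟩
    · have : t + a ∈ (∅ : Set ℤ) := by rw [h1]; exact ⟨a, ha, rfl⟩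
      exact this
    · have : t + -a ∈ (∅ : Set ℤ) := by rw [h1]; exact ⟨a, ha, rfl⟩
      exact this
  · intro p
    obtain ⟨⟨σ, a⟩, ⟨ha, hc⟩, huniq⟩ := h p
    have hun : ∀ S : Set ℤ, (∃ t : ℤ, (P t ∧ S = {p | ∃ a ∈ A, p = t + a}) ∨
        (Q t ∧ S = {p | ∃ a ∈ A, p = t + -a})) → p ∈ S →
        S = if σ = true then {q | ∃ b ∈ A, q = (p - a) + b} else {q | ∃ b ∈ A, q = (p + a) + -b} := by
      rintro S ⟨t, ⟨hP, rfl⟩ | ⟨hQ, rfl⟩⟩ ⟨b, hb, hpb⟩
      · have := huniq (true, b) ⟨hb, by simp only [if_true]; rwa [show p - b = t by omega]⟩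
        simp only [Prod.mk.injEq] at this
        rw [← this.1, ← this.2, if_pos rfl, show p - b = t by omega]
      · have := huniq (false, b) ⟨hb, by
          simp only [Bool.false_eq_true, if_false]; rwa [show p + b = t by omega]⟩
        simp only [Prod.mk.injEq] at this
        rw [← this.1, ← this.2, if_neg (by simp), show p + b = t by omega]
    cases σ
    · simp only [Bool.false_eq_true, if_false] at hc hun
      exact ⟨_, ⟨⟨p + a, Or.inr ⟨hc, rfl⟩⟩, ⟨a, ha, by omega⟩⟩, fun S hS => hun S hS.1 hS.2⟩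
    · simp only [if_true] at hc hun
      exact ⟨_, ⟨⟨p - a, Or.inl ⟨hc, rfl⟩⟩, ⟨a, ha, by omega⟩⟩, fun S hS => hun S hS.1 hS.2⟩
  · rintro S ⟨t, ⟨-, h1⟩ | ⟨-, h1⟩⟩
    · exact ⟨t, Or.inl h1⟩
    · exact ⟨t, Or.inr h1⟩

theorem pq_scale {A : Set ℤ} (x g : ℤ) (hg : g ≠ 0) :
    (∃ P Q, PQ {p | ∃ a ∈ A, p = x + g * a} P Q) ↔ ∃ P Q, PQ A P Q := by
  constructor
  · rintro ⟨P, Q, h⟩
    refine ⟨fun t => P (g * t - x), fun t => Q (g * t + x), fun p => ?_⟩
    obtain ⟨⟨σ, b⟩, ⟨⟨a, ha, hab⟩, hc⟩, huniq⟩ := h (g * p)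
    simp only at hab
    refine ⟨(σ, a), ⟨ha, ?_⟩, ?_⟩
    · cases σ
      · simp only [Bool.false_eq_true, if_false] at hc ⊢
        rwa [show g * (p + a) + x = g * p + b by rw [hab]; ring]
      · simp only [if_true] at hc ⊢
        rwa [show g * (p - a) - x = g * p - b by rw [hab]; ring]
    · rintro ⟨σ', a'⟩ ⟨ha', hc'⟩
      have := huniq (σ', x + g * a') ⟨⟨a', ha', rfl⟩, by
        cases σ'
        · simp only [Bool.false_eq_true, if_false] at hc' ⊢
          rwa [show g * p + (x + g * a') = g * (p + a') + x by ring]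
        · simp only [if_true] at hc' ⊢
          rwa [show g * p - (x + g * a') = g * (p - a') - x by ring]⟩
      simp only [Prod.mk.injEq] at this ⊢
      refine ⟨this.1, ?_⟩
      apply mul_left_cancel₀ hg
      linarith [this.2]
  · rintro ⟨P, Q, h⟩
    refine ⟨fun t => P ((t + x) / g), fun t => Q ((t - x) / g), fun p => ?_⟩
    have e1 : ∀ a : ℤ, (p - (x + g * a) + x) / g = p / g - a := by
      intro a
      rw [show p - (x + g * a) + x = p + g * (-a) by ring, Int.add_mul_ediv_left _ _ hg]; ring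
    have e2 : ∀ a : ℤ, (p + (x + g * a) - x) / g = p / g + a := by
      intro a
      rw [show p + (x + g * a) - x = p + g * a by ring, Int.add_mul_ediv_left _ _ hg]
    obtain ⟨⟨σ, a⟩, ⟨ha, hc⟩, huniq⟩ := h (p / g)
    refine ⟨(σ, x + g * a), ⟨⟨a, ha, rfl⟩, ?_⟩, ?_⟩
    · cases σ
      · simp only [Bool.false_eq_true, if_false] at hc ⊢
        rwa [e2]
      · simp only [if_true] at hc ⊢
        rwa [e1]
    · rintro ⟨σ', b⟩ ⟨⟨a', ha', hb⟩, hc'⟩
      simp only at hb
      subst hb
      have := huniq (σ', a') ⟨ha', by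
        cases σ'
        · simp only [Bool.false_eq_true, if_false] at hc' ⊢
          rwa [e2] at hc'
        · simp only [if_true] at hc' ⊢
          rwa [e1] at hc'⟩
      simp only [Prod.mk.injEq] at this ⊢
      exact ⟨this.1, by rw [this.2]⟩

/-- pigeonhole: a tile of bounded diameter that tiles also tiles periodically -/
theorem pq_periodic {A : Set ℤ} {L : ℤ} (hL : ∀ a ∈ A, -L ≤ a ∧ a ≤ L) (hL0 : 0 ≤ L)
    (h : ∃ P Q, PQ A P Q) :
    ∃ P Q, ∃ T > 0, PQ A P Q ∧ (∀ i, P (i + T) ↔ P i) ∧ ∀ i, Q (i + T) ↔ Q i := by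
  obtain ⟨P, Q, h⟩ := h
  let n := (2 * L + 1).toNat
  obtain ⟨z, z', hne, hzz⟩ := Finite.exists_ne_map_eq_of_infinite
    (fun z : ℤ => (fun i : Fin n => (P (z + i), Q (z + i))))
  -- wlog z < z'
  obtain ⟨z, z', hlt, hzz⟩ : ∃ z z' : ℤ, z < z' ∧ ∀ i : ℤ, 0 ≤ i → i ≤ 2 * L →
      ((P (z + i) ↔ P (z' + i)) ∧ (Q (z + i) ↔ Q (z' + i))) := by
    have key : ∀ i : ℤ, 0 ≤ i → i ≤ 2 * L →
        ((P (z + i) ↔ P (z' + i)) ∧ (Q (z + i) ↔ Q (z' + i))) := by
      intro i h0 h1
      have h2 := congrFun hzz ⟨i.toNat, by show i.toNat < (2 * L + 1).toNat; omega⟩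
      simp only [Prod.mk.injEq, eq_iff_iff] at h2
      rw [show ((i.toNat : ℕ) : ℤ) = i by omega] at h2
      exact h2
    rcases lt_or_gt_of_ne hne with h1 | h1
    · exact ⟨z, z', h1, key⟩
    · exact ⟨z', z, h1, fun i h0 h1 => ⟨(key i h0 h1).1.symm, (key i h0 h1).2.symm⟩⟩
  set T := z' - z with hT
  have hT0 : 0 < T := by omega
  have red : ∀ k : ℕ, ∀ s : ℤ, s = k → s ≤ T + 2 * L →
      ((P (z + s) ↔ P (z + s % T)) ∧ (Q (z + s) ↔ Q (z + s % T))) := by
    intro k
    induction k using Nat.strong_induction_on with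
    | _ k ih =>
      intro s hs hsle
      rcases lt_or_ge s T with h1 | h1
      · rw [Int.emod_eq_of_lt (by omega) h1]; exact ⟨Iff.rfl, Iff.rfl⟩
      · have h2 := hzz (s - T) (by omega) (by omega)
        have h3 := ih (s - T).toNat (by omega) (s - T) (by omega) (by omega)
        rw [show z' + (s - T) = z + s by omega] at h2
        rw [show (s - T) % T = s % T by
          rw [Int.sub_emod_right]] at h3
        exact ⟨h2.1.symm.trans h3.1, h2.2.symm.trans h3.2⟩
  refine ⟨fun i => P (z + i % T), fun i => Q (z + i % T), T, hT0, fun p => ?_,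
    fun i => by show P (z + (i + T) % T) ↔ P (z + i % T); rw [Int.add_emod_right],
    fun i => by show Q (z + (i + T) % T) ↔ Q (z + i % T); rw [Int.add_emod_right]⟩
  set r := (p - L) % T with hr
  have hr0 : 0 ≤ r := Int.emod_nonneg _ (by omega)
  have hr1 : r < T := Int.emod_lt_of_pos _ hT0
  have hrp : ∀ a : ℤ, (p + a) % T = (r + L + a) % T := by
    intro a
    rw [show p + a = (p - L) + (L + a) by ring, show r + L + a = r + (L + a) by ring, hr,
      Int.emod_add_emod]
  obtain ⟨⟨σ, a⟩, ⟨ha, hc⟩, huniq⟩ := h (z + r + L)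
  have tr : ∀ (σ : Bool) (a : ℤ), a ∈ A →
      ((if σ = true then P (z + r + L - a) else Q (z + r + L + a)) ↔
       (if σ = true then P (z + (p - a) % T) else Q (z + (p + a) % T))) := by
    intro σ a ha
    have hb := hL a ha
    cases σ
    · simp only [Bool.false_eq_true, if_false]
      rw [hrp, ← (red (r + L + a).toNat (r + L + a) (by omega) (by omega)).2,
        show z + r + L + a = z + (r + L + a) by ring]
    · simp only [if_true]
      rw [show p - a = p + -a by ring, hrp,
        ← (red (r + L + -a).toNat (r + L + -a) (by omega) (by omega)).1,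
        show z + r + L - a = z + (r + L + -a) by ring]
  refine ⟨(σ, a), ⟨ha, (tr σ a ha).1 hc⟩, ?_⟩
  rintro ⟨σ', a'⟩ ⟨ha', hc'⟩
  exact huniq _ ⟨ha', (tr σ' a' ha').2 hc'⟩

theorem bool_ne {a b : Bool} (h : a ≠ b) : (a = true ∧ b = false) ∨ (a = false ∧ b = true) := by
  revert h; cases a <;> cases b <;> decide

theorem beq_cancel {s u u' : Bool} (h : (s == u) = (s == u')) : u = u' := by
  revert h; cases s <;> cases u <;> cases u' <;> decide

/-- the tile: a progression of length `k - 1` with difference `d`, and the point `e` -/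
def Tl (k d e : ℤ) : Set ℤ := {p | (∃ i, 0 ≤ i ∧ i ≤ k - 2 ∧ p = d * i) ∨ p = e}

def itm (k d e : ℤ) (P Q : ℤ → Prop) (x j : ℤ) (s u : Bool) : Prop :=
  match s, u with
  | true, true => P (d * x + e * j)
  | true, false => Q (d * (x + (k - 2)) + e * j)
  | false, true => Q (d * x + e * (j + 1))
  | false, false => P (d * x + e * (j - 1))

theorem rows_of_pq {k d e T : ℤ} {P Q : ℤ → Prop} (hk : 5 ≤ k) (hd0 : 0 < d)
    (he : ∀ i, 0 ≤ i → i ≤ k - 2 → e ≠ d * i) (h : PQ (Tl k d e) P Q)
    (hP : ∀ i, P (i + T) ↔ P i) (hQ : ∀ i, Q (i + T) ↔ Q i) :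
    Rows (k - 1) d e T (itm k d e P Q) := by
  have hcell : ∀ x j y : ℤ, ∀ s u : Bool, itm k d e P Q y j s u → y ≤ x → x < y + len (k - 1) s →
      ∃ a, a ∈ Tl k d e ∧ (if (s == u) = true then P (d * x + e * j - a) else
        Q (d * x + e * j + a)) ∧
        (s = true → a = if u = true then d * (x - y) else d * (y + (k - 2) - x)) ∧
        (s = false → a = e) := by
    intro x j y s u hy h1 h2
    cases s <;> cases u
    · -- single down
      simp only [len, Bool.false_eq_true, if_false] at h2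
      have hxy : y = x := by omega
      subst hxy
      refine ⟨e, Or.inr rfl, ?_, by simp, fun _ => rfl⟩
      rw [if_pos (show (false == false) = true from rfl),
        show d * y + e * j - e = d * y + e * (j - 1) by ring]
      exact hy
    · simp only [len, Bool.false_eq_true, if_false] at h2
      have hxy : y = x := by omega
      subst hxy
      refine ⟨e, Or.inr rfl, ?_, by simp, fun _ => rfl⟩
      rw [if_neg (by simp), show d * y + e * j + e = d * y + e * (j + 1) by ring]
      exact hy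
    · simp only [len, if_true] at h2
      refine ⟨d * (y + (k - 2) - x), Or.inl ⟨_, by omega, by omega, rfl⟩, ?_, ?_, ?_⟩
      · rw [if_neg (by simp), show d * x + e * j + d * (y + (k - 2) - x) =
          d * (y + (k - 2)) + e * j by ring]
        exact hy
      · intro _; rw [if_neg (by simp)]
      · intro hh; simp at hh
    · simp only [len, if_true] at h2
      refine ⟨d * (x - y), Or.inl ⟨_, by omega, by omega, rfl⟩, ?_, ?_, ?_⟩
      · rw [if_pos (by rfl), show d * x + e * j - d * (x - y) = d * y + e * j by ring]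
        exact hy
      · intro _; rw [if_pos rfl]
      · intro hh; simp at hh
  refine ⟨?_, ?_, ?_, ?_, ?_⟩
  · intro x j
    obtain ⟨⟨σ, a⟩, ⟨ha, hc⟩, -⟩ := h (d * x + e * j)
    simp only at ha hc
    rcases ha with ⟨i, h0, h1, rfl⟩ | rfl
    · cases σ
      · simp only [Bool.false_eq_true, if_false] at hc
        refine ⟨x + i - (k - 2), true, false, ?_, by omega, by simp only [len, if_true]; omega⟩
        show Q (d * (x + i - (k - 2) + (k - 2)) + e * j)
        rwa [show d * (x + i - (k - 2) + (k - 2)) + e * j = d * x + e * j + d * i by ring]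
      · simp only [if_true] at hc
        refine ⟨x - i, true, true, ?_, by omega, by simp only [len, if_true]; omega⟩
        show P (d * (x - i) + e * j)
        rwa [show d * (x - i) + e * j = d * x + e * j - d * i by ring]
    · cases σ
      · simp only [Bool.false_eq_true, if_false] at hc
        refine ⟨x, false, true, ?_, by omega, by simp [len]⟩
        show Q (d * x + a * (j + 1))
        rwa [show d * x + a * (j + 1) = d * x + a * j + a by ring]
      · simp only [if_true] at hc
        refine ⟨x, false, false, ?_, by omega, by simp [len]⟩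
        show P (d * x + a * (j - 1))
        rwa [show d * x + a * (j - 1) = d * x + a * j - a by ring]
  · intro x j y s u y' s' u' hy hy' h1 h2 h3 h4
    obtain ⟨a, ha, hc, hs1, hs2⟩ := hcell x j y s u hy h1 h2
    obtain ⟨a', ha', hc', hs1', hs2'⟩ := hcell x j y' s' u' hy' h3 h4
    have heq := (h (d * x + e * j)).unique (y₁ := (s == u, a)) (y₂ := (s' == u', a'))
      ⟨ha, hc⟩ ⟨ha', hc'⟩
    simp only [Prod.mk.injEq] at heq
    obtain ⟨e1, e2⟩ := heq
    have hss : s = s' := by
      by_contra hne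
      have hcase : (s = true ∧ s' = false) ∨ (s = false ∧ s' = true) := bool_ne hne
      rcases hcase with ⟨c1, c2⟩ | ⟨c1, c2⟩
      · have f1 := hs1 c1
        have f2 := hs2' c2
        subst c1
        simp only [len, if_true] at h2
        rw [← e2, f1] at f2
        split_ifs at f2
        · exact he (x - y) (by omega) (by omega) f2.symm
        · exact he (y + (k - 2) - x) (by omega) (by omega) f2.symm
      · have f1 := hs1' c2
        have f2 := hs2 c1
        subst c2
        simp only [len, if_true] at h4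
        rw [e2, f1] at f2
        split_ifs at f2
        · exact he (x - y') (by omega) (by omega) f2.symm
        · exact he (y' + (k - 2) - x) (by omega) (by omega) f2.symm
    subst hss
    have huu : u = u' := beq_cancel e1
    subst huu
    refine ⟨?_, rfl, rfl⟩
    cases s
    · simp only [len, Bool.false_eq_true, if_false] at h2 h4
      omega
    · have f1 := hs1 rfl
      have f2 := hs1' rfl
      rw [← e2, f1] at f2
      split_ifs at f2
      · have := mul_left_cancel₀ (ne_of_gt hd0) f2; omega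
      · have := mul_left_cancel₀ (ne_of_gt hd0) f2; omega
  · intro x j s
    cases s
    · show Q _ ↔ Q _
      simp only [off, Bool.false_eq_true, if_false]
      rw [show d * (x - (k - 1 - 1) + (k - 2)) + e * (j + 1) = d * x + e * (j + 1) by ring]
    · show P _ ↔ P _
      simp only [off, if_true]
      rw [show d * (x - 0) + e * (j + 1 - 1) = d * x + e * j by ring]
  · intro x j s u
    cases s <;> cases u
    · show P _ ↔ P _
      rw [show d * (x + e) + e * (j - d - 1) = d * x + e * (j - 1) by ring]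
    · show Q _ ↔ Q _
      rw [show d * (x + e) + e * (j - d + 1) = d * x + e * (j + 1) by ring]
    · show Q _ ↔ Q _
      rw [show d * (x + e + (k - 2)) + e * (j - d) = d * (x + (k - 2)) + e * j by ring]
    · show P _ ↔ P _
      rw [show d * (x + e) + e * (j - d) = d * x + e * j by ring]
  · intro x j s u
    have hmul : ∀ (R : ℤ → Prop), (∀ i, R (i + T) ↔ R i) → ∀ i, R (i + d * T) ↔ R i := by
      intro R hR i
      have : ∀ n : ℕ, R (i + n * T) ↔ R i := by
        intro n
        induction n with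
        | zero => simp
        | succ n ih =>
          push_cast
          rw [show i + ((n : ℤ) + 1) * T = i + n * T + T by ring, hR, ih]
      have := this d.toNat
      rwa [show ((d.toNat : ℕ) : ℤ) = d by omega] at this
    cases s <;> cases u
    · show P _ ↔ P _
      rw [show d * (x + T) + e * (j - 1) = d * x + e * (j - 1) + d * T by ring]
      exact hmul P hP _
    · show Q _ ↔ Q _
      rw [show d * (x + T) + e * (j + 1) = d * x + e * (j + 1) + d * T by ring]
      exact hmul Q hQ _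
    · show Q _ ↔ Q _
      rw [show d * (x + T + (k - 2)) + e * j = d * (x + (k - 2)) + e * j + d * T by ring]
      exact hmul Q hQ _
    · show P _ ↔ P _
      rw [show d * (x + T) + e * j = d * x + e * j + d * T by ring]
      exact hmul P hP _

end MPae024f
end

section
/-! Existence of tilings of the integers by `{-b, 0, b, M}` and its reflection. -/
namespace MPae024f

/-- number of tiles covering `p`, tiles `t + {-b,0,b,M}` for `P t` and `t - {-b,0,b,M}` for `Q t` -/
def E8 (P Q : ℤ → Bool) (b M p : ℤ) : ℕ :=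
  (P (p + b)).toNat + (P p).toNat + (P (p - b)).toNat + (P (p - M)).toNat +
  (Q (p - b)).toNat + (Q p).toNat + (Q (p + b)).toNat + (Q (p + M)).toNat

def Good (b M : ℤ) : Prop := ∃ P Q : ℤ → Bool, ∀ p, E8 P Q b M p = 1

/-- good with period `n` -/
def GoodP (n b M : ℤ) : Prop := ∃ P Q : ℤ → Bool, (∀ p k, P (p + n * k) = P p) ∧
  (∀ p k, Q (p + n * k) = Q p) ∧ ∀ p, E8 P Q b M p = 1

theorem Good.neg_right {b M : ℤ} (h : Good b M) : Good b (-M) := by
  obtain ⟨P, Q, h⟩ := h
  refine ⟨fun p => P (-p), fun p => Q (-p), fun p => ?_⟩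
  have h1 := h (-p)
  unfold E8 at h1 ⊢
  simp only
  have e1 : -(p + b) = -p - b := by ring
  have e2 : -(p - b) = -p + b := by ring
  have e3 : -(p - -M) = -p - M := by ring
  have e4 : -(p + -M) = -p + M := by ring
  rw [e1, e2, e3, e4]
  omega

theorem Good.neg_left {b M : ℤ} (h : Good b M) : Good (-b) M := by
  obtain ⟨P, Q, h⟩ := h
  refine ⟨P, Q, fun p => ?_⟩
  have h1 := h p
  unfold E8 at h1 ⊢
  have e1 : p + -b = p - b := by ring
  have e2 : p - -b = p + b := by ring
  rw [e1, e2]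
  omega

theorem Good.scale {b M g : ℤ} (h : Good b M) (hg : 0 < g) : Good (g * b) (g * M) := by
  obtain ⟨P, Q, h⟩ := h
  refine ⟨fun p => P (p / g), fun p => Q (p / g), fun p => ?_⟩
  have h1 := h (p / g)
  unfold E8 at h1 ⊢
  simp only
  have hg' : g ≠ 0 := hg.ne'
  have e : ∀ k : ℤ, (p + g * k) / g = p / g + k := fun k => Int.add_mul_ediv_left p k hg'
  have e' : ∀ k : ℤ, (p - g * k) / g = p / g - k := fun k => by
    have := e (-k)
    rw [show p + g * -k = p - g * k by ring] at this
    rw [this]; ring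
  rw [e, e', e', e]
  exact h1

theorem GoodP.transfer {n b M M' c k1 k2 : ℤ} (h : GoodP n 1 M') (h1 : c * b = 1 + n * k1)
    (h2 : c * M = M' + n * k2) : Good b M := by
  obtain ⟨P, Q, hP, hQ, h⟩ := h
  refine ⟨fun p => P (c * p), fun p => Q (c * p), fun p => ?_⟩
  have h3 := h (c * p)
  unfold E8 at h3 ⊢
  simp only
  have e1 : c * (p + b) = (c * p + 1) + n * k1 := by rw [mul_add, h1]; ring
  have e2 : c * (p - b) = (c * p - 1) + n * (-k1) := by rw [mul_sub, h1]; ring
  have e3 : c * (p - M) = (c * p - M') + n * (-k2) := by rw [mul_sub, h2]; ring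
  have e4 : c * (p + M) = (c * p + M') + n * k2 := by rw [mul_add, h2]; ring
  rw [e1, e2, e3, e4, hP, hP, hP, hQ, hQ, hQ]
  exact h3

/-! ### periodic patterns given by masks -/

def tb (R W : ℤ) (m : ℕ) (ρ y : ℤ) : Bool := m.testBit ((ρ % R) * W + y).toNat

def PP (R W L : ℤ) (mk : ℤ → ℕ) (p : ℤ) : Bool :=
  tb R W (mk ((p / W) % L)) ((p / W) / L) (p % W)

theorem PP_eq {R W L : ℤ} (mk : ℤ → ℕ) {ρ i y : ℤ} (hi0 : 0 ≤ i) (hi : i < L) (hy0 : 0 ≤ y)
    (hy : y < W) : PP R W L mk (W * (L * ρ + i) + y) = tb R W (mk i) ρ y := by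
  have hW : W ≠ 0 := by omega
  have hL : L ≠ 0 := by omega
  unfold PP
  have e1 : (W * (L * ρ + i) + y) / W = L * ρ + i := by
    rw [add_comm, Int.add_mul_ediv_left _ _ hW, Int.ediv_eq_zero_of_lt hy0 hy, zero_add]
  have e2 : (W * (L * ρ + i) + y) % W = y := by
    rw [add_comm, Int.add_mul_emod_self_left, Int.emod_eq_of_lt hy0 hy]
  have e3 : (L * ρ + i) % L = i := by
    rw [add_comm, Int.add_mul_emod_self_left, Int.emod_eq_of_lt hi0 hi]
  have e4 : (L * ρ + i) / L = ρ := by
    rw [add_comm, Int.add_mul_ediv_left _ _ hL, Int.ediv_eq_zero_of_lt hi0 hi, zero_add]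
  rw [e1, e2, e3, e4]

theorem PP_periodic {R W L : ℤ} (mk : ℤ → ℕ) (hW : 0 < W) (hL : 0 < L) (p k : ℤ) :
    PP R W L mk (p + (R * W * L) * k) = PP R W L mk p := by
  unfold PP
  have e1 : (p + R * W * L * k) / W = p / W + L * (R * k) := by
    rw [show R * W * L * k = W * (L * (R * k)) by ring, Int.add_mul_ediv_left _ _ hW.ne']
  have e2 : (p + R * W * L * k) % W = p % W := by
    rw [show R * W * L * k = W * (L * (R * k)) by ring, Int.add_mul_emod_self_left]
  rw [e1, e2, Int.add_mul_emod_self_left, Int.add_mul_ediv_left _ _ hL.ne']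
  unfold tb
  rw [Int.add_mul_emod_self_left]

def gt (R W : ℤ) (l m r : ℕ) (ls rs ρ z : ℤ) : Bool :=
  if z < 0 then tb R W l (ρ + ls) (z + W)
  else if z < W then tb R W m ρ z
  else tb R W r (ρ + rs) (z - W)

def loc (R W κ h : ℤ) (l m r : ℕ × ℕ) (ls rs ρ y : ℤ) : ℕ :=
  (gt R W l.1 m.1 r.1 ls rs ρ (y + 1)).toNat + (gt R W l.1 m.1 r.1 ls rs ρ y).toNat +
  (gt R W l.1 m.1 r.1 ls rs ρ (y - 1)).toNat + (gt R W l.1 m.1 r.1 ls rs (ρ - κ) (y + h)).toNat +
  (gt R W l.2 m.2 r.2 ls rs ρ (y - 1)).toNat + (gt R W l.2 m.2 r.2 ls rs ρ y).toNat +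
  (gt R W l.2 m.2 r.2 ls rs ρ (y + 1)).toNat + (gt R W l.2 m.2 r.2 ls rs (ρ + κ) (y - h)).toNat

def Chk (R W : ℕ) (κ h : ℤ) (l m r : ℕ × ℕ) (ls rs : ℤ) : Bool :=
  (List.range R).all fun ρ => (List.range W).all fun y =>
    loc R W κ h l m r ls rs (ρ : ℤ) (y : ℤ) == 1

theorem tb_emod (R W : ℤ) (m : ℕ) (ρ c y : ℤ) : tb R W m (ρ % R + c) y = tb R W m (ρ + c) y := by
  unfold tb; rw [Int.emod_add_emod]

theorem gt_emod (R W : ℤ) (l m r : ℕ) (ls rs ρ c z : ℤ) :
    gt R W l m r ls rs (ρ % R + c) z = gt R W l m r ls rs (ρ + c) z := by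
  unfold gt
  rw [add_assoc, tb_emod, tb_emod, add_assoc (ρ % R), tb_emod, ← add_assoc, ← add_assoc]

theorem loc_emod (R W κ h : ℤ) (l m r : ℕ × ℕ) (ls rs ρ y : ℤ) :
    loc R W κ h l m r ls rs (ρ % R) y = loc R W κ h l m r ls rs ρ y := by
  unfold loc
  have e0 : ∀ (l m r : ℕ) (z : ℤ), gt R W l m r ls rs (ρ % R) z = gt R W l m r ls rs ρ z := by
    intro l m r z
    have := gt_emod R W l m r ls rs ρ 0 z
    simpa using this
  rw [sub_eq_add_neg (ρ % R), sub_eq_add_neg ρ, gt_emod, gt_emod]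
  simp only [e0]

theorem loc_of_Chk {R W : ℕ} {κ h : ℤ} {l m r : ℕ × ℕ} {ls rs : ℤ} (hR : 0 < R)
    (H : Chk R W κ h l m r ls rs = true) (ρ y : ℤ) (hy0 : 0 ≤ y) (hy : y < W) :
    loc R W κ h l m r ls rs ρ y = 1 := by
  rw [← loc_emod]
  have hR' : (R : ℤ) ≠ 0 := by omega
  have h0 : 0 ≤ ρ % (R : ℤ) := Int.emod_nonneg _ hR'
  have h1 : ρ % (R : ℤ) < R := Int.emod_lt_of_pos _ (by omega)
  unfold Chk at H
  rw [List.all_eq_true] at H
  have H1 := H (ρ % (R : ℤ)).toNat (by rw [List.mem_range]; omega)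
  rw [List.all_eq_true] at H1
  have H2 := H1 y.toNat (by rw [List.mem_range]; omega)
  rw [beq_iff_eq, Int.toNat_of_nonneg h0, Int.toNat_of_nonneg hy0] at H2
  exact H2

/-- the master lemma -/
theorem master {R W : ℕ} {κ h L : ℤ} (mP mQ : ℤ → ℕ) (hR : 0 < R) (hh0 : 0 ≤ h) (hh : h ≤ W)
    (hW : 1 ≤ W) (hL : 1 ≤ L)
    (H : ∀ i, 0 ≤ i → i < L → Chk R W κ h
      (if 0 < i then (mP (i - 1), mQ (i - 1)) else (mP (L - 1), mQ (L - 1))) (mP i, mQ i)
      (if i + 1 < L then (mP (i + 1), mQ (i + 1)) else (mP 0, mQ 0))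
      (if 0 < i then 0 else -1) (if i + 1 < L then 0 else 1) = true) :
    GoodP (R * W * L) 1 (W * (L * κ) - h) := by
  refine ⟨PP R W L mP, PP R W L mQ, PP_periodic mP (by omega) (by omega),
    PP_periodic mQ (by omega) (by omega), fun p => ?_⟩
  have hW' : (0 : ℤ) < W := by omega
  have hL' : (0 : ℤ) < L := by omega
  -- decompose
  set s := p / (W : ℤ) with hs
  set y := p % (W : ℤ) with hy
  set i := s % L with hi
  set ρ := s / L with hρ
  have hy0 : 0 ≤ y := Int.emod_nonneg _ hW'.ne'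
  have hy1 : y < W := Int.emod_lt_of_pos _ hW'
  have hi0 : 0 ≤ i := Int.emod_nonneg _ hL'.ne'
  have hi1 : i < L := Int.emod_lt_of_pos _ hL'
  have hsL : s = L * ρ + i := (Int.mul_ediv_add_emod s L).symm
  have hp : p = W * (L * ρ + i) + y := by
    rw [← hsL]; exact (Int.mul_ediv_add_emod p W).symm
  have key : ∀ (mk : ℤ → ℕ) (σ z : ℤ), -(W : ℤ) ≤ z → z < 2 * W →
      PP R W L mk (W * (L * σ + i) + z) =
        gt R W (if 0 < i then mk (i - 1) else mk (L - 1)) (mk i)
          (if i + 1 < L then mk (i + 1) else mk 0)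
          (if 0 < i then 0 else -1) (if i + 1 < L then 0 else 1) σ z := by
    intro mk σ z hz0 hz1
    unfold gt
    by_cases hz : z < 0
    · rw [if_pos hz]
      by_cases hi2 : 0 < i
      · rw [if_pos hi2, if_pos hi2, add_zero,
          ← PP_eq (L := L) mk (ρ := σ) (i := i - 1) (y := z + W) (by omega) (by omega) (by omega) (by omega)]
        congr 1; ring
      · rw [if_neg hi2, if_neg hi2,
          ← PP_eq (L := L) mk (ρ := σ + -1) (i := L - 1) (y := z + W) (by omega) (by omega) (by omega)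
            (by omega)]
        congr 1
        have : i = 0 := by omega
        rw [this]; ring
    · rw [if_neg hz]
      by_cases hz2 : z < W
      · rw [if_pos hz2, PP_eq mk hi0 hi1 (by omega) hz2]
      · rw [if_neg hz2]
        by_cases hi2 : i + 1 < L
        · rw [if_pos hi2, if_pos hi2, add_zero,
            ← PP_eq (L := L) mk (ρ := σ) (i := i + 1) (y := z - W) (by omega) (by omega) (by omega)
              (by omega)]
          congr 1; ring
        · rw [if_neg hi2, if_neg hi2,
            ← PP_eq (L := L) mk (ρ := σ + 1) (i := 0) (y := z - W) (by omega) (by omega) (by omega)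
              (by omega)]
          congr 1
          have : i = L - 1 := by omega
          rw [this]; ring
  have hloc := loc_of_Chk hR (H i hi0 hi1) ρ y hy0 hy1
  unfold loc at hloc
  unfold E8
  have e1 : p + 1 = W * (L * ρ + i) + (y + 1) := by rw [hp]; ring
  have e2 : p - 1 = W * (L * ρ + i) + (y - 1) := by rw [hp]; ring
  have e3 : p - (W * (L * κ) - h) = W * (L * (ρ - κ) + i) + (y + h) := by rw [hp]; ring
  have e4 : p + (W * (L * κ) - h) = W * (L * (ρ + κ) + i) + (y - h) := by rw [hp]; ring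
  have e0 : PP R W L mP p = PP R W L mP (W * (L * ρ + i) + y) := by rw [← hp]
  have e0' : PP R W L mQ p = PP R W L mQ (W * (L * ρ + i) + y) := by rw [← hp]
  rw [e0, e0', e1, e2, e3, e4]
  rw [key mP ρ (y + 1) (by omega) (by omega), key mP ρ y (by omega) (by omega),
    key mP ρ (y - 1) (by omega) (by omega), key mP (ρ - κ) (y + h) (by omega) (by omega),
    key mQ ρ (y + 1) (by omega) (by omega), key mQ ρ y (by omega) (by omega),
    key mQ ρ (y - 1) (by omega) (by omega), key mQ (ρ + κ) (y - h) (by omega) (by omega)]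
  have f1 : ∀ (c : Prop) [Decidable c] (a b : ℕ × ℕ), (if c then a else b).1 = if c then a.1 else b.1 := by
    intro c _ a b; split <;> rfl
  have f2 : ∀ (c : Prop) [Decidable c] (a b : ℕ × ℕ), (if c then a else b).2 = if c then a.2 else b.2 := by
    intro c _ a b; split <;> rfl
  simp only [f1, f2] at hloc
  exact hloc

end MPae024f
end

section
namespace MPae024f

/-- masks `a0, a1, a2` followed by `a3` repeated -/
def mk4 (a0 a1 a2 a3 : ℕ) (i : ℤ) : ℕ :=
  if i = 0 then a0 else if i = 1 then a1 else if i = 2 then a2 else a3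

def mk2 (a0 a1 : ℕ) (i : ℤ) : ℕ := if i = 0 then a0 else a1

theorem family4 {R W : ℕ} {κ h : ℤ} (p0 q0 p1 q1 p2 q2 p3 q3 : ℕ) (hR : 0 < R) (hh0 : 0 ≤ h)
    (hh : h ≤ W) (hW : 1 ≤ W)
    (c1 : Chk R W κ h (p2, q2) (p0, q0) (p1, q1) (-1) 0 = true)
    (c2 : Chk R W κ h (p3, q3) (p0, q0) (p1, q1) (-1) 0 = true)
    (c3 : Chk R W κ h (p0, q0) (p1, q1) (p2, q2) 0 0 = true)
    (c4 : Chk R W κ h (p1, q1) (p2, q2) (p0, q0) 0 1 = true)
    (c5 : Chk R W κ h (p1, q1) (p2, q2) (p3, q3) 0 0 = true)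
    (c6 : Chk R W κ h (p2, q2) (p3, q3) (p3, q3) 0 0 = true)
    (c7 : Chk R W κ h (p2, q2) (p3, q3) (p0, q0) 0 1 = true)
    (c8 : Chk R W κ h (p3, q3) (p3, q3) (p3, q3) 0 0 = true)
    (c9 : Chk R W κ h (p3, q3) (p3, q3) (p0, q0) 0 1 = true)
    (L : ℤ) (hL : 3 ≤ L) : GoodP (R * W * L) 1 (W * (L * κ) - h) := by
  refine master (mk4 p0 p1 p2 p3) (mk4 q0 q1 q2 q3) hR hh0 hh hW (by omega) ?_
  intro i hi0 hi1
  have m0 : ∀ a b c d, mk4 a b c d 0 = a := fun a b c d => rfl
  have m1 : ∀ a b c d, mk4 a b c d 1 = b := fun a b c d => rfl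
  have m2 : ∀ a b c d, mk4 a b c d 2 = c := fun a b c d => rfl
  have m3 : ∀ a b c d j, 3 ≤ j → mk4 a b c d j = d := by
    intro a b c d j hj
    unfold mk4
    rw [if_neg (by omega), if_neg (by omega), if_neg (by omega)]
  have z1 : (0 : ℤ) < 1 := by norm_num
  have z2 : (0 : ℤ) < 2 := by norm_num
  have z3 : (0 : ℤ) < 3 := by norm_num
  have z0 : ¬ ((0 : ℤ) < 0) := by norm_num
  rcases lt_or_eq_of_le hi0 with hpos | h0
  · by_cases h1 : i = 1
    · subst h1
      have hc : (1 : ℤ) + 1 < L := by omega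
      rw [if_pos z1, if_pos z1, if_pos hc, if_pos hc]
      exact c3
    · by_cases h2 : i = 2
      · subst h2
        rw [if_pos z2, if_pos z2]
        by_cases h3 : (2 : ℤ) + 1 < L
        · rw [if_pos h3, if_pos h3]
          exact c5
        · rw [if_neg h3, if_neg h3]
          exact c4
      · have h3i : 3 ≤ i := by omega
        rw [if_pos hpos, if_pos hpos, m3 _ _ _ _ i h3i, m3 _ _ _ _ i h3i]
        by_cases h3 : i = 3
        · subst h3
          by_cases h4 : (3 : ℤ) + 1 < L
          · rw [if_pos h4, if_pos h4]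
            exact c6
          · rw [if_neg h4, if_neg h4]
            exact c7
        · rw [m3 _ _ _ _ (i - 1) (by omega), m3 _ _ _ _ (i - 1) (by omega)]
          by_cases h4 : i + 1 < L
          · rw [if_pos h4, if_pos h4, m3 _ _ _ _ (i + 1) (by omega), m3 _ _ _ _ (i + 1) (by omega)]
            exact c8
          · rw [if_neg h4, if_neg h4, m0, m0]; exact c9
  · subst h0
    have hc : (0 : ℤ) + 1 < L := by omega
    rw [if_neg z0, if_neg z0, if_pos hc, if_pos hc]
    by_cases h3 : L = 3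
    · subst h3
      exact c1
    · rw [m3 _ _ _ _ (L - 1) (by omega), m3 _ _ _ _ (L - 1) (by omega)]; exact c2

theorem family2 {R W : ℕ} {κ h : ℤ} (p0 q0 p1 q1 : ℕ) (hR : 0 < R) (hh0 : 0 ≤ h)
    (hh : h ≤ W) (hW : 1 ≤ W)
    (c1 : Chk R W κ h (p0, q0) (p0, q0) (p0, q0) (-1) 1 = true)
    (c2 : Chk R W κ h (p1, q1) (p0, q0) (p1, q1) (-1) 0 = true)
    (c3 : Chk R W κ h (p0, q0) (p1, q1) (p1, q1) 0 0 = true)
    (c4 : Chk R W κ h (p0, q0) (p1, q1) (p0, q0) 0 1 = true)
    (c5 : Chk R W κ h (p1, q1) (p1, q1) (p1, q1) 0 0 = true)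
    (c6 : Chk R W κ h (p1, q1) (p1, q1) (p0, q0) 0 1 = true)
    (L : ℤ) (hL : 1 ≤ L) : GoodP (R * W * L) 1 (W * (L * κ) - h) := by
  refine master (mk2 p0 p1) (mk2 q0 q1) hR hh0 hh hW (by omega) ?_
  intro i hi0 hi1
  have m0 : ∀ a b, mk2 a b 0 = a := fun a b => rfl
  have m1 : ∀ a b j, 1 ≤ j → mk2 a b j = b := by
    intro a b j hj
    unfold mk2
    rw [if_neg (by omega)]
  have z1 : (0 : ℤ) < 1 := by norm_num
  have z0 : ¬ ((0 : ℤ) < 0) := by norm_num
  rcases lt_or_eq_of_le hi0 with hpos | h0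
  · have hi : 1 ≤ i := hpos
    rw [if_pos hpos, if_pos hpos, m1 _ _ i hi, m1 _ _ i hi]
    by_cases h1 : i = 1
    · subst h1
      by_cases h2 : (1 : ℤ) + 1 < L
      · rw [if_pos h2, if_pos h2]; exact c3
      · rw [if_neg h2, if_neg h2]; exact c4
    · rw [m1 _ _ (i - 1) (by omega), m1 _ _ (i - 1) (by omega)]
      by_cases h2 : i + 1 < L
      · rw [if_pos h2, if_pos h2, m1 _ _ (i + 1) (by omega), m1 _ _ (i + 1) (by omega)]; exact c5
      · rw [if_neg h2, if_neg h2, m0, m0]; exact c6
  · subst h0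
    rw [if_neg z0, if_neg z0, m0, m0]
    by_cases h3 : L = 1
    · subst h3
      have hc : ¬ ((0 : ℤ) + 1 < 1) := by norm_num
      rw [if_neg hc, if_neg hc]; exact c1
    · have hc : (0 : ℤ) + 1 < L := by omega
      rw [if_pos hc, if_pos hc, m1 _ _ (L - 1) (by omega), m1 _ _ (L - 1) (by omega)]
      exact c2

theorem n1a (L : ℤ) (hL : 3 ≤ L) : GoodP (32 * L) 1 (4 * L) := by
  have h := family4 (R := 8) (W := 4) (κ := 1) (h := 0) 541065856 17039384 671220736 25169984
    1073905696 67115009 1074823200 67241985 (by norm_num) le_rfl (by norm_num) (by norm_num)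
    (by decide +kernel) (by decide +kernel) (by decide +kernel) (by decide +kernel)
    (by decide +kernel) (by decide +kernel) (by decide +kernel) (by decide +kernel)
    (by decide +kernel) L hL
  have e1 : ((8 : ℕ) : ℤ) * ((4 : ℕ) : ℤ) * L = 32 * L := by push_cast; ring
  have e2 : ((4 : ℕ) : ℤ) * (L * 1) - 0 = 4 * L := by push_cast; ring
  rw [e1, e2] at h
  exact h

theorem n1b (L : ℤ) (hL : 3 ≤ L) : GoodP (32 * L) 1 (4 * L * 3) := by
  have h := family4 (R := 8) (W := 4) (κ := 3) (h := 0) 4648 1149239297 2218852352 533008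
    138678272 33313 134480130 272662560 (by norm_num) le_rfl (by norm_num) (by norm_num)
    (by decide +kernel) (by decide +kernel) (by decide +kernel) (by decide +kernel)
    (by decide +kernel) (by decide +kernel) (by decide +kernel) (by decide +kernel)
    (by decide +kernel) L hL
  have e1 : ((8 : ℕ) : ℤ) * ((4 : ℕ) : ℤ) * L = 32 * L := by push_cast; ring
  have e2 : ((4 : ℕ) : ℤ) * (L * 3) - 0 = 4 * L * 3 := by push_cast; ring
  rw [e1, e2] at h
  exact h

theorem n1c (L : ℤ) (hL : 3 ≤ L) : GoodP (32 * L) 1 (4 * L * 5) := by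
  have h := family4 (R := 8) (W := 4) (κ := 5) (h := 0) 17041410 545275920 17041410 545275920
    553648258 541712 537936000 34079745 (by norm_num) le_rfl (by norm_num) (by norm_num)
    (by decide +kernel) (by decide +kernel) (by decide +kernel) (by decide +kernel)
    (by decide +kernel) (by decide +kernel) (by decide +kernel) (by decide +kernel)
    (by decide +kernel) L hL
  have e1 : ((8 : ℕ) : ℤ) * ((4 : ℕ) : ℤ) * L = 32 * L := by push_cast; ring
  have e2 : ((4 : ℕ) : ℤ) * (L * 5) - 0 = 4 * L * 5 := by push_cast; ring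
  rw [e1, e2] at h
  exact h

theorem n1d (L : ℤ) (hL : 3 ≤ L) : GoodP (32 * L) 1 (4 * L * 7) := by
  have h := family4 (R := 8) (W := 4) (κ := 7) (h := 0) 2130178 67637312 270533128 67125377
    545325568 135282692 545275920 134349060 (by norm_num) le_rfl (by norm_num) (by norm_num)
    (by decide +kernel) (by decide +kernel) (by decide +kernel) (by decide +kernel)
    (by decide +kernel) (by decide +kernel) (by decide +kernel) (by decide +kernel)
    (by decide +kernel) L hL
  have e1 : ((8 : ℕ) : ℤ) * ((4 : ℕ) : ℤ) * L = 32 * L := by push_cast; ring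
  have e2 : ((4 : ℕ) : ℤ) * (L * 7) - 0 = 4 * L * 7 := by push_cast; ring
  rw [e1, e2] at h
  exact h

theorem n2 (N : ℤ) (hN : 1 ≤ N) : GoodP (32 * N) 1 (16 * N - 4) := by
  have h := family2 (R := 2) (W := 16) (κ := 1) (h := 4) 2166848 2214593032 4198433 2215117312
    (by norm_num) (by norm_num) (by norm_num) (by norm_num)
    (by decide +kernel) (by decide +kernel) (by decide +kernel) (by decide +kernel)
    (by decide +kernel) (by decide +kernel) N hN
  have e1 : ((2 : ℕ) : ℤ) * ((16 : ℕ) : ℤ) * N = 32 * N := by push_cast; ring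
  have e2 : ((16 : ℕ) : ℤ) * (N * 1) - 4 = 16 * N - 4 := by push_cast; ring
  rw [e1, e2] at h
  exact h

theorem n3 (N : ℤ) (hN : 1 ≤ N) : GoodP (64 * N) 1 (32 * N - 8) := by
  have h := family2 (R := 2) (W := 32) (κ := 1) (h := 8) 576498140278965248 9242512403992805512
    576535519379333633 9242512919388880912
    (by norm_num) (by norm_num) (by norm_num) (by norm_num)
    (by decide +kernel) (by decide +kernel) (by decide +kernel) (by decide +kernel)
    (by decide +kernel) (by decide +kernel) N hN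
  have e1 : ((2 : ℕ) : ℤ) * ((32 : ℕ) : ℤ) * N = 64 * N := by push_cast; ring
  have e2 : ((32 : ℕ) : ℤ) * (N * 1) - 8 = 32 * N - 8 := by push_cast; ring
  rw [e1, e2] at h
  exact h

end MPae024f
end

section
/-! Half reflection: reflecting a part of a translational tile into the other parity class. -/
set_option autoImplicit false

namespace MPae024f

/-- every integer is covered exactly once by the translates `t + E` with `T t` -/
def TT (E : Set ℤ) (T : ℤ → Prop) : Prop := ∀ n : ℤ, ∃! x : ℤ, x ∈ E ∧ T (n - x)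

theorem tt_periodic {E : Set ℤ} {L : ℤ} (hL : ∀ a ∈ E, -L ≤ a ∧ a ≤ L) (hL0 : 0 ≤ L)
    (h : ∃ T, TT E T) : ∃ T, ∃ N > 0, TT E T ∧ ∀ i, T (i + N) ↔ T i := by
  obtain ⟨P, h⟩ := h
  let n := (2 * L + 1).toNat
  obtain ⟨z, z', hne, hzz⟩ := Finite.exists_ne_map_eq_of_infinite
    (fun z : ℤ => (fun i : Fin n => P (z + i)))
  obtain ⟨z, z', hlt, hzz⟩ : ∃ z z' : ℤ, z < z' ∧ ∀ i : ℤ, 0 ≤ i → i ≤ 2 * L →
      (P (z + i) ↔ P (z' + i)) := by
    have key : ∀ i : ℤ, 0 ≤ i → i ≤ 2 * L → (P (z + i) ↔ P (z' + i)) := by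
      intro i h0 h1
      have h2 := congrFun hzz ⟨i.toNat, by show i.toNat < (2 * L + 1).toNat; omega⟩
      simp only [eq_iff_iff] at h2
      rw [show ((i.toNat : ℕ) : ℤ) = i by omega] at h2
      exact h2
    rcases lt_or_gt_of_ne hne with h1 | h1
    · exact ⟨z, z', h1, key⟩
    · exact ⟨z', z, h1, fun i h0 h1 => (key i h0 h1).symm⟩
  set T := z' - z with hT
  have hT0 : 0 < T := by omega
  have red : ∀ k : ℕ, ∀ s : ℤ, s = k → s ≤ T + 2 * L → (P (z + s) ↔ P (z + s % T)) := by
    intro k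
    induction k using Nat.strong_induction_on with
    | _ k ih =>
      intro s hs hsle
      rcases lt_or_ge s T with h1 | h1
      · rw [Int.emod_eq_of_lt (by omega) h1]
      · have h2 := hzz (s - T) (by omega) (by omega)
        have h3 := ih (s - T).toNat (by omega) (s - T) (by omega) (by omega)
        rw [show z' + (s - T) = z + s by omega] at h2
        rw [show (s - T) % T = s % T by rw [Int.sub_emod_right]] at h3
        exact h2.symm.trans h3
  refine ⟨fun i => P (z + i % T), T, hT0, fun p => ?_,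
    fun i => by show P (z + (i + T) % T) ↔ P (z + i % T); rw [Int.add_emod_right]⟩
  set r := (p - L) % T with hr
  have hr0 : 0 ≤ r := Int.emod_nonneg _ (by omega)
  have hr1 : r < T := Int.emod_lt_of_pos _ hT0
  have hrp : ∀ a : ℤ, (p + a) % T = (r + L + a) % T := by
    intro a
    rw [show p + a = (p - L) + (L + a) by ring, show r + L + a = r + (L + a) by ring, hr,
      Int.emod_add_emod]
  obtain ⟨a, ⟨ha, hc⟩, huniq⟩ := h (z + r + L)
  have tr : ∀ a : ℤ, a ∈ E → (P (z + r + L - a) ↔ P (z + (p - a) % T)) := by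
    intro a ha
    have hb := hL a ha
    rw [show p - a = p + -a by ring, hrp,
      ← red (r + L + -a).toNat (r + L + -a) (by omega) (by omega),
      show z + r + L - a = z + (r + L + -a) by ring]
  refine ⟨a, ⟨ha, (tr a ha).1 hc⟩, ?_⟩
  rintro a' ⟨ha', hc'⟩
  exact huniq _ ⟨ha', (tr a' ha').2 hc'⟩

theorem period_mul {T : ℤ → Prop} {N : ℤ} (hN : ∀ i, T (i + N) ↔ T i) (k i : ℤ) :
    T (i + k * N) ↔ T i := by
  induction k using Int.induction_on with
  | zero => rw [zero_mul, add_zero]
  | succ k ih => rw [← ih, ← hN (i + k * N)]; ring_nf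
  | pred k ih => rw [← ih, ← hN (i + (-(k : ℤ) - 1) * N)]; ring_nf

/-- the reflected tile has the same translation set -/
theorem tt_neg {E : Set ℤ} {T : ℤ → Prop} {N : ℤ} (hN0 : 0 < N) (hN : ∀ i, T (i + N) ↔ T i)
    (h : TT E T) : ∀ n : ℤ, ∃! x : ℤ, x ∈ E ∧ T (n + x) := by
  choose x hx hu using h
  have hxN : ∀ n k : ℤ, x (n + k * N) = x n := by
    intro n k
    refine (hu (n + k * N) (x n) ⟨(hx n).1, ?_⟩).symm
    rw [show n + k * N - x n = (n - x n) + k * N by ring, period_mul hN]
    exact (hx n).2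
  -- injectivity modulo N
  have hinj : ∀ m n k : ℤ, m - 2 * x m = n - 2 * x n + k * N → m = n + k * N := by
    intro m n k hmn
    have e1 : (m - x m) + x n - x n = m - x m := by ring
    have e2 : (m - x m) + x n - x m = (n - x n) + k * N := by linarith
    have h2 := hu ((m - x m) + x n) (x n) ⟨(hx n).1, by rw [e1]; exact (hx m).2⟩
    have h3 := hu ((m - x m) + x n) (x m) ⟨(hx m).1, by
      rw [e2, period_mul hN]; exact (hx n).2⟩
    have h4 : x n = x m := h2.trans h3.symm
    rw [h4] at hmn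
    linarith
  let g : Fin N.toNat → Fin N.toNat := fun i =>
    ⟨(((i : ℕ) : ℤ) - 2 * x ((i : ℕ) : ℤ)) % N |>.toNat, by
      have h1 := Int.emod_nonneg (((i : ℕ) : ℤ) - 2 * x ((i : ℕ) : ℤ)) (by omega : N ≠ 0)
      have h2 := Int.emod_lt_of_pos (((i : ℕ) : ℤ) - 2 * x ((i : ℕ) : ℤ)) hN0
      omega⟩
  have hg : Function.Injective g := by
    intro i j hij
    have h1 := congrArg Fin.val hij
    simp only [g] at h1
    have hi0 := Int.emod_nonneg (((i : ℕ) : ℤ) - 2 * x ((i : ℕ) : ℤ)) (by omega : N ≠ 0)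
    have hj0 := Int.emod_nonneg (((j : ℕ) : ℤ) - 2 * x ((j : ℕ) : ℤ)) (by omega : N ≠ 0)
    have h2 : (((i : ℕ) : ℤ) - 2 * x ((i : ℕ) : ℤ)) % N =
        (((j : ℕ) : ℤ) - 2 * x ((j : ℕ) : ℤ)) % N := by omega
    obtain ⟨k, hk⟩ := Int.ModEq.dvd (show _ ≡ _ [ZMOD N] from h2.symm)
    have h3 := hinj _ _ k (show ((i : ℕ) : ℤ) - 2 * x ((i : ℕ) : ℤ) =
      ((j : ℕ) : ℤ) - 2 * x ((j : ℕ) : ℤ) + k * N by linarith [mul_comm N k])
    have hi := i.2
    have hj := j.2
    have h4 : k = 0 := by
      by_contra hk0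
      have hN' : (N.toNat : ℤ) = N := by omega
      have hi' : ((i : ℕ) : ℤ) < N := by omega
      have hj' : ((j : ℕ) : ℤ) < N := by omega
      rcases lt_or_gt_of_ne hk0 with hk1 | hk1
      · nlinarith
      · nlinarith
    rw [h4] at h3
    exact Fin.ext (by omega)
  have hs := Finite.injective_iff_surjective.1 hg
  intro n
  have hn0 := Int.emod_nonneg n (by omega : N ≠ 0)
  have hn1 := Int.emod_lt_of_pos n hN0
  obtain ⟨i, hi⟩ := hs ⟨(n % N).toNat, by omega⟩
  have h1 := congrArg Fin.val hi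
  simp only [g] at h1
  have hi0 := Int.emod_nonneg (((i : ℕ) : ℤ) - 2 * x ((i : ℕ) : ℤ)) (by omega : N ≠ 0)
  have h2 : (((i : ℕ) : ℤ) - 2 * x ((i : ℕ) : ℤ)) % N = n % N := by omega
  obtain ⟨k, hk⟩ := Int.ModEq.dvd (show _ ≡ _ [ZMOD N] from h2)
  refine ⟨x ((i : ℕ) : ℤ), ⟨(hx _).1, ?_⟩, ?_⟩
  · rw [show n + x ((i : ℕ) : ℤ) = (((i : ℕ) : ℤ) - x ((i : ℕ) : ℤ)) + k * N by
      linarith [mul_comm N k], period_mul hN]
    exact (hx _).2
  · intro y hy
    -- w = n + y + x i is represented in two ways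
    have e0 : T (n + x ((i : ℕ) : ℤ)) := by
      rw [show n + x ((i : ℕ) : ℤ) = (((i : ℕ) : ℤ) - x ((i : ℕ) : ℤ)) + k * N by
        linarith [mul_comm N k], period_mul hN]
      exact (hx _).2
    have h5 := hu (n + y + x ((i : ℕ) : ℤ)) (x ((i : ℕ) : ℤ)) ⟨(hx _).1, by
      rw [show n + y + x ((i : ℕ) : ℤ) - x ((i : ℕ) : ℤ) = n + y by ring]; exact hy.2⟩
    have h6 := hu (n + y + x ((i : ℕ) : ℤ)) y ⟨hy.1, by
      rw [show n + y + x ((i : ℕ) : ℤ) - y = n + x ((i : ℕ) : ℤ) by ring]; exact e0⟩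
    exact h6.trans h5.symm

/-- the set obtained from `2E` by reflecting the part not in `B` into the odd numbers -/
def halfRefl (E B : Set ℤ) (s : ℤ) : Set ℤ :=
  {p | ∃ x ∈ E, (x ∈ B ∧ p = 2 * x) ∨ (x ∉ B ∧ p = s - 2 * x)}

theorem halfRefl_pq {E B : Set ℤ} {s L : ℤ} (hs : s % 2 = 1) (hL : ∀ a ∈ E, -L ≤ a ∧ a ≤ L)
    (hL0 : 0 ≤ L) (h : ∃ T, TT E T) : ∃ P Q, PQ (halfRefl E B s) P Q := by
  obtain ⟨T, N, hN0, hT, hN⟩ := tt_periodic hL hL0 h
  have hT' := tt_neg hN0 hN hT
  refine ⟨fun t => t % 2 = 0 ∧ T (t / 2), fun t => t % 2 = 1 ∧ T ((t - s) / 2), fun p => ?_⟩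
  rcases Int.emod_two_eq_zero_or_one p with hp | hp
  · -- even p
    obtain ⟨x, ⟨hx, hTx⟩, hu⟩ := hT (p / 2)
    by_cases hxB : x ∈ B
    · refine ⟨(true, 2 * x), ⟨⟨x, hx, Or.inl ⟨hxB, rfl⟩⟩, ?_⟩, ?_⟩
      · simp only [if_true]
        refine ⟨by omega, ?_⟩
        rw [show (p - 2 * x) / 2 = p / 2 - x by omega]
        exact hTx
      · rintro ⟨σ, b⟩ ⟨⟨y, hy, hb⟩, hc⟩
        cases σ
        · simp only [Bool.false_eq_true, if_false] at hc
          rcases hb with ⟨hyB, hb⟩ | ⟨hyB, hb⟩
          · simp only at hb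
            omega
          · simp only at hb
            rw [show (p + b - s) / 2 = p / 2 - y by omega] at hc
            have := hu y ⟨hy, hc.2⟩
            exact absurd hxB (this ▸ hyB)
        · simp only [if_true] at hc
          rcases hb with ⟨hyB, hb⟩ | ⟨hyB, hb⟩
          · simp only at hb
            rw [show (p - b) / 2 = p / 2 - y by omega] at hc
            have := hu y ⟨hy, hc.2⟩
            simp only [Prod.mk.injEq, true_and]
            rw [hb, this]
          · simp only at hb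
            omega
    · refine ⟨(false, s - 2 * x), ⟨⟨x, hx, Or.inr ⟨hxB, rfl⟩⟩, ?_⟩, ?_⟩
      · simp only [Bool.false_eq_true, if_false]
        refine ⟨by omega, ?_⟩
        rw [show (p + (s - 2 * x) - s) / 2 = p / 2 - x by omega]
        exact hTx
      · rintro ⟨σ, b⟩ ⟨⟨y, hy, hb⟩, hc⟩
        cases σ
        · simp only [Bool.false_eq_true, if_false] at hc
          rcases hb with ⟨hyB, hb⟩ | ⟨hyB, hb⟩
          · simp only at hb
            omega
          · simp only at hb
            rw [show (p + b - s) / 2 = p / 2 - y by omega] at hc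
            have := hu y ⟨hy, hc.2⟩
            simp only [Prod.mk.injEq, true_and]
            rw [hb, this]
        · simp only [if_true] at hc
          rcases hb with ⟨hyB, hb⟩ | ⟨hyB, hb⟩
          · simp only at hb
            rw [show (p - b) / 2 = p / 2 - y by omega] at hc
            have := hu y ⟨hy, hc.2⟩
            exact absurd (this ▸ hyB) hxB
          · simp only at hb
            omega
  · -- odd p
    obtain ⟨x, ⟨hx, hTx⟩, hu⟩ := hT' ((p - s) / 2)
    by_cases hxB : x ∈ B
    · refine ⟨(false, 2 * x), ⟨⟨x, hx, Or.inl ⟨hxB, rfl⟩⟩, ?_⟩, ?_⟩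
      · simp only [Bool.false_eq_true, if_false]
        refine ⟨by omega, ?_⟩
        rw [show (p + 2 * x - s) / 2 = (p - s) / 2 + x by omega]
        exact hTx
      · rintro ⟨σ, b⟩ ⟨⟨y, hy, hb⟩, hc⟩
        cases σ
        · simp only [Bool.false_eq_true, if_false] at hc
          rcases hb with ⟨hyB, hb⟩ | ⟨hyB, hb⟩
          · simp only at hb
            rw [show (p + b - s) / 2 = (p - s) / 2 + y by omega] at hc
            have := hu y ⟨hy, hc.2⟩
            simp only [Prod.mk.injEq, true_and]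
            rw [hb, this]
          · simp only at hb
            omega
        · simp only [if_true] at hc
          rcases hb with ⟨hyB, hb⟩ | ⟨hyB, hb⟩
          · simp only at hb
            omega
          · simp only at hb
            rw [show (p - b) / 2 = (p - s) / 2 + y by omega] at hc
            have := hu y ⟨hy, hc.2⟩
            exact absurd hxB (this ▸ hyB)
    · refine ⟨(true, s - 2 * x), ⟨⟨x, hx, Or.inr ⟨hxB, rfl⟩⟩, ?_⟩, ?_⟩
      · simp only [if_true]
        refine ⟨by omega, ?_⟩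
        rw [show (p - (s - 2 * x)) / 2 = (p - s) / 2 + x by omega]
        exact hTx
      · rintro ⟨σ, b⟩ ⟨⟨y, hy, hb⟩, hc⟩
        cases σ
        · simp only [Bool.false_eq_true, if_false] at hc
          rcases hb with ⟨hyB, hb⟩ | ⟨hyB, hb⟩
          · simp only at hb
            rw [show (p + b - s) / 2 = (p - s) / 2 + y by omega] at hc
            have := hu y ⟨hy, hc.2⟩
            exact absurd (this ▸ hyB) hxB
          · simp only at hb
            omega
        · simp only [if_true] at hc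
          rcases hb with ⟨hyB, hb⟩ | ⟨hyB, hb⟩
          · simp only at hb
            omega
          · simp only at hb
            rw [show (p - b) / 2 = (p - s) / 2 + y by omega] at hc
            have := hu y ⟨hy, hc.2⟩
            simp only [Prod.mk.injEq, true_and]
            rw [hb, this]

end MPae024f
end

section
/-! Four-element sets. -/
set_option autoImplicit false

namespace MPae024f

/-- `d` is `2 ^ v` times an odd number. -/
def V (d : ℤ) (v : ℕ) : Prop := ∃ c : ℤ, c % 2 = 1 ∧ d = 2 ^ v * c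

theorem V.neg {d : ℤ} {v : ℕ} (h : V d v) : V (-d) v := by
  obtain ⟨c, hc, rfl⟩ := h
  exact ⟨-c, by omega, by ring⟩

theorem V.ne {d : ℤ} {v : ℕ} (h : V d v) : d ≠ 0 := by
  obtain ⟨c, hc, rfl⟩ := h
  have : c ≠ 0 := by rintro rfl; simp at hc
  positivity

theorem V.two {d : ℤ} {v : ℕ} (h : V d v) : V (2 * d) (v + 1) := by
  obtain ⟨c, hc, rfl⟩ := h
  exact ⟨c, hc, by ring⟩

theorem exists_V (n : ℕ) : ∀ d : ℤ, d ≠ 0 → d.natAbs = n → ∃ v, V d v := by
  induction n using Nat.strong_induction_on with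
  | _ n ih =>
    intro d hd hn
    rcases Int.emod_two_eq_zero_or_one d with h | h
    · obtain ⟨v, hv⟩ := ih (d / 2).natAbs (by omega) (d / 2) (by omega) rfl
      refine ⟨v + 1, ?_⟩
      have := hv.two
      rwa [show 2 * (d / 2) = d by omega] at this
    · exact ⟨0, d, h, by simp⟩

/-- the digits number `v` of `y` and `y'` differ -/
theorem V.digit {y y' : ℤ} {v : ℕ} (h : V (y - y') v) : y / 2 ^ v % 2 ≠ y' / 2 ^ v % 2 := by
  obtain ⟨c, hc, h⟩ := h
  have h1 : y = y' + 2 ^ v * c := by linarith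
  have h2 : (2 : ℤ) ^ v ≠ 0 := by positivity
  rw [h1, Int.add_mul_ediv_left _ _ h2]
  omega

theorem quad_tile (x : Fin 4 → ℤ) (e f : ℕ)
    (h : ∀ i j : Fin 4, i ≠ j → V (x i - x j) e ∨ V (x i - x j) f) :
    ∃ T, TT (Set.range x) T := by
  refine ⟨fun n => n / 2 ^ e % 2 = 0 ∧ n / 2 ^ f % 2 = 0, fun n => ?_⟩
  let φ : Fin 4 → Bool × Bool := fun i =>
    (decide ((n - x i) / 2 ^ e % 2 = 0), decide ((n - x i) / 2 ^ f % 2 = 0))
  have hφ : Function.Injective φ := by
    intro i j hij
    by_contra hne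
    simp only [φ, Prod.mk.injEq, decide_eq_decide] at hij
    obtain ⟨h1, h2⟩ := hij
    rcases h i j hne with h3 | h3
    · have h4 : V ((n - x j) - (n - x i)) e := by
        rwa [show (n - x j) - (n - x i) = x i - x j by ring]
      have := h4.digit
      omega
    · have h4 : V ((n - x j) - (n - x i)) f := by
        rwa [show (n - x j) - (n - x i) = x i - x j by ring]
      have := h4.digit
      omega
  have hb : Function.Bijective φ := by
    rw [Fintype.bijective_iff_injective_and_card]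
    exact ⟨hφ, by simp⟩
  obtain ⟨i, hi⟩ := hb.2 (true, true)
  simp only [φ, Prod.mk.injEq, decide_eq_true_eq] at hi
  refine ⟨x i, ⟨⟨i, rfl⟩, hi⟩, ?_⟩
  rintro y ⟨⟨j, rfl⟩, hj⟩
  have : j = i := hφ (by
    simp only [φ, Prod.mk.injEq, decide_eq_decide]
    exact ⟨⟨fun _ => hi.1, fun _ => hj.1⟩, ⟨fun _ => hi.2, fun _ => hj.2⟩⟩)
  rw [this]

theorem quad_tile' (a b c d : ℤ) (e f : ℕ) (h1 : V (a - b) e ∨ V (a - b) f)
    (h2 : V (a - c) e ∨ V (a - c) f) (h3 : V (a - d) e ∨ V (a - d) f)
    (h4 : V (b - c) e ∨ V (b - c) f) (h5 : V (b - d) e ∨ V (b - d) f)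
    (h6 : V (c - d) e ∨ V (c - d) f) : ∃ T, TT ({a, b, c, d} : Set ℤ) T := by
  have hn : ∀ u v : ℤ, (V (u - v) e ∨ V (u - v) f) → (V (v - u) e ∨ V (v - u) f) := by
    intro u v h
    rw [show v - u = -(u - v) by ring]
    exact h.imp V.neg V.neg
  have h := quad_tile ![a, b, c, d] e f (by
    intro i j hij
    fin_cases i <;> fin_cases j <;> simp only [ne_eq, not_true_eq_false] at hij
    · exact h1
    · exact h2
    · exact h3
    · exact hn _ _ h1
    · exact h4
    · exact h5
    · exact hn _ _ h2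
    · exact hn _ _ h4
    · exact h6
    · exact hn _ _ h3
    · exact hn _ _ h5
    · exact hn _ _ h6)
  have hr : Set.range ![a, b, c, d] = ({a, b, c, d} : Set ℤ) := by
    ext p
    simp only [Matrix.range_cons, Matrix.range_empty, Set.union_empty, Set.singleton_union,
      Set.mem_insert_iff, Set.mem_singleton_iff]
  rwa [hr] at h

theorem bounded4 (a b c d : ℤ) : ∃ L : ℤ, 0 ≤ L ∧ ∀ p ∈ ({a, b, c, d} : Set ℤ), -L ≤ p ∧ p ≤ L := by
  refine ⟨|a| + |b| + |c| + |d|, by positivity, ?_⟩
  have ha := abs_nonneg a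
  have hb := abs_nonneg b
  have hc := abs_nonneg c
  have hd := abs_nonneg d
  intro p hp
  rw [← abs_le]
  simp only [Set.mem_insert_iff, Set.mem_singleton_iff] at hp
  rcases hp with rfl | rfl | rfl | rfl <;> linarith

/-- three numbers of one parity and one of the other -/
theorem L31' (β γ c : ℤ) (hβ : β ≠ 0) (hγ : γ ≠ 0) (hβγ : β ≠ γ) (hc : c % 2 = 1) :
    ∃ P Q, PQ ({0, 2 * β, 2 * γ, c} : Set ℤ) P Q := by
  -- the fourth point of the tile
  obtain ⟨δ, e, f, h1, h2, h3, h4, h5, h6⟩ : ∃ (δ : ℤ) (e f : ℕ),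
      (V (0 - β) e ∨ V (0 - β) f) ∧ (V (0 - γ) e ∨ V (0 - γ) f) ∧ (V (0 - δ) e ∨ V (0 - δ) f) ∧
      (V (β - γ) e ∨ V (β - γ) f) ∧ (V (β - δ) e ∨ V (β - δ) f) ∧
      (V (γ - δ) e ∨ V (γ - δ) f) := by
    obtain ⟨v, c1, hc1, hb⟩ := exists_V _ β hβ rfl
    obtain ⟨w, c2, hc2, hg⟩ := exists_V _ γ hγ rfl
    obtain ⟨u, hu⟩ := exists_V _ (β - γ) (sub_ne_zero.2 hβγ) rfl
    rcases lt_trichotomy v w with hvw | hvw | hvw
    · obtain ⟨k, rfl⟩ : ∃ k, w = v + (k + 1) := ⟨w - v - 1, by omega⟩
      refine ⟨β + γ, v, v + (k + 1), Or.inl ⟨-c1, by omega, by rw [hb]; ring⟩,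
        Or.inr ⟨-c2, by omega, by rw [hg]; ring⟩,
        Or.inl ⟨-(c1 + 2 * (2 ^ k * c2)), by omega, by rw [hb, hg, pow_add, pow_succ]; ring⟩,
        Or.inl ⟨c1 - 2 * (2 ^ k * c2), by omega, by rw [hb, hg, pow_add, pow_succ]; ring⟩,
        Or.inr ⟨-c2, by omega, by rw [hg]; ring⟩, Or.inl ⟨-c1, by omega, by rw [hb]; ring⟩⟩
    · subst hvw
      refine ⟨γ - β, v, u, Or.inl ⟨-c1, by omega, by rw [hb]; ring⟩,
        Or.inl ⟨-c2, by omega, by rw [hg]; ring⟩, Or.inr ?_, Or.inr hu,
        Or.inl ⟨2 * c1 - c2, by omega, by rw [hb, hg]; ring⟩,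
        Or.inl ⟨c1, by omega, by rw [hb]; ring⟩⟩
      rwa [show 0 - (γ - β) = β - γ by ring]
    · obtain ⟨k, rfl⟩ : ∃ k, v = w + (k + 1) := ⟨v - w - 1, by omega⟩
      refine ⟨β + γ, w, w + (k + 1), Or.inr ⟨-c1, by omega, by rw [hb]; ring⟩,
        Or.inl ⟨-c2, by omega, by rw [hg]; ring⟩,
        Or.inl ⟨-(c2 + 2 * (2 ^ k * c1)), by omega, by rw [hb, hg, pow_add, pow_succ]; ring⟩,
        Or.inl ⟨2 * (2 ^ k * c1) - c2, by omega, by rw [hb, hg, pow_add, pow_succ]; ring⟩,
        Or.inl ⟨-c2, by omega, by rw [hg]; ring⟩, Or.inr ⟨-c1, by omega, by rw [hb]; ring⟩⟩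
  have hne : ∀ x y : ℤ, (V (x - y) e ∨ V (x - y) f) → x ≠ y := by
    rintro x y (h | h) rfl
    · exact h.ne (sub_self _)
    · exact h.ne (sub_self _)
  have n3 := hne _ _ h3
  have n5 := hne _ _ h5
  have n6 := hne _ _ h6
  obtain ⟨L, hL0, hL⟩ := bounded4 0 β γ δ
  have h := halfRefl_pq (E := {0, β, γ, δ}) (B := {0, β, γ}) (s := c + 2 * δ) (by omega) hL hL0
    (quad_tile' 0 β γ δ e f h1 h2 h3 h4 h5 h6)
  have hset : halfRefl {0, β, γ, δ} {0, β, γ} (c + 2 * δ) = ({0, 2 * β, 2 * γ, c} : Set ℤ) := by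
    ext p
    simp only [halfRefl, Set.mem_ofPred_eq, Set.mem_insert_iff, Set.mem_singleton_iff]
    constructor
    · rintro ⟨x, hx, ⟨hx', rfl⟩ | ⟨hx', rfl⟩⟩
      · rcases hx' with rfl | rfl | rfl
        · left; ring
        · right; left; rfl
        · right; right; left; rfl
      · push Not at hx'
        have : x = δ := by
          rcases hx with h | h | h | h
          · exact absurd h hx'.1
          · exact absurd h hx'.2.1
          · exact absurd h hx'.2.2
          · exact h
        right; right; right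
        rw [this]; ring
    · rintro (rfl | rfl | rfl | rfl)
      · exact ⟨0, by simp, Or.inl ⟨by simp, by ring⟩⟩
      · exact ⟨β, by simp, Or.inl ⟨by simp, rfl⟩⟩
      · exact ⟨γ, by simp, Or.inl ⟨by simp, rfl⟩⟩
      · refine ⟨δ, by simp, Or.inr ⟨?_, by ring⟩⟩
        push Not
        exact ⟨Ne.symm n3, Ne.symm n5, Ne.symm n6⟩
  rwa [hset] at h

/-- two even and two odd numbers, same valuation of the differences -/
theorem L22' (β γ c : ℤ) (v : ℕ) (hβ : V β v) (hγ : V γ v) (hc : c % 2 = 1) :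
    ∃ P Q, PQ ({0, 2 * β, c, c + 2 * γ} : Set ℤ) P Q := by
  obtain ⟨δ, h1, h2, h3, h4, h5, h6⟩ : ∃ δ : ℤ,
      (V (0 - β) v ∨ V (0 - β) (v + 1)) ∧ (V (0 - δ) v ∨ V (0 - δ) (v + 1)) ∧
      (V (0 - (δ - γ)) v ∨ V (0 - (δ - γ)) (v + 1)) ∧
      (V (β - δ) v ∨ V (β - δ) (v + 1)) ∧ (V (β - (δ - γ)) v ∨ V (β - (δ - γ)) (v + 1)) ∧
      (V (δ - (δ - γ)) v ∨ V (δ - (δ - γ)) (v + 1)) := by
    obtain ⟨c1, hc1, hb⟩ := hβ
    obtain ⟨c2, hc2, hg⟩ := hγ
    have h4 : (c1 + c2) % 4 = 0 ∨ (c1 - c2) % 4 = 0 := by omega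
    rcases h4 with h4 | h4
    · refine ⟨2 ^ (v + 1), Or.inl ⟨-c1, by omega, by rw [hb]; ring⟩,
        Or.inr ⟨-1, by norm_num, by ring⟩,
        Or.inl ⟨c2 - 2, by omega, by rw [hg]; ring⟩,
        Or.inl ⟨c1 - 2, by omega, by rw [hb]; ring⟩,
        Or.inr ⟨(c1 + c2) / 2 - 1, by omega, ?_⟩, Or.inl ⟨c2, hc2, by rw [hg]; ring⟩⟩
      have h5 : c1 + c2 = 2 * ((c1 + c2) / 2) := by omega
      have h6 : (2 : ℤ) ^ (v + 1) * ((c1 + c2) / 2 - 1) =
          2 ^ v * (2 * ((c1 + c2) / 2)) - 2 ^ (v + 1) := by ring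
      rw [h6, ← h5, hb, hg]
      ring
    · refine ⟨γ + 2 ^ (v + 1), Or.inl ⟨-c1, by omega, by rw [hb]; ring⟩,
        Or.inl ⟨-(c2 + 2), by omega, by rw [hg]; ring⟩,
        Or.inr ⟨-1, by norm_num, by ring⟩,
        Or.inr ⟨(c1 - c2) / 2 - 1, by omega, ?_⟩,
        Or.inl ⟨c1 - 2, by omega, by rw [hb]; ring⟩, Or.inl ⟨c2, hc2, by rw [hg]; ring⟩⟩
      have h5 : c1 - c2 = 2 * ((c1 - c2) / 2) := by omega
      have h6 : (2 : ℤ) ^ (v + 1) * ((c1 - c2) / 2 - 1) =
          2 ^ v * (2 * ((c1 - c2) / 2)) - 2 ^ (v + 1) := by ring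
      rw [h6, ← h5, hb, hg]
      ring
  have hne : ∀ x y : ℤ, (V (x - y) v ∨ V (x - y) (v + 1)) → x ≠ y := by
    rintro x y (h | h) rfl
    · exact h.ne (sub_self _)
    · exact h.ne (sub_self _)
  have n2 := hne _ _ h2
  have n3 := hne _ _ h3
  have n4 := hne _ _ h4
  have n5 := hne _ _ h5
  obtain ⟨L, hL0, hL⟩ := bounded4 0 β δ (δ - γ)
  have h := halfRefl_pq (E := {0, β, δ, δ - γ}) (B := {0, β}) (s := c + 2 * δ) (by omega) hL hL0
    (quad_tile' 0 β δ (δ - γ) v (v + 1) h1 h2 h3 h4 h5 h6)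
  have hset : halfRefl {0, β, δ, δ - γ} {0, β} (c + 2 * δ) =
      ({0, 2 * β, c, c + 2 * γ} : Set ℤ) := by
    ext p
    simp only [halfRefl, Set.mem_ofPred_eq, Set.mem_insert_iff, Set.mem_singleton_iff]
    constructor
    · rintro ⟨x, hx, ⟨hx', rfl⟩ | ⟨hx', rfl⟩⟩
      · rcases hx' with rfl | rfl
        · left; ring
        · right; left; rfl
      · push Not at hx'
        rcases hx with h | h | h | h
        · exact absurd h hx'.1
        · exact absurd h hx'.2
        · right; right; left; rw [h]; ring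
        · right; right; right; rw [h]; ring
    · rintro (rfl | rfl | rfl | rfl)
      · exact ⟨0, by simp, Or.inl ⟨by simp, by ring⟩⟩
      · exact ⟨β, by simp, Or.inl ⟨by simp, rfl⟩⟩
      · refine ⟨δ, by simp, Or.inr ⟨?_, by ring⟩⟩
        push Not
        exact ⟨Ne.symm n2, Ne.symm n4⟩
      · refine ⟨δ - γ, by simp, Or.inr ⟨?_, by ring⟩⟩
        push Not
        exact ⟨Ne.symm n3, Ne.symm n5⟩
  rwa [hset] at h

/-- the exceptional type -/
def Exc (A : Set ℤ) : Prop := ∃ (p q u w : ℤ) (e f g : ℕ), A = {p, q, u, w} ∧ e < f ∧ f < g ∧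
  V (p - u) e ∧ V (u - w) f ∧ V (p - q) g

theorem L31 (a b c d : ℤ) (hab : a ≠ b) (hac : a ≠ c) (hbc : b ≠ c) (h1 : (a - b) % 2 = 0)
    (h2 : (a - c) % 2 = 0) (h3 : (a - d) % 2 = 1) :
    ∃ P Q, PQ ({a, b, c, d} : Set ℤ) P Q := by
  have h := (pq_scale (A := ({0, 2 * ((b - a) / 2), 2 * ((c - a) / 2), d - a} : Set ℤ)) a 1
    one_ne_zero).2 (L31' ((b - a) / 2) ((c - a) / 2) (d - a) (by omega) (by omega) (by omega)
      (by omega))
  have hset : {p : ℤ | ∃ x ∈ ({0, 2 * ((b - a) / 2), 2 * ((c - a) / 2), d - a} : Set ℤ),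
      p = a + 1 * x} = ({a, b, c, d} : Set ℤ) := by
    ext p
    simp only [Set.mem_ofPred_eq, Set.mem_insert_iff, Set.mem_singleton_iff]
    constructor
    · rintro ⟨x, hx, rfl⟩
      omega
    · intro hp
      exact ⟨p - a, by omega, by ring⟩
  rwa [hset] at h

theorem L22 (a b c d : ℤ) (hab : a ≠ b) (hcd : c ≠ d) (h1 : (a - b) % 2 = 0)
    (h2 : (c - d) % 2 = 0) (h3 : (a - c) % 2 = 1) :
    (∃ P Q, PQ ({a, b, c, d} : Set ℤ) P Q) ∨ Exc {a, b, c, d} := by
  obtain ⟨v, hv⟩ := exists_V _ ((b - a) / 2) (by omega) rfl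
  obtain ⟨w, hw⟩ := exists_V _ ((d - c) / 2) (by omega) rfl
  have hv2 := hv.two
  have hw2 := hw.two
  rw [show 2 * ((b - a) / 2) = b - a by omega] at hv2
  rw [show 2 * ((d - c) / 2) = d - c by omega] at hw2
  rcases lt_trichotomy v w with hvw | hvw | hvw
  · right
    refine ⟨c, d, a, b, 0, v + 1, w + 1, ?_, by omega, by omega, ⟨c - a, by omega, by ring⟩, ?_, ?_⟩
    · ext p
      simp only [Set.mem_insert_iff, Set.mem_singleton_iff]
      tauto
    · rw [show a - b = -(b - a) by ring]; exact hv2.neg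
    · rw [show c - d = -(d - c) by ring]; exact hw2.neg
  · left
    subst hvw
    have h := (pq_scale (A := ({0, 2 * ((b - a) / 2), c - a, c - a + 2 * ((d - c) / 2)} : Set ℤ))
      a 1 one_ne_zero).2 (L22' ((b - a) / 2) ((d - c) / 2) (c - a) v hv hw (by omega))
    have hset : {p : ℤ | ∃ x ∈ ({0, 2 * ((b - a) / 2), c - a, c - a + 2 * ((d - c) / 2)} : Set ℤ),
        p = a + 1 * x} = ({a, b, c, d} : Set ℤ) := by
      ext p
      simp only [Set.mem_ofPred_eq, Set.mem_insert_iff, Set.mem_singleton_iff]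
      constructor
      · rintro ⟨x, hx, rfl⟩
        omega
      · intro hp
        exact ⟨p - a, by omega, by ring⟩
    rwa [hset] at h
  · right
    refine ⟨a, b, c, d, 0, w + 1, v + 1, rfl, by omega, by omega, ⟨a - c, by omega, by ring⟩, ?_,
      ?_⟩
    · rw [show c - d = -(d - c) by ring]; exact hw2.neg
    · rw [show a - b = -(b - a) by ring]; exact hv2.neg

theorem four (n : ℕ) : ∀ a b c d : ℤ, a ≠ b → a ≠ c → a ≠ d → b ≠ c → b ≠ d → c ≠ d →
    (a - b).natAbs = n → (∃ P Q, PQ ({a, b, c, d} : Set ℤ) P Q) ∨ Exc {a, b, c, d} := by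
  induction n using Nat.strong_induction_on with
  | _ n ih =>
    intro a b c d hab hac had hbc hbd hcd hn
    have perm : ∀ x y z t : ℤ, ({x, y, z, t} : Set ℤ) = {a, b, c, d} →
        ((∃ P Q, PQ ({x, y, z, t} : Set ℤ) P Q) ∨ Exc {x, y, z, t}) →
        ((∃ P Q, PQ ({a, b, c, d} : Set ℤ) P Q) ∨ Exc {a, b, c, d}) := by
      intro x y z t h1 h2
      rwa [h1] at h2
    rcases Int.emod_two_eq_zero_or_one (a - b) with h1 | h1 <;>
    rcases Int.emod_two_eq_zero_or_one (a - c) with h2 | h2 <;>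
    rcases Int.emod_two_eq_zero_or_one (a - d) with h3 | h3
    · -- all of the same parity
      have h4 := ih (0 - (b - a) / 2).natAbs (by omega) 0 ((b - a) / 2) ((c - a) / 2)
        ((d - a) / 2) (by omega) (by omega) (by omega) (by omega) (by omega) (by omega) rfl
      have hset : {p : ℤ | ∃ x ∈ ({0, (b - a) / 2, (c - a) / 2, (d - a) / 2} : Set ℤ),
          p = a + 2 * x} = ({a, b, c, d} : Set ℤ) := by
        ext p
        simp only [Set.mem_ofPred_eq, Set.mem_insert_iff, Set.mem_singleton_iff]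
        constructor
        · rintro ⟨x, hx, rfl⟩
          omega
        · intro hp
          exact ⟨(p - a) / 2, by omega, by omega⟩
      rcases h4 with h4 | ⟨p, q, u, w, e, f, g, hE, hef, hfg, he, hf, hg⟩
      · left
        have h5 := (pq_scale a 2 two_ne_zero).2 h4
        rwa [hset] at h5
      · right
        refine ⟨a + 2 * p, a + 2 * q, a + 2 * u, a + 2 * w, e + 1, f + 1, g + 1, ?_, by omega,
          by omega, ?_, ?_, ?_⟩
        · rw [← hset, hE]
          ext r
          simp only [Set.mem_ofPred_eq, Set.mem_insert_iff, Set.mem_singleton_iff]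
          constructor
          · rintro ⟨x, rfl | rfl | rfl | rfl, rfl⟩
            · left; rfl
            · right; left; rfl
            · right; right; left; rfl
            · right; right; right; rfl
          · rintro (rfl | rfl | rfl | rfl)
            · exact ⟨p, by simp, rfl⟩
            · exact ⟨q, by simp, rfl⟩
            · exact ⟨u, by simp, rfl⟩
            · exact ⟨w, by simp, rfl⟩
        · rw [show a + 2 * p - (a + 2 * u) = 2 * (p - u) by ring]; exact he.two
        · rw [show a + 2 * u - (a + 2 * w) = 2 * (u - w) by ring]; exact hf.two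
        · rw [show a + 2 * p - (a + 2 * q) = 2 * (p - q) by ring]; exact hg.two
    · exact Or.inl (L31 a b c d hab hac hbc h1 h2 h3)
    · refine perm a b d c ?_ (Or.inl (L31 a b d c hab had hbd h1 h3 h2))
      ext p; simp only [Set.mem_insert_iff, Set.mem_singleton_iff]; tauto
    · exact L22 a b c d hab hcd h1 (by omega) (by omega)
    · refine perm a c d b ?_ (Or.inl (L31 a c d b hac had hcd h2 h3 h1))
      ext p; simp only [Set.mem_insert_iff, Set.mem_singleton_iff]; tauto
    · refine perm a c b d ?_ (L22 a c b d hac hbd h2 (by omega) h1)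
      ext p; simp only [Set.mem_insert_iff, Set.mem_singleton_iff]; tauto
    · refine perm a d b c ?_ (L22 a d b c had hbc h3 (by omega) h1)
      ext p; simp only [Set.mem_insert_iff, Set.mem_singleton_iff]; tauto
    · refine perm b c d a ?_ (Or.inl (L31 b c d a hbc hbd hcd (by omega) (by omega) (by omega)))
      ext p; simp only [Set.mem_insert_iff, Set.mem_singleton_iff]; tauto

theorem V.val {d : ℤ} {v : ℕ} (h : V d v) : padicValInt 2 d = v := by
  obtain ⟨c, hc, rfl⟩ := h
  have hc0 : c ≠ 0 := by rintro rfl; simp at hc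
  have h1 : padicValInt 2 c = 0 := by
    rw [padicValInt.eq_zero_iff]
    right; right
    intro h2
    omega
  rw [padicValInt.mul (by positivity) hc0, h1, add_zero]
  unfold padicValInt
  rw [Int.natAbs_pow]
  exact padicValNat.prime_pow v

end MPae024f
end

section
/-! Both orientations occur equally often if the tile has no cyclotomic zeros. -/
set_option autoImplicit false

namespace MPae024f

open Finset

noncomputable section

variable {N : ℕ} [NeZero N] {A : Finset ℤ} {P Q : Finset (ZMod N)}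

/-- every element of `ℤ/N` is covered exactly once by the translates `p + A` (`p ∈ P`) and
`q - A` (`q ∈ Q`) -/
def PQN (N : ℕ) (A : Finset ℤ) (P Q : Finset (ZMod N)) : Prop :=
  ∀ n : ZMod N, ∃! s : Bool × ℤ, s.2 ∈ A ∧ (if s.1 = true then n - (s.2 : ZMod N) ∈ P
    else n + (s.2 : ZMod N) ∈ Q)

omit [NeZero N] in
theorem ident (h : PQN N A P Q) (n : ZMod N) :
    ∑ a ∈ A, (if n - (a : ZMod N) ∈ P then (1 : ℂ) else 0) +
      ∑ a ∈ A, (if n + (a : ZMod N) ∈ Q then (1 : ℂ) else 0) = 1 := by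
  obtain ⟨⟨σ, a⟩, ⟨ha, hc⟩, hu⟩ := h n
  simp only at ha hc
  cases σ
  · simp only [Bool.false_eq_true, if_false] at hc
    rw [sum_eq_zero, sum_eq_single_of_mem a ha, if_pos hc, zero_add]
    · intro b hb hne
      rw [if_neg]
      intro hbc
      have := hu (false, b) ⟨hb, by simpa using hbc⟩
      simp only [Prod.mk.injEq, true_and] at this
      exact hne this
    · intro b hb
      rw [if_neg]
      intro hbc
      have := hu (true, b) ⟨hb, by simpa using hbc⟩
      simp at this
  · simp only [if_true] at hc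
    rw [sum_eq_single_of_mem a ha, if_pos hc, sum_eq_zero, add_zero]
    · intro b hb
      rw [if_neg]
      intro hbc
      have := hu (false, b) ⟨hb, by simpa using hbc⟩
      simp at this
    · intro b hb hne
      rw [if_neg]
      intro hbc
      have := hu (true, b) ⟨hb, by simpa using hbc⟩
      simp only [Prod.mk.injEq, true_and] at this
      exact hne this

theorem ident_char (h : PQN N A P Q) (χ : AddChar (ZMod N) ℂ) :
    (∑ p ∈ P, χ p) * (∑ a ∈ A, χ (a : ZMod N)) + (∑ q ∈ Q, χ q) * (∑ a ∈ A, χ (-(a : ZMod N))) =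
      ∑ n, χ n := by
  have h1 : ∑ n, χ n = ∑ n, (∑ a ∈ A, (if n - (a : ZMod N) ∈ P then χ n else 0) +
      ∑ a ∈ A, (if n + (a : ZMod N) ∈ Q then χ n else 0)) := by
    refine sum_congr rfl fun n _ => ?_
    have h2 := ident h n
    have h3 : χ n = χ n * (∑ a ∈ A, (if n - (a : ZMod N) ∈ P then (1 : ℂ) else 0) +
      ∑ a ∈ A, (if n + (a : ZMod N) ∈ Q then (1 : ℂ) else 0)) := by rw [h2, mul_one]
    conv_lhs => rw [h3]
    rw [mul_add, mul_sum, mul_sum]
    congr 1 <;>
    · refine sum_congr rfl fun a _ => ?_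
      split_ifs <;> simp
  rw [h1, sum_add_distrib, sum_comm, sum_comm (s := univ) (t := A)
    (f := fun n a => if n + (a : ZMod N) ∈ Q then χ n else 0)]
  congr 1
  · rw [mul_comm, sum_mul]
    refine sum_congr rfl fun a _ => ?_
    rw [mul_sum, ← sum_filter]
    refine sum_nbij' (fun p => p + (a : ZMod N)) (fun n => n - (a : ZMod N)) ?_ ?_ ?_ ?_ ?_
    · intro p hp
      simp [hp]
    · intro n hn
      simpa using hn
    · intro p _; simp
    · intro n _; simp
    · intro p _
      rw [AddChar.map_add_eq_mul, mul_comm]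
  · rw [mul_comm, sum_mul]
    refine sum_congr rfl fun a _ => ?_
    rw [mul_sum, ← sum_filter]
    refine sum_nbij' (fun p => p - (a : ZMod N)) (fun n => n + (a : ZMod N)) ?_ ?_ ?_ ?_ ?_
    · intro p hp
      simp [hp]
    · intro n hn
      simpa using hn
    · intro p _; simp
    · intro n _; simp
    · intro p _
      rw [sub_eq_add_neg, AddChar.map_add_eq_mul, mul_comm]

theorem card_ident (h : PQN N A P Q) : A.card * (P.card + Q.card) = N := by
  have h1 := ident_char h 0
  simp only [AddChar.zero_apply, sum_const, nsmul_eq_mul, mul_one, card_univ, ZMod.card] at h1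
  have h2 : (A.card * (P.card + Q.card) : ℂ) = N := by
    rw [← h1]; ring
  exact_mod_cast h2

theorem conj_sum (S : Finset (ZMod N)) (χ : AddChar (ZMod N) ℂ) :
    ∑ x ∈ S, χ (-x) = (starRingEnd ℂ) (∑ x ∈ S, χ x) := by
  rw [map_sum]
  exact sum_congr rfl fun x _ => AddChar.map_neg_eq_conj χ x

/-- number of pairs with given difference -/
def dc (S : Finset (ZMod N)) (d : ZMod N) : ℕ := ((S ×ˢ S).filter fun x => x.1 - x.2 = d).card

omit [NeZero N] in
theorem dc_zero (S : Finset (ZMod N)) : dc S 0 = S.card := by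
  unfold dc
  refine card_nbij' (fun x => x.1) (fun x => (x, x)) ?_ ?_ ?_ ?_
  · intro x hx
    simp only [coe_filter, mem_product, Set.mem_ofPred_eq] at hx
    exact hx.1.1
  · intro x hx
    simpa using hx
  · intro x hx
    simp only [coe_filter, mem_product, Set.mem_ofPred_eq] at hx
    exact Prod.ext rfl (sub_eq_zero.1 hx.2)
  · intro x _
    rfl

theorem dc_formula (S : Finset (ZMod N)) (d : ZMod N) :
    (N : ℂ) * dc S d = ∑ χ : AddChar (ZMod N) ℂ,
      (∑ x ∈ S, χ x) * (starRingEnd ℂ) (∑ x ∈ S, χ x) * χ (-d) := by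
  have h1 : ∀ χ : AddChar (ZMod N) ℂ,
      (∑ x ∈ S, χ x) * (starRingEnd ℂ) (∑ x ∈ S, χ x) * χ (-d) =
        ∑ x ∈ S ×ˢ S, χ (x.1 - x.2 - d) := by
    intro χ
    rw [← conj_sum, sum_mul_sum, ← sum_product', sum_mul]
    refine sum_congr rfl fun x _ => ?_
    rw [sub_eq_add_neg (x.1 - x.2), AddChar.map_add_eq_mul, sub_eq_add_neg x.1,
      AddChar.map_add_eq_mul]
  simp_rw [h1]
  rw [sum_comm]
  have h2 : ∀ x ∈ S ×ˢ S, ∑ χ : AddChar (ZMod N) ℂ, χ (x.1 - x.2 - d) =
      if x.1 - x.2 = d then (N : ℂ) else 0 := by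
    intro x _
    rw [AddChar.sum_apply_eq_ite, ZMod.card]
    simp only [sub_eq_zero]
  rw [sum_congr rfl h2, ← sum_filter, sum_const, nsmul_eq_mul, mul_comm]
  rfl

theorem freq (h : PQN N A P Q) (hA : 2 ≤ A.card)
    (hz : ∀ z : ℂ, z ^ N = 1 → z ≠ 1 → ∑ a ∈ A, z ^ a ≠ 0) :
    P.card = Q.card ∧ 2 * A.card * P.card = N ∧ ∀ d, dc P d = dc Q d := by
  have hN0 : N ≠ 0 := NeZero.ne N
  have hcard := card_ident h
  -- equal moduli
  have hmod : ∀ χ : AddChar (ZMod N) ℂ, χ ≠ 0 →
      (∑ x ∈ P, χ x) * (starRingEnd ℂ) (∑ x ∈ P, χ x) =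
        (∑ x ∈ Q, χ x) * (starRingEnd ℂ) (∑ x ∈ Q, χ x) := by
    intro χ hχ
    have h1 := ident_char h χ
    rw [AddChar.sum_eq_zero_iff_ne_zero.2 hχ] at h1
    have h2 : ∑ a ∈ A, χ (-(a : ZMod N)) = (starRingEnd ℂ) (∑ a ∈ A, χ (a : ZMod N)) := by
      rw [map_sum]
      exact sum_congr rfl fun x _ => AddChar.map_neg_eq_conj χ _
    rw [h2] at h1
    have h3 : ∑ a ∈ A, χ (a : ZMod N) = ∑ a ∈ A, (χ 1) ^ a := by
      refine sum_congr rfl fun a _ => ?_
      rw [← AddChar.map_zsmul_eq_zpow, zsmul_one]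
    have h4 : ∑ a ∈ A, χ (a : ZMod N) ≠ 0 := by
      rw [h3]
      refine hz _ ?_ ?_
      · rw [← AddChar.map_nsmul_eq_pow, nsmul_one, ZMod.natCast_self, AddChar.map_zero_eq_one]
      · intro h5
        apply hχ
        by_contra h6
        exact (AddChar.zmod_char_ne_one_iff N χ).1 h6 h5
    have h5 : ‖∑ x ∈ P, χ x‖ = ‖∑ x ∈ Q, χ x‖ := by
      have h6 : (∑ p ∈ P, χ p) * (∑ a ∈ A, χ (a : ZMod N)) =
          -((∑ q ∈ Q, χ q) * (starRingEnd ℂ) (∑ a ∈ A, χ (a : ZMod N))) :=
        eq_neg_of_add_eq_zero_left h1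
      have h7 := congrArg (fun w : ℂ => ‖w‖) h6
      simp only [norm_neg, norm_mul, RCLike.norm_conj] at h7
      exact mul_right_cancel₀ (norm_ne_zero_iff.2 h4) h7
    rw [Complex.mul_conj, Complex.mul_conj, Complex.normSq_eq_norm_sq, Complex.normSq_eq_norm_sq,
      h5]
  have hdiff : ∀ d, (N : ℂ) * dc P d - (N : ℂ) * dc Q d = (P.card : ℂ) ^ 2 - (Q.card : ℂ) ^ 2 := by
    intro d
    rw [dc_formula, dc_formula, ← sum_sub_distrib, sum_eq_single (0 : AddChar (ZMod N) ℂ)]
    · simp only [AddChar.zero_apply, sum_const, nsmul_eq_mul, mul_one]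
      simp only [map_natCast]
      ring
    · intro χ _ hχ
      rw [hmod χ hχ, sub_self]
    · intro h0
      exact absurd (mem_univ _) h0
  have h0 := hdiff 0
  rw [dc_zero, dc_zero] at h0
  have hcard' : ((A.card : ℂ)) * (P.card + Q.card) = N := by exact_mod_cast hcard
  have hPQ : P.card = Q.card := by
    by_contra hne
    have h1 : ((P.card : ℂ) - Q.card) ≠ 0 := by
      rw [sub_ne_zero]
      exact_mod_cast hne
    have h2 : ((P.card : ℂ) - Q.card) * N = (P.card - Q.card) * (P.card + Q.card) := by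
      linear_combination h0
    have h3 := mul_left_cancel₀ h1 h2
    have h4 : N = P.card + Q.card := by exact_mod_cast h3
    rw [← h4] at hcard
    have h5 : A.card = 1 := by
      have : A.card * N = 1 * N := by rw [hcard, one_mul]
      exact Nat.eq_of_mul_eq_mul_right (Nat.pos_of_ne_zero hN0) this
    omega
  refine ⟨hPQ, ?_, ?_⟩
  · have h1 := hcard
    rw [← hPQ] at h1
    calc 2 * A.card * P.card = A.card * (P.card + P.card) := by ring
      _ = N := h1
  · intro d
    have h1 := hdiff d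
    rw [hPQ, sub_self, sub_eq_zero] at h1
    have h2 : (N : ℂ) ≠ 0 := by exact_mod_cast hN0
    have h3 := mul_left_cancel₀ h2 h1
    exact_mod_cast h3

open Classical in
/-- residues of a periodic set -/
def red (N : ℕ) [NeZero N] (P : ℤ → Prop) : Finset (ZMod N) :=
  univ.filter fun x => P (x.val : ℤ)

theorem mem_red {P : ℤ → Prop} (hP : ∀ i, P (i + N) ↔ P i) (n : ℤ) :
    (n : ZMod N) ∈ red N P ↔ P n := by
  classical
  have hmul : ∀ k i : ℤ, P (i + k * N) ↔ P i := by
    intro k i
    induction k using Int.induction_on with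
    | zero => rw [zero_mul, add_zero]
    | succ k ih => rw [← ih, ← hP (i + k * N)]; ring_nf
    | pred k ih => rw [← ih, ← hP (i + (-(k : ℤ) - 1) * N)]; ring_nf
  unfold red
  rw [mem_filter, ZMod.val_intCast]
  simp only [mem_univ, true_and]
  have h1 := hmul (n / N) (n % N)
  rw [show n % N + n / N * N = n by
    have := Int.emod_add_mul_ediv n N
    linarith] at h1
  exact h1.symm

theorem pqn_of_pq {P Q : ℤ → Prop} (h : PQ (A : Set ℤ) P Q) (hP : ∀ i, P (i + N) ↔ P i)
    (hQ : ∀ i, Q (i + N) ↔ Q i) : PQN N A (red N P) (red N Q) := by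
  intro n
  obtain ⟨m, rfl⟩ := ZMod.intCast_surjective n
  have key : ∀ s : Bool × ℤ, (s.2 ∈ A ∧ (if s.1 = true then (m : ZMod N) - (s.2 : ZMod N) ∈ red N P
      else (m : ZMod N) + (s.2 : ZMod N) ∈ red N Q)) ↔
      (s.2 ∈ (A : Set ℤ) ∧ (if s.1 = true then P (m - s.2) else Q (m + s.2))) := by
    rintro ⟨σ, a⟩
    have e1 : (m : ZMod N) - (a : ZMod N) = ((m - a : ℤ) : ZMod N) := by push_cast; ring
    have e2 : (m : ZMod N) + (a : ZMod N) = ((m + a : ℤ) : ZMod N) := by push_cast; ring
    simp only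
    rw [e1, e2, mem_red hP, mem_red hQ, mem_coe]
  obtain ⟨s, hs, hu⟩ := h m
  exact ⟨s, (key s).2 hs, fun t ht => hu t ((key t).1 ht)⟩

theorem val_back (x : ZMod N) : ((x.val : ℤ) : ZMod N) = x := by
  push_cast
  exact ZMod.natCast_zmod_val x

theorem val_forth {t : ℤ} (h0 : 0 ≤ t) (h1 : t < N) : (((t : ZMod N)).val : ℤ) = t := by
  rw [ZMod.val_intCast, Int.emod_eq_of_lt h0 h1]

open Classical in
theorem card_red {P : ℤ → Prop} (hP : ∀ i, P (i + N) ↔ P i) :
    (red N P).card = ((Ico (0 : ℤ) N).filter fun t => P t).card := by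
  refine card_nbij' (fun x => (x.val : ℤ)) (fun t => (t : ZMod N)) ?_ ?_ ?_ ?_
  · intro x hx
    have hx' : x ∈ red N P := hx
    unfold red at hx'
    rw [mem_filter] at hx'
    have h9 : (x.val : ℤ) < N := by exact_mod_cast ZMod.val_lt x
    rw [mem_coe, mem_filter, mem_Ico]
    exact ⟨⟨by positivity, h9⟩, hx'.2⟩
  · intro t ht
    have ht' : t ∈ (Ico (0 : ℤ) N).filter fun t => P t := ht
    rw [mem_filter] at ht'
    exact (mem_red hP t).2 ht'.2
  · intro x _
    exact val_back x
  · intro t ht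
    have ht' : t ∈ (Ico (0 : ℤ) N).filter fun t => P t := ht
    rw [mem_filter, mem_Ico] at ht'
    exact val_forth ht'.1.1 ht'.1.2

open Classical in
theorem dc_red {P : ℤ → Prop} (hP : ∀ i, P (i + N) ↔ P i) (d : ℤ) :
    dc (red N P) (d : ZMod N) = ((Ico (0 : ℤ) N).filter fun t => P t ∧ P (t + d)).card := by
  unfold dc
  refine card_nbij' (fun x => (x.2.val : ℤ))
    (fun t : ℤ => (((t + d : ℤ) : ZMod N), (t : ZMod N))) ?_ ?_ ?_ ?_
  · intro x hx
    have hx' : x ∈ ((red N P ×ˢ red N P).filter fun x => x.1 - x.2 = (d : ZMod N)) := hx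
    rw [mem_filter, mem_product] at hx'
    have h9 : (x.2.val : ℤ) < N := by exact_mod_cast ZMod.val_lt x.2
    rw [mem_coe, mem_filter, mem_Ico]
    refine ⟨⟨by positivity, h9⟩, ?_, ?_⟩
    · rw [← mem_red hP, val_back]
      exact hx'.1.2
    · rw [← mem_red hP]
      rw [Int.cast_add, val_back, ← hx'.2, add_sub_cancel]
      exact hx'.1.1
  · intro t ht
    have ht' : t ∈ (Ico (0 : ℤ) N).filter fun t => P t ∧ P (t + d) := ht
    rw [mem_filter] at ht'
    rw [mem_coe, mem_filter, mem_product]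
    refine ⟨⟨(mem_red hP _).2 ht'.2.2, (mem_red hP t).2 ht'.2.1⟩, ?_⟩
    simp only
    push_cast
    ring
  · intro x hx
    have hx' : x ∈ ((red N P ×ˢ red N P).filter fun x => x.1 - x.2 = (d : ZMod N)) := hx
    rw [mem_filter] at hx'
    refine Prod.ext ?_ ?_
    · simp only
      rw [Int.cast_add, val_back, ← hx'.2, add_sub_cancel]
    · exact val_back x.2
  · intro t ht
    have ht' : t ∈ (Ico (0 : ℤ) N).filter fun t => P t ∧ P (t + d) := ht
    rw [mem_filter, mem_Ico] at ht'
    exact val_forth ht'.1.1 ht'.1.2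

open Classical in
/-- equal frequency and equal autocorrelation of the two orientations -/
theorem freq_int {P Q : ℤ → Prop} (h : PQ (A : Set ℤ) P Q) (hP : ∀ i, P (i + N) ↔ P i)
    (hQ : ∀ i, Q (i + N) ↔ Q i) (hA : 2 ≤ A.card)
    (hz : ∀ z : ℂ, z ^ N = 1 → z ≠ 1 → ∑ a ∈ A, z ^ a ≠ 0) :
    2 * A.card * ((Ico (0 : ℤ) N).filter fun t => P t).card = N ∧
      2 * A.card * ((Ico (0 : ℤ) N).filter fun t => Q t).card = N ∧
      ∀ d : ℤ, ((Ico (0 : ℤ) N).filter fun t => P t ∧ P (t + d)).card =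
        ((Ico (0 : ℤ) N).filter fun t => Q t ∧ Q (t + d)).card := by
  obtain ⟨h1, h2, h3⟩ := freq (pqn_of_pq h hP hQ) hA hz
  rw [← card_red hP, ← card_red hQ, ← h1]
  refine ⟨h2, h2, fun d => ?_⟩
  rw [← dc_red hP, ← dc_red hQ]
  exact h3 _

end

end MPae024f
end

section
namespace MPae024f

/-! ### elementary cases -/

/-- `b` odd, `M ≡ 2 mod 4` -/
theorem good_two {b M : ℤ} (hb : b % 2 = 1) (hM : M % 4 = 2) : Good b M := by
  refine ⟨fun p => decide (p % 4 = 0), fun _ => false, fun p => ?_⟩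
  unfold E8
  simp only [Bool.toNat_false, add_zero]
  have hb4 : b % 4 = 1 ∨ b % 4 = 3 := by omega
  have hp4 : p % 4 = 0 ∨ p % 4 = 1 ∨ p % 4 = 2 ∨ p % 4 = 3 := by omega
  by_cases h1 : (p + b) % 4 = 0 <;> by_cases h2 : p % 4 = 0 <;> by_cases h3 : (p - b) % 4 = 0 <;>
    by_cases h4 : (p - M) % 4 = 0 <;> simp only [h1, h2, h3, h4, decide_true, decide_false,
      Bool.toNat_true, Bool.toNat_false] <;> omega

theorem two_pow_decomp {b : ℤ} (hb : b ≠ 0) : ∃ (α : ℕ) (b' : ℤ), b' % 2 = 1 ∧ b = 2 ^ α * b' := by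
  obtain ⟨k, m, hm, hk⟩ := Nat.exists_eq_two_pow_mul_odd (n := b.natAbs) (by omega)
  have hm' : (m : ℤ) % 2 = 1 := by
    obtain ⟨j, rfl⟩ := hm
    push_cast; omega
  have hk' : ((b.natAbs : ℕ) : ℤ) = 2 ^ k * (m : ℤ) := by rw [hk]; push_cast; ring
  rcases Int.natAbs_eq b with h | h
  · exact ⟨k, m, hm', by rw [h, hk']⟩
  · exact ⟨k, -m, by omega, by rw [h, hk']; ring⟩

/-- auxiliary set of even numbers -/
def T4 (q : ℤ) (t : ℤ) : Bool := decide (t % 2 = 0 ∧ (t / q) % 4 = 0)

theorem T4_odd {q t : ℤ} (h : t % 2 = 1) : T4 q t = false := by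
  unfold T4; rw [decide_eq_false_iff_not]; omega

theorem T4_sum {q b' r : ℤ} (hq : q ≠ 0) (hq2 : q % 2 = 0) (hb' : b' % 2 = 1) (hr : r % 2 = 0) :
    (T4 q r).toNat + (T4 q (r - q * b')).toNat + (T4 q (r - 2 * (q * b'))).toNat +
      (T4 q (r - 3 * (q * b'))).toNat = 1 := by
  have key : ∀ j : ℤ, T4 q (r - j * (q * b')) = decide ((r / q - j * b') % 4 = 0) := by
    intro j
    unfold T4
    have e1 : (r - j * (q * b')) / q = r / q - j * b' := by
      rw [show r - j * (q * b') = r + q * (-(j * b')) by ring, Int.add_mul_ediv_left _ _ hq]; ring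
    have e2 : (r - j * (q * b')) % 2 = 0 := by
      obtain ⟨q', hq'⟩ : ∃ q', q = 2 * q' := ⟨q / 2, by omega⟩
      rw [hq', show r - j * (2 * q' * b') = r + 2 * (-(j * q' * b')) by ring,
        Int.add_mul_emod_self_left]
      exact hr
    rw [e1, e2]
    simp
  have k0 := key 0
  have k1 := key 1
  have k2 := key 2
  have k3 := key 3
  rw [zero_mul, zero_mul, sub_zero, sub_zero] at k0
  rw [one_mul, one_mul] at k1
  rw [k0, k1, k2, k3]
  generalize r / q = u
  have hu : u % 4 = 0 ∨ u % 4 = 1 ∨ u % 4 = 2 ∨ u % 4 = 3 := by omega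
  have hb4 : b' % 4 = 1 ∨ b' % 4 = 3 := by omega
  by_cases h1 : u % 4 = 0 <;> by_cases h2 : (u - b') % 4 = 0 <;>
    by_cases h3 : (u - 2 * b') % 4 = 0 <;> by_cases h4 : (u - 3 * b') % 4 = 0 <;>
    simp only [h1, h2, h3, h4, decide_true, decide_false, Bool.toNat_true, Bool.toNat_false] <;>
    rcases hb4 with hb4 | hb4 <;> omega

/-- `b` even, `M` odd -/
theorem good_even_odd {b M : ℤ} (hb0 : b ≠ 0) (hb : b % 2 = 0) (hM : M % 2 = 1) : Good b M := by
  obtain ⟨α, b', hb', hbe⟩ := two_pow_decomp hb0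
  set q : ℤ := 2 ^ α with hq
  have hq0 : q ≠ 0 := by positivity
  have hq2 : q % 2 = 0 := by
    rcases Nat.eq_zero_or_pos α with h | h
    · rw [h, pow_zero] at hq
      rw [hq, one_mul] at hbe
      omega
    · obtain ⟨α', rfl⟩ : ∃ α', α = α' + 1 := ⟨α - 1, by omega⟩
      rw [hq, pow_succ]; omega
  refine ⟨T4 q, fun t => T4 q (t - M - 2 * b), fun p => ?_⟩
  unfold E8
  simp only
  rcases Int.emod_two_eq_zero_or_one p with hp | hp
  · have hs := T4_sum hq0 hq2 hb' (r := p + b) (by omega)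
    rw [← hbe] at hs
    rw [T4_odd (t := p - M) (by omega), T4_odd (t := p - b - M - 2 * b) (by omega),
      T4_odd (t := p - M - 2 * b) (by omega), T4_odd (t := p + b - M - 2 * b) (by omega),
      show p + M - M - 2 * b = p + b - 3 * b by ring]
    rw [show p + b - b = p by ring, show p + b - 2 * b = p - b by ring] at hs
    simp only [Bool.toNat_false]
    omega
  · have hs := T4_sum hq0 hq2 hb' (r := p - M) (by omega)
    rw [← hbe] at hs
    rw [T4_odd (t := p + b) (by omega), T4_odd (t := p) (by omega),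
      T4_odd (t := p - b) (by omega), T4_odd (t := p + M - M - 2 * b) (by omega),
      show p - b - M - 2 * b = p - M - 3 * b by ring, show p + b - M - 2 * b = p - M - b by ring]
    simp only [Bool.toNat_false]
    omega

/-- auxiliary set of multiples of four -/
def U4 (q : ℤ) (t : ℤ) : Bool := decide (t % 4 = 0 ∧ (t / q) % 2 = 0)

theorem U4_not {q t : ℤ} (h : t % 4 ≠ 0) : U4 q t = false := by
  unfold U4; rw [decide_eq_false_iff_not]; omega

theorem U4_pair {q m r : ℤ} (hq : q ≠ 0) (hq4 : q % 4 = 0) (hm : m % 2 = 1) (hr : r % 4 = 0) :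
    (U4 q r).toNat + (U4 q (r + q * m)).toNat = 1 := by
  have e1 : (r + q * m) / q = r / q + m := Int.add_mul_ediv_left _ _ hq
  have e2 : (r + q * m) % 4 = 0 := by
    obtain ⟨q', hq'⟩ : ∃ q', q = 4 * q' := ⟨q / 4, by omega⟩
    rw [hq', show r + 4 * q' * m = r + 4 * (q' * m) by ring, Int.add_mul_emod_self_left]
    exact hr
  unfold U4
  rw [e1, e2]
  generalize r / q = u
  by_cases h1 : u % 2 = 0 <;> by_cases h2 : (u + m) % 2 = 0 <;>
    simp only [hr, h1, h2, decide_true, decide_false, Bool.toNat_true, Bool.toNat_false, and_true,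
      and_false] <;> omega

theorem U4_sum {q m r b : ℤ} (hq : q ≠ 0) (hq4 : q % 4 = 0) (hm : m % 2 = 1) (hb : b % 2 = 1)
    (hr : r % 2 = 0) :
    (U4 q r).toNat + (U4 q (r + q * m)).toNat + (U4 q (r + 2 * b)).toNat +
      (U4 q (r + 2 * b + q * m)).toNat = 1 := by
  have hE : (q * m) % 4 = 0 := by
    obtain ⟨q', hq'⟩ : ∃ q', q = 4 * q' := ⟨q / 4, by omega⟩
    rw [hq', show 4 * q' * m = 4 * (q' * m) by ring]; omega
  generalize hEE : q * m = E at *
  have h : r % 4 = 0 ∨ r % 4 = 2 := by omega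
  rcases h with h | h
  · have := U4_pair hq hq4 hm h
    rw [hEE] at this
    rw [U4_not (t := r + 2 * b) (by omega), U4_not (t := r + 2 * b + E) (by omega)]
    simp only [Bool.toNat_false]; omega
  · have := U4_pair hq hq4 hm (r := r + 2 * b) (by omega)
    rw [hEE] at this
    rw [U4_not (t := r) (by omega), U4_not (t := r + E) (by omega)]
    simp only [Bool.toNat_false]; omega

theorem good_odd_odd_aux {b M : ℤ} (hb : b % 2 = 1) (hM : (M - b) % 4 = 0) (hne : M ≠ b) :
    Good b M := by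
  obtain ⟨γ, m, hm, hE⟩ := two_pow_decomp (b := M - b) (by omega)
  set q : ℤ := 2 ^ γ with hq
  have hq0 : q ≠ 0 := by positivity
  have hq4 : q % 4 = 0 := by
    rcases Nat.lt_or_ge γ 2 with h | h
    · interval_cases γ
      · norm_num at hq; rw [hq] at hE; omega
      · norm_num at hq; rw [hq] at hE; omega
    · obtain ⟨γ', rfl⟩ : ∃ γ', γ = γ' + 2 := ⟨γ - 2, by omega⟩
      rw [hq, pow_add]; omega
  refine ⟨U4 q, fun t => U4 q (t - (M - 2 * b)), fun p => ?_⟩
  unfold E8
  simp only
  rcases Int.emod_two_eq_zero_or_one p with hp | hp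
  · have hs := U4_sum hq0 hq4 hm hb (r := p - (M - b)) (by omega)
    rw [← hE] at hs
    rw [U4_not (t := p + b) (by omega), U4_not (t := p - b) (by omega),
      U4_not (t := p - M) (by omega), U4_not (t := p - (M - 2 * b)) (by omega),
      show p - b - (M - 2 * b) = p - (M - b) by ring,
      show p + b - (M - 2 * b) = p - (M - b) + 2 * b by ring,
      show p + M - (M - 2 * b) = p - (M - b) + 2 * b + (M - b) by ring]
    rw [show p - (M - b) + (M - b) = p by ring] at hs
    simp only [Bool.toNat_false]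
    omega
  · have hs := U4_sum hq0 hq4 hm hb (r := p - M) (by omega)
    rw [← hE] at hs
    rw [U4_not (t := p) (by omega), U4_not (t := p - b - (M - 2 * b)) (by omega),
      U4_not (t := p + b - (M - 2 * b)) (by omega), U4_not (t := p + M - (M - 2 * b)) (by omega),
      show p - (M - 2 * b) = p - M + 2 * b by ring]
    rw [show p - M + (M - b) = p - b by ring,
      show p - M + 2 * b + (M - b) = p + b by ring] at hs
    simp only [Bool.toNat_false]
    omega

theorem good_odd_odd {b M : ℤ} (hb : b % 2 = 1) (hM : M % 2 = 1) (hne : M ≠ b) (hne' : M ≠ -b) :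
    Good b M := by
  have h : (M - b) % 4 = 0 ∨ (-M - b) % 4 = 0 := by omega
  rcases h with h | h
  · exact good_odd_odd_aux hb h hne
  · have := (good_odd_odd_aux (b := b) (M := -M) hb h (by omega)).neg_right
    rwa [neg_neg] at this

/-! ### the case `4 ∣ M` -/

theorem good_four_large {b M : ℤ} (hb : b % 2 = 1) (hM : M % 4 = 0) (hM12 : 12 ≤ M)
    (hcop : IsCoprime b M) : Good b M := by
  obtain ⟨L, hL⟩ : ∃ L, M = 4 * L := ⟨M / 4, by omega⟩
  have hL3 : 3 ≤ L := by omega
  have hcop8 : IsCoprime b (8 * M) := by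
    refine IsCoprime.mul_right ?_ hcop
    have h2 : IsCoprime b 2 := ⟨1, -(b / 2), by omega⟩
    have : (8 : ℤ) = 2 ^ 3 := by norm_num
    rw [this]; exact h2.pow_right
  obtain ⟨c, v, hcv⟩ := hcop8
  -- c * b + v * (8 M) = 1
  have hc1 : c * b = 1 + (32 * L) * (-v) := by rw [hL] at hcv; linear_combination hcv
  -- c ≡ b mod 8
  have hcb8 : (c * b) % 8 = 1 := by
    rw [hc1, show 1 + (32 * L) * (-v) = 1 + 8 * (4 * L * (-v)) by ring,
      Int.add_mul_emod_self_left]
    rfl
  have hb8 : b % 8 = 1 ∨ b % 8 = 3 ∨ b % 8 = 5 ∨ b % 8 = 7 := by omega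
  have hc8 : c % 8 = b % 8 := by
    have h1 : (c * b) % 8 = ((c % 8) * (b % 8)) % 8 := Int.mul_emod c b 8
    have h2 : c % 8 = 0 ∨ c % 8 = 1 ∨ c % 8 = 2 ∨ c % 8 = 3 ∨ c % 8 = 4 ∨ c % 8 = 5 ∨ c % 8 = 6 ∨
      c % 8 = 7 := by omega
    rcases hb8 with h | h | h | h <;> rcases h2 with g | g | g | g | g | g | g | g <;>
      rw [h, g] at h1 <;> omega
  have main : ∀ w : ℤ, c % 8 = w → GoodP (32 * L) 1 (4 * L * w) → Good b M := by
    intro w hw hG
    refine hG.transfer (c := c) (k1 := -v) (k2 := c / 8) hc1 ?_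
    have : c = 8 * (c / 8) + w := by omega
    rw [hL]
    nth_rewrite 1 [this]
    ring
  rcases hb8 with h | h | h | h
  · refine main 1 (by omega) ?_
    have := n1a L hL3
    rwa [mul_one]
  · exact main 3 (by omega) (n1b L hL3)
  · exact main 5 (by omega) (n1c L hL3)
  · exact main 7 (by omega) (n1d L hL3)

theorem good_four {b : ℤ} (hb : b % 2 = 1) (hb3 : 3 ≤ b) : Good b 4 := by
  have h : b % 4 = 3 ∨ b % 4 = 1 := by omega
  rcases h with h | h
  · obtain ⟨N, hN⟩ : ∃ N, b = 4 * N - 1 := ⟨(b + 1) / 4, by omega⟩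
    subst hN
    refine (n2 N (by omega)).transfer (c := (4 * N - 1) * (1 - 8 * N * (2 * N - 1)))
      (k1 := -2 * N * (2 * N - 1) ^ 2) (k2 := -(2 * N - 1) * (4 * N - 1)) ?_ ?_ <;> ring
  · obtain ⟨N, hN⟩ : ∃ N, b = 4 * N + 1 := ⟨(b - 1) / 4, by omega⟩
    subst hN
    have : Good (4 * N + 1) (-4) := by
      refine (n2 N (by omega)).transfer (c := (4 * N + 1) * (1 - 8 * N * (2 * N + 1)))
        (k1 := -2 * N * (2 * N + 1) ^ 2) (k2 := (2 * N + 1) * (4 * N + 1) - 1) ?_ ?_ <;> ring
    have := this.neg_right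
    rwa [neg_neg] at this

theorem good_eight {b : ℤ} (hb : b % 2 = 1) (hb3 : 3 ≤ b) : Good b 8 := by
  have h : b % 4 = 3 ∨ b % 4 = 1 := by omega
  rcases h with h | h
  · obtain ⟨N, hN⟩ : ∃ N, b = 4 * N - 1 := ⟨(b + 1) / 4, by omega⟩
    subst hN
    refine (n3 N (by omega)).transfer (c := (4 * N - 1) * (1 - 8 * N * (2 * N - 1)))
      (k1 := -N * (2 * N - 1) ^ 2) (k2 := -(2 * N - 1) * (4 * N - 1)) ?_ ?_ <;> ring
  · obtain ⟨N, hN⟩ : ∃ N, b = 4 * N + 1 := ⟨(b - 1) / 4, by omega⟩
    subst hN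
    have : Good (4 * N + 1) (-8) := by
      refine (n3 N (by omega)).transfer (c := (4 * N + 1) * (1 - 8 * N * (2 * N + 1)))
        (k1 := -N * (2 * N + 1) ^ 2) (k2 := (2 * N + 1) * (4 * N + 1) - 1) ?_ ?_ <;> ring
    have := this.neg_right
    rwa [neg_neg] at this

/-- coprime case -/
theorem good_coprime {b M : ℤ} (hb : 0 < b) (hM : 0 < M) (hcop : IsCoprime b M) (hne : M ≠ b)
    (h4 : M ≠ 4 * b) (h8 : M ≠ 8 * b) : Good b M := by
  rcases Int.emod_two_eq_zero_or_one b with hb2 | hb2
  · rcases Int.emod_two_eq_zero_or_one M with hM2 | hM2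
    · exfalso
      obtain ⟨u, v, huv⟩ := hcop
      have : (u * b + v * M) % 2 = 1 := by rw [huv]; rfl
      obtain ⟨b1, rfl⟩ : ∃ b1, b = 2 * b1 := ⟨b / 2, by omega⟩
      obtain ⟨M1, rfl⟩ : ∃ M1, M = 2 * M1 := ⟨M / 2, by omega⟩
      have e : u * (2 * b1) + v * (2 * M1) = 2 * (u * b1 + v * M1) := by ring
      rw [e] at this; omega
    · exact good_even_odd hb.ne' hb2 hM2
  · rcases Int.emod_two_eq_zero_or_one M with hM2 | hM2
    · by_cases hM4 : M % 4 = 2
      · exact good_two hb2 hM4
      · have hM0 : M % 4 = 0 := by omega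
        by_cases h12 : 12 ≤ M
        · exact good_four_large hb2 hM0 h12 hcop
        · have : M = 4 ∨ M = 8 := by omega
          rcases this with rfl | rfl
          · exact good_four hb2 (by omega)
          · exact good_eight hb2 (by omega)
    · exact good_odd_odd hb2 hM2 hne (by omega)

/-- general case -/
theorem good_all {d e : ℤ} (hd : d ≠ 0) (he : e ≠ 0) (h1 : e ≠ d) (h1' : e ≠ -d)
    (h4 : e ≠ 4 * d) (h4' : e ≠ -(4 * d)) (h8 : e ≠ 8 * d) (h8' : e ≠ -(8 * d)) : Good d e := by
  -- reduce to positive d and e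
  have pos : ∀ d e : ℤ, 0 < d → 0 < e → e ≠ d → e ≠ 4 * d → e ≠ 8 * d → Good d e := by
    intro d e hd he h1 h4 h8
    have hg : 0 < (Int.gcd d e : ℤ) := by
      have := Int.gcd_pos_of_ne_zero_left e hd.ne'
      exact_mod_cast this
    set g : ℤ := (Int.gcd d e : ℤ) with hgdef
    obtain ⟨b, hb⟩ : g ∣ d := Int.gcd_dvd_left ..
    obtain ⟨M, hM⟩ : g ∣ e := Int.gcd_dvd_right ..
    have hcop : IsCoprime b M := by
      have := Int.gcd_eq_gcd_ab d e
      rw [← hgdef] at this
      refine ⟨Int.gcdA d e, Int.gcdB d e, ?_⟩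
      have h2 : g * (Int.gcdA d e * b + Int.gcdB d e * M) = g * 1 := by
        calc g * (Int.gcdA d e * b + Int.gcdB d e * M)
            = (g * b) * Int.gcdA d e + (g * M) * Int.gcdB d e := by ring
          _ = d * Int.gcdA d e + e * Int.gcdB d e := by rw [← hb, ← hM]
          _ = g * 1 := by rw [mul_one]; exact this.symm
      exact mul_left_cancel₀ hg.ne' h2
    have hbpos : 0 < b := by
      by_contra hcon
      have : g * b ≤ 0 := mul_nonpos_of_nonneg_of_nonpos hg.le (by omega)
      omega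
    have hMpos : 0 < M := by
      by_contra hcon
      have : g * M ≤ 0 := mul_nonpos_of_nonneg_of_nonpos hg.le (by omega)
      omega
    have hG : Good b M := by
      refine good_coprime hbpos hMpos hcop ?_ ?_ ?_
      · rintro rfl; exact h1 (by rw [hM, ← hb])
      · intro h; apply h4; rw [hM, h, hb]; ring
      · intro h; apply h8; rw [hM, h, hb]; ring
    have := hG.scale hg
    rwa [← hb, ← hM] at this
  rcases lt_or_gt_of_ne hd with hd' | hd'
  · rcases lt_or_gt_of_ne he with he' | he'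
    · have h := pos (-d) (-e) (by omega) (by omega) (by omega) (by omega) (by omega)
      have := h.neg_right.neg_left
      rwa [neg_neg, neg_neg] at this
    · have h := pos (-d) e (by omega) (by omega) (by omega) (by omega) (by omega)
      have := h.neg_left
      rwa [neg_neg] at this
  · rcases lt_or_gt_of_ne he with he' | he'
    · have h := pos d (-e) (by omega) (by omega) (by omega) (by omega) (by omega)
      have := h.neg_right
      rwa [neg_neg] at this
    · exact pos d e hd' he' h1 h4 h8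

end MPae024f
end

section
/-! Nonexistence of tilings by `{-1, 0, 1, 4}` and `{-1, 0, 1, 8}` and their reflections. -/
namespace MPae024f

/-- cells of the placement `(s, t)` -/
def cells (m : ℤ) (pl : Bool × ℤ) : List ℤ :=
  if pl.1 then [pl.2 - 1, pl.2, pl.2 + 1, pl.2 + m] else [pl.2 + 1, pl.2, pl.2 - 1, pl.2 - m]

def cands (m u : ℤ) : List (Bool × ℤ) :=
  [(true, u + 1), (true, u), (true, u - 1), (true, u - m),
   (false, u - 1), (false, u), (false, u + 1), (false, u + m)]

def okPl (m : ℤ) (placed : List (Bool × ℤ)) (pl : Bool × ℤ) : Bool :=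
  placed.all fun q => decide (pl = q) || (cells m pl).all fun x => !(cells m q).contains x

/-- search tree checker; the base 64 digits of the last argument give the cells to branch on
(shifted by 32), in depth first order -/
def refute (m : ℤ) : ℕ → List (Bool × ℤ) → ℕ → Option ℕ
  | 0, _, _ => none
  | n + 1, placed, N =>
    ((cands m ((N % 64 : ℕ) - 32)).filter (okPl m placed)).foldl
      (fun st pl => st.bind (refute m n (pl :: placed))) (some (N / 64))

theorem foldl_bind_some {α β : Type*} (f : β → α → Option α) :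
    ∀ (l : List β) (st : Option α) (r : α),
      l.foldl (fun st b => st.bind (f b)) st = some r →
      ∀ b ∈ l, ∃ s r', f b s = some r' := by
  intro l
  induction l with
  | nil => intro st r _ b hb; simp at hb
  | cons a l ih =>
    intro st r h b hb
    rw [List.foldl_cons] at h
    rcases List.mem_cons.1 hb with rfl | hb
    · -- the state after the first step must be some
      have hne : st.bind (f b) ≠ none := by
        intro hnone
        rw [hnone] at h
        have : ∀ l : List β, l.foldl (fun st b => st.bind (f b)) (none : Option α) = none := by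
          intro l
          induction l with
          | nil => rfl
          | cons c l ih => rw [List.foldl_cons]; exact ih
        rw [this] at h
        exact absurd h (by simp)
      cases st with
      | none => exact absurd rfl hne
      | some s =>
        obtain ⟨r', hr'⟩ := Option.ne_none_iff_exists'.1 hne
        exact ⟨s, r', hr'⟩
    · exact ih _ _ h b hb

/-- a family of placements which covers every cell and in which different placements are
disjoint -/
structure IsTiling (m : ℤ) (T : Bool × ℤ → Prop) : Prop where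
  cover : ∀ u, ∃ pl ∈ cands m u, T pl
  disj : ∀ pl pl', T pl → T pl' → pl ≠ pl' → ∀ x ∈ cells m pl, x ∉ cells m pl'

theorem refute_sound {m : ℤ} {T : Bool × ℤ → Prop} (hT : IsTiling m T) :
    ∀ (n : ℕ) (placed : List (Bool × ℤ)) (s r : ℕ), refute m n placed s = some r →
      (∀ pl ∈ placed, T pl) → False := by
  intro n
  induction n with
  | zero => intro placed s r h _; simp [refute] at h
  | succ n ih =>
    intro placed s r h hpl
    · rw [refute] at h
      obtain ⟨pl, hmem, hTpl⟩ := hT.cover ((s % 64 : ℕ) - 32)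
      have hok : okPl m placed pl = true := by
        unfold okPl
        rw [List.all_eq_true]
        intro q hq
        by_cases hpq : pl = q
        · simp [hpq]
        · have := hT.disj pl q hTpl (hpl q hq) hpq
          rw [Bool.or_eq_true]
          right
          rw [List.all_eq_true]
          intro x hx
          have hx' := this x hx
          simpa using hx'
      obtain ⟨s', r', hr'⟩ := foldl_bind_some _ _ _ _ h pl (List.mem_filter.2 ⟨hmem, hok⟩)
      refine ih (pl :: placed) s' r' hr' ?_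
      intro q hq
      rcases List.mem_cons.1 hq with rfl | hq
      · exact hTpl
      · exact hpl q hq

def tree4 : ℕ :=
  2014600337629521169370494134106

def tree8 : ℕ :=
  7310525954334587906374143363503479249059854443549635543565747234954102998920074078689671346402499318554395259907638133275034575946262112774325101364044697568199308346690542847441520480107492877736196412482849348510372921853966257723775981050985660245889640113877594459783785632002853383153595121782989709657064619122641932027449339218317620766763983491267700875949049858937508288428509520089725798395888345037669017904697754426199790605155819991958451396640525741453245673503784215244701889055201680664155916325230698069201996957466998017880495808289686253869237396210553900995588828431404221900333798201462985484886706740047997386264663024552673027451172165507940336316990113482599138388722833654909343898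

theorem no_tiling_four (T : Bool × ℤ → Prop) : ¬ IsTiling 4 T := by
  intro hT
  have h : (refute 4 4 [] tree4).isSome = true := by decide +kernel
  obtain ⟨r, hr⟩ := Option.isSome_iff_exists.1 h
  exact refute_sound hT _ _ _ _ hr (by simp)

theorem no_tiling_eight (T : Bool × ℤ → Prop) : ¬ IsTiling 8 T := by
  intro hT
  have h : (refute 8 12 [] tree8).isSome = true := by decide +kernel
  obtain ⟨r, hr⟩ := Option.isSome_iff_exists.1 h
  exact refute_sound hT _ _ _ _ hr (by simp)

end MPae024f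
end

section
namespace MPae024f

/-- `A` forms a monohedral tiling of `ℤ`: there is a partition of `ℤ` into sets each of which is
a translate `t + A` of `A` or a translate `t + (-A)` of `-A`. -/
def FMT (A : Set ℤ) : Prop :=
  ∃ parts : Set (Set ℤ), Setoid.IsPartition parts ∧
    ∀ S ∈ parts, ∃ t : ℤ, S = {p | ∃ a ∈ A, p = t + a} ∨ S = {p | ∃ a ∈ A, p = t + -a}

/-- the eight tiles that may cover `p` -/
def tileAt (x b M p : ℤ) (i : Fin 8) : Set ℤ :=
  let A : Set ℤ := {x - b, x, x + b, x + M}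
  match i with
  | 0 => {q | ∃ a ∈ A, q = (p + b - x) + a}
  | 1 => {q | ∃ a ∈ A, q = (p - x) + a}
  | 2 => {q | ∃ a ∈ A, q = (p - b - x) + a}
  | 3 => {q | ∃ a ∈ A, q = (p - M - x) + a}
  | 4 => {q | ∃ a ∈ A, q = (p - b + x) + -a}
  | 5 => {q | ∃ a ∈ A, q = (p + x) + -a}
  | 6 => {q | ∃ a ∈ A, q = (p + b + x) + -a}
  | 7 => {q | ∃ a ∈ A, q = (p + M + x) + -a}

def usedAt (P Q : ℤ → Bool) (b M p : ℤ) (i : Fin 8) : Bool :=
  match i with
  | 0 => P (p + b)
  | 1 => P p
  | 2 => P (p - b)
  | 3 => P (p - M)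
  | 4 => Q (p - b)
  | 5 => Q p
  | 6 => Q (p + b)
  | 7 => Q (p + M)

theorem used_unique {P Q : ℤ → Bool} {b M p : ℤ} (h : E8 P Q b M p = 1) :
    ∃! i, usedAt P Q b M p i = true := by
  unfold E8 at h
  have hsum : (usedAt P Q b M p 0).toNat + (usedAt P Q b M p 1).toNat +
      (usedAt P Q b M p 2).toNat + (usedAt P Q b M p 3).toNat + (usedAt P Q b M p 4).toNat +
      (usedAt P Q b M p 5).toNat + (usedAt P Q b M p 6).toNat + (usedAt P Q b M p 7).toNat = 1 := h
  generalize usedAt P Q b M p = f at hsum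
  have hs : ∑ i, (f i).toNat = 1 := by rw [Fin.sum_univ_eight]; exact hsum
  have hex : ∃ i, f i = true := by
    by_contra hcon
    have h0 : ∀ i, f i = false := by
      intro i
      by_contra hi
      exact hcon ⟨i, by simpa using hi⟩
    simp [h0] at hs
  obtain ⟨i, hi⟩ := hex
  refine ⟨i, hi, fun j hj => ?_⟩
  by_contra hne
  have hle : ∑ k ∈ ({i, j} : Finset (Fin 8)), (f k).toNat ≤ ∑ k, (f k).toNat :=
    Finset.sum_le_sum_of_subset (Finset.subset_univ _)
  rw [Finset.sum_pair (fun h => hne h.symm), hi, hj, hs] at hle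
  simp at hle

theorem forms_of_good {x b M : ℤ} (h : Good b M) :
    FMT {x - b, x, x + b, x + M} := by
  obtain ⟨P, Q, hPQ⟩ := h
  set A : Set ℤ := {x - b, x, x + b, x + M} with hA
  refine ⟨{S | ∃ t : ℤ, (P (t + x) = true ∧ S = {p | ∃ a ∈ A, p = t + a}) ∨
    (Q (t - x) = true ∧ S = {p | ∃ a ∈ A, p = t + -a})}, ?_, ?_⟩
  · -- characterization of the parts containing p
    have char : ∀ (p : ℤ) (S : Set ℤ), ((∃ t : ℤ, (P (t + x) = true ∧
        S = {p | ∃ a ∈ A, p = t + a}) ∨ (Q (t - x) = true ∧ S = {p | ∃ a ∈ A, p = t + -a})) ∧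
        p ∈ S) ↔ ∃ i, usedAt P Q b M p i = true ∧ S = tileAt x b M p i := by
      intro p S
      constructor
      · rintro ⟨⟨t, ⟨hP, rfl⟩ | ⟨hQ, rfl⟩⟩, a, ha, hpa⟩
        · rw [hA] at ha
          simp only [Set.mem_insert_iff, Set.mem_singleton_iff] at ha
          rcases ha with rfl | rfl | rfl | rfl
          · refine ⟨0, ?_, ?_⟩
            · show P (p + b) = true
              rw [show p + b = t + x by omega]; exact hP
            · show _ = {q | ∃ a ∈ A, q = (p + b - x) + a}
              rw [show p + b - x = t by omega]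
          · refine ⟨1, ?_, ?_⟩
            · show P p = true
              rw [show p = t + a by omega]; exact hP
            · show _ = {q | ∃ a' ∈ A, q = (p - a) + a'}
              rw [show p - a = t by omega]
          · refine ⟨2, ?_, ?_⟩
            · show P (p - b) = true
              rw [show p - b = t + x by omega]; exact hP
            · show _ = {q | ∃ a ∈ A, q = (p - b - x) + a}
              rw [show p - b - x = t by omega]
          · refine ⟨3, ?_, ?_⟩
            · show P (p - M) = true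
              rw [show p - M = t + x by omega]; exact hP
            · show _ = {q | ∃ a ∈ A, q = (p - M - x) + a}
              rw [show p - M - x = t by omega]
        · rw [hA] at ha
          simp only [Set.mem_insert_iff, Set.mem_singleton_iff] at ha
          rcases ha with rfl | rfl | rfl | rfl
          · refine ⟨4, ?_, ?_⟩
            · show Q (p - b) = true
              rw [show p - b = t - x by omega]; exact hQ
            · show _ = {q | ∃ a ∈ A, q = (p - b + x) + -a}
              rw [show p - b + x = t by omega]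
          · refine ⟨5, ?_, ?_⟩
            · show Q p = true
              rw [show p = t - a by omega]; exact hQ
            · show _ = {q | ∃ a' ∈ A, q = (p + a) + -a'}
              rw [show p + a = t by omega]
          · refine ⟨6, ?_, ?_⟩
            · show Q (p + b) = true
              rw [show p + b = t - x by omega]; exact hQ
            · show _ = {q | ∃ a ∈ A, q = (p + b + x) + -a}
              rw [show p + b + x = t by omega]
          · refine ⟨7, ?_, ?_⟩
            · show Q (p + M) = true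
              rw [show p + M = t - x by omega]; exact hQ
            · show _ = {q | ∃ a ∈ A, q = (p + M + x) + -a}
              rw [show p + M + x = t by omega]
      · rintro ⟨i, hi, rfl⟩
        fin_cases i
        · change P (p + b) = true at hi
          refine ⟨⟨p + b - x, Or.inl ⟨?_, rfl⟩⟩, x - b, ?_, ?_⟩
          · rw [show p + b - x + x = p + b by ring]; exact hi
          · simp
          · ring
        · change P p = true at hi
          refine ⟨⟨p - x, Or.inl ⟨?_, rfl⟩⟩, x, ?_, ?_⟩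
          · rw [show p - x + x = p by ring]; exact hi
          · simp
          · ring
        · change P (p - b) = true at hi
          refine ⟨⟨p - b - x, Or.inl ⟨?_, rfl⟩⟩, x + b, ?_, ?_⟩
          · rw [show p - b - x + x = p - b by ring]; exact hi
          · simp
          · ring
        · change P (p - M) = true at hi
          refine ⟨⟨p - M - x, Or.inl ⟨?_, rfl⟩⟩, x + M, ?_, ?_⟩
          · rw [show p - M - x + x = p - M by ring]; exact hi
          · simp
          · ring
        · change Q (p - b) = true at hi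
          refine ⟨⟨p - b + x, Or.inr ⟨?_, rfl⟩⟩, x - b, ?_, ?_⟩
          · rw [show p - b + x - x = p - b by ring]; exact hi
          · simp
          · ring
        · change Q p = true at hi
          refine ⟨⟨p + x, Or.inr ⟨?_, rfl⟩⟩, x, ?_, ?_⟩
          · rw [show p + x - x = p by ring]; exact hi
          · simp
          · ring
        · change Q (p + b) = true at hi
          refine ⟨⟨p + b + x, Or.inr ⟨?_, rfl⟩⟩, x + b, ?_, ?_⟩
          · rw [show p + b + x - x = p + b by ring]; exact hi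
          · simp
          · ring
        · change Q (p + M) = true at hi
          refine ⟨⟨p + M + x, Or.inr ⟨?_, rfl⟩⟩, x + M, ?_, ?_⟩
          · rw [show p + M + x - x = p + M by ring]; exact hi
          · simp
          · ring
    refine ⟨?_, ?_⟩
    · rintro ⟨t, ⟨_, h⟩ | ⟨_, h⟩⟩
      · have : t + x ∈ (∅ : Set ℤ) := by rw [h]; exact ⟨x, by simp [hA], rfl⟩
        exact this
      · have : t + -x ∈ (∅ : Set ℤ) := by rw [h]; exact ⟨x, by simp [hA], rfl⟩
        exact this
    · intro p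
      obtain ⟨i, hi, huniq⟩ := used_unique (hPQ p)
      refine ⟨tileAt x b M p i, ?_, ?_⟩
      · exact (char p _).2 ⟨i, hi, rfl⟩
      · intro S hS
        obtain ⟨j, hj, hSj⟩ := (char p S).1 hS
        rw [hSj, huniq j hj]
  · rintro S ⟨t, ⟨_, h⟩ | ⟨_, h⟩⟩
    · exact ⟨t, Or.inl h⟩
    · exact ⟨t, Or.inr h⟩

/-- placements of the normalized tile inside the progression `x + dℤ` -/
def place (x d m : ℤ) (pl : Bool × ℤ) : Set ℤ := {p | ∃ u ∈ cells m pl, p = x + d * u}

theorem place_inj {x d m : ℤ} (hd : d ≠ 0) (hm : m = 4 ∨ m = 8) {pl pl' : Bool × ℤ}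
    (h : place x d m pl = place x d m pl') : pl = pl' := by
  have hsub : ∀ u, u ∈ cells m pl ↔ u ∈ cells m pl' := by
    intro u
    have h1 : ∀ q : Bool × ℤ, (x + d * u ∈ place x d m q) ↔ u ∈ cells m q := by
      intro q
      constructor
      · rintro ⟨v, hv, hvu⟩
        have : u = v := mul_left_cancel₀ hd (by linarith)
        rw [this]; exact hv
      · intro hu; exact ⟨u, hu, rfl⟩
    rw [← h1 pl, ← h1 pl', h]
  obtain ⟨s, t⟩ := pl
  obtain ⟨s', t'⟩ := pl'
  cases s <;> cases s' <;> simp only [cells, Bool.false_eq_true, if_false, if_true,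
    List.mem_cons, List.not_mem_nil, or_false] at hsub
  · have h1 := hsub t
    have h2 := hsub (t + 1)
    have h3 := hsub (t - 1)
    have h4 := hsub (t - m)
    have : t = t' := by rcases hm with rfl | rfl <;> omega
    rw [this]
  · exfalso
    have h1 := hsub t
    have h2 := hsub (t + 1)
    have h3 := hsub (t - 1)
    have h4 := hsub (t - m)
    rcases hm with rfl | rfl <;> omega
  · exfalso
    have h1 := hsub t
    have h2 := hsub (t + 1)
    have h3 := hsub (t - 1)
    have h4 := hsub (t + m)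
    rcases hm with rfl | rfl <;> omega
  · have h1 := hsub t
    have h2 := hsub (t + 1)
    have h3 := hsub (t - 1)
    have h4 := hsub (t + m)
    have : t = t' := by rcases hm with rfl | rfl <;> omega
    rw [this]

theorem tiling_of_forms {x d m : ℤ} (hd : d ≠ 0) (hm : m = 4 ∨ m = 8)
    (h : FMT {x - d, x, x + d, x + m * d}) : ∃ T, IsTiling m T := by
  obtain ⟨parts, hpart, htile⟩ := h
  refine ⟨fun pl => place x d m pl ∈ parts, ?_, ?_⟩
  · intro u
    obtain ⟨S, ⟨hS, huS⟩, -⟩ := hpart.2 (x + d * u)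
    obtain ⟨t, rfl | rfl⟩ := htile S hS
    · obtain ⟨a, ha, hta⟩ := huS
      have key : ∀ k : ℤ, t = d * k → place x d m (true, k) =
          {p | ∃ a ∈ ({x - d, x, x + d, x + m * d} : Set ℤ), p = t + a} := by
        intro k hk
        ext p
        simp only [place, cells, List.mem_cons, List.not_mem_nil, or_false, Set.mem_setOf_eq,
          Set.mem_insert_iff, Set.mem_singleton_iff, if_true]
        constructor
        · rintro ⟨v, rfl | rfl | rfl | rfl, rfl⟩
          · exact ⟨x - d, Or.inl rfl, by rw [hk]; ring⟩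
          · exact ⟨x, Or.inr (Or.inl rfl), by rw [hk]; ring⟩
          · exact ⟨x + d, Or.inr (Or.inr (Or.inl rfl)), by rw [hk]; ring⟩
          · exact ⟨x + m * d, Or.inr (Or.inr (Or.inr rfl)), by rw [hk]; ring⟩
        · rintro ⟨v, rfl | rfl | rfl | rfl, rfl⟩
          · exact ⟨k - 1, Or.inl rfl, by rw [hk]; ring⟩
          · exact ⟨k, Or.inr (Or.inl rfl), by rw [hk]; ring⟩
          · exact ⟨k + 1, Or.inr (Or.inr (Or.inl rfl)), by rw [hk]; ring⟩
          · exact ⟨k + m, Or.inr (Or.inr (Or.inr rfl)), by rw [hk]; ring⟩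
      simp only [Set.mem_insert_iff, Set.mem_singleton_iff] at ha
      rcases ha with rfl | rfl | rfl | rfl
      · refine ⟨(true, u + 1), by simp [cands], ?_⟩
        rw [key (u + 1) (by linarith)]; exact hS
      · refine ⟨(true, u), by simp [cands], ?_⟩
        rw [key u (by linarith)]; exact hS
      · refine ⟨(true, u - 1), by simp [cands], ?_⟩
        rw [key (u - 1) (by linarith)]; exact hS
      · refine ⟨(true, u - m), by simp [cands], ?_⟩
        rw [key (u - m) (by linarith)]; exact hS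
    · obtain ⟨a, ha, hta⟩ := huS
      have key : ∀ k : ℤ, t = 2 * x + d * k → place x d m (false, k) =
          {p | ∃ a ∈ ({x - d, x, x + d, x + m * d} : Set ℤ), p = t + -a} := by
        intro k hk
        ext p
        simp only [place, cells, List.mem_cons, List.not_mem_nil, or_false, Set.mem_setOf_eq,
          Set.mem_insert_iff, Set.mem_singleton_iff, Bool.false_eq_true, if_false]
        constructor
        · rintro ⟨v, rfl | rfl | rfl | rfl, rfl⟩
          · exact ⟨x - d, Or.inl rfl, by rw [hk]; ring⟩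
          · exact ⟨x, Or.inr (Or.inl rfl), by rw [hk]; ring⟩
          · exact ⟨x + d, Or.inr (Or.inr (Or.inl rfl)), by rw [hk]; ring⟩
          · exact ⟨x + m * d, Or.inr (Or.inr (Or.inr rfl)), by rw [hk]; ring⟩
        · rintro ⟨v, rfl | rfl | rfl | rfl, rfl⟩
          · exact ⟨k + 1, Or.inl rfl, by rw [hk]; ring⟩
          · exact ⟨k, Or.inr (Or.inl rfl), by rw [hk]; ring⟩
          · exact ⟨k - 1, Or.inr (Or.inr (Or.inl rfl)), by rw [hk]; ring⟩
          · exact ⟨k - m, Or.inr (Or.inr (Or.inr rfl)), by rw [hk]; ring⟩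
      simp only [Set.mem_insert_iff, Set.mem_singleton_iff] at ha
      rcases ha with rfl | rfl | rfl | rfl
      · refine ⟨(false, u - 1), by simp [cands], ?_⟩
        rw [key (u - 1) (by linarith)]; exact hS
      · refine ⟨(false, u), by simp [cands], ?_⟩
        rw [key u (by linarith)]; exact hS
      · refine ⟨(false, u + 1), by simp [cands], ?_⟩
        rw [key (u + 1) (by linarith)]; exact hS
      · refine ⟨(false, u + m), by simp [cands], ?_⟩
        rw [key (u + m) (by linarith)]; exact hS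
  · intro pl pl' h1 h2 hne y hy hy'
    apply hne
    apply place_inj (x := x) hd hm
    obtain ⟨S, -, huniq⟩ := hpart.2 (x + d * y)
    have e1 := huniq _ ⟨h1, ⟨y, hy, rfl⟩⟩
    have e2 := huniq _ ⟨h2, ⟨y, hy', rfl⟩⟩
    rw [e1, e2]

theorem quad_result : ∀ x d y : ℤ, d ≠ 0 → y ≠ x - d → y ≠ x → y ≠ x + d →
    (FMT {x - d, x, x + d, y} ↔
      ¬ (y = x + 4 * d ∨ y = x - 4 * d ∨ y = x + 8 * d ∨ y = x - 8 * d)) := by
  intro x d y hd h1 h2 h3
  constructor
  · intro h hy
    have flip : ({x - d, x, x + d, y} : Set ℤ) = {x - -d, x, x + -d, y} := by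
      ext p; simp only [Set.mem_insert_iff, Set.mem_singleton_iff]; constructor <;> intro h <;>
        rcases h with h | h | h | h <;> omega
    rcases hy with hy | hy | hy | hy
    · rw [hy] at h
      obtain ⟨T, hT⟩ := tiling_of_forms hd (Or.inl rfl) h
      exact no_tiling_four T hT
    · rw [flip, show y = x + 4 * -d by omega] at h
      obtain ⟨T, hT⟩ := tiling_of_forms (neg_ne_zero.2 hd) (Or.inl rfl) h
      exact no_tiling_four T hT
    · rw [hy] at h
      obtain ⟨T, hT⟩ := tiling_of_forms hd (Or.inr rfl) h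
      exact no_tiling_eight T hT
    · rw [flip, show y = x + 8 * -d by omega] at h
      obtain ⟨T, hT⟩ := tiling_of_forms (neg_ne_zero.2 hd) (Or.inr rfl) h
      exact no_tiling_eight T hT
  · intro h
    have hG : Good d (y - x) := good_all hd (by omega) (by omega) (by omega) (by omega)
      (by omega) (by omega) (by omega)
    have := forms_of_good (x := x) hG
    rwa [show x + (y - x) = y by ring] at this

end MPae024f
end
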