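import Mathlib
import Pool.Agent.Lib.MP_ae024f_co.QuadResult

/-! Sufficiency: synchronized rows give tilings, and the three families. -/

namespace MPae024f

section rows

variable {k d e c : ℤ} {X : ℤ → ℤ → ℤ} {S U : ℤ → ℤ → Bool}

theorem rows_lin (hk : 3 ≤ k) (h1 : ∀ j N, X j (N + 1) = X j N + len (k - 1) (S j N)) (j : ℤ)
    {N M : ℤ} (hNM : N ≤ M) : X j N + (M - N) ≤ X j M := by
  induction M, hNM using Int.leInduction with
  | base => simp
  | succ M _ ih =>
    rw [h1]
    have : 1 ≤ len (k - 1) (S j M) := by cases S j M <;> simp [len]; omega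
    omega

theorem rows_cell (hk : 3 ≤ k) (h1 : ∀ j N, X j (N + 1) = X j N + len (k - 1) (S j N))
    (x j : ℤ) : ∃ N, X j N ≤ x ∧ x < X j N + len (k - 1) (S j N) := by
  obtain ⟨N, h2, h3⟩ := Int.exists_greatest_of_bdd (P := fun N => X j N ≤ x)
    ⟨max 0 (x - X j 0), fun z hz => by
      rcases le_or_gt z 0 with h3 | h3
      · exact h3.trans (le_max_left _ _)
      · have := rows_lin hk h1 j h3.le
        exact le_trans (by omega) (le_max_right _ _)⟩
    ⟨min 0 (x - X j 0), by
      have := rows_lin hk h1 j (min_le_left 0 (x - X j 0))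
      have h4 := min_le_right 0 (x - X j 0)
      show X j _ ≤ x
      omega⟩
  refine ⟨N, h2, ?_⟩
  rw [← h1]
  by_contra hcon
  have := h3 (N + 1) (by omega)
  omega

theorem rows_cell_uniq (hk : 3 ≤ k) (h1 : ∀ j N, X j (N + 1) = X j N + len (k - 1) (S j N))
    {x j N N' : ℤ} (a1 : X j N ≤ x) (a2 : x < X j N + len (k - 1) (S j N))
    (b1 : X j N' ≤ x) (b2 : x < X j N' + len (k - 1) (S j N')) : N = N' := by
  rw [← h1] at a2 b2
  rcases lt_trichotomy N N' with h | h | h
  · have := rows_lin hk h1 j (show N + 1 ≤ N' by omega); omega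
  · exact h
  · have := rows_lin hk h1 j (show N' + 1 ≤ N by omega); omega

theorem rows_shift (h4 : ∀ j N, X (j - d) (N + c) = X j N + e ∧ S (j - d) (N + c) = S j N ∧
      U (j - d) (N + c) = U j N) (i : ℤ) : ∀ j N, X (j - i * d) (N + i * c) = X j N + i * e ∧
      S (j - i * d) (N + i * c) = S j N ∧ U (j - i * d) (N + i * c) = U j N := by
  induction i using Int.induction_on with
  | zero => intro j N; simp
  | succ n ih =>
    intro j N
    have e1 := ih j N
    have e2 := h4 (j - n * d) (N + n * c)
    rw [show j - n * d - d = j - ((n : ℤ) + 1) * d by ring,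
      show N + n * c + c = N + ((n : ℤ) + 1) * c by ring] at e2
    refine ⟨?_, e2.2.1.trans e1.2.1, e2.2.2.trans e1.2.2⟩
    rw [e2.1, e1.1]; ring
  | pred n ih =>
    intro j N
    have e1 := ih j N
    have e2 := h4 (j - (-(n : ℤ) - 1) * d) (N + (-(n : ℤ) - 1) * c)
    rw [show j - (-(n : ℤ) - 1) * d - d = j - (-(n : ℤ)) * d by ring,
      show N + (-(n : ℤ) - 1) * c + c = N + (-(n : ℤ)) * c by ring] at e2
    refine ⟨?_, e2.2.1.symm.trans e1.2.1, e2.2.2.symm.trans e1.2.2⟩
    have := e2.1
    rw [e1.1] at this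
    linarith

/-- the element of `Bool × A` that covers the cell `(x, j)` of the item `(j, N)` -/
def cf (k d e : ℤ) (X : ℤ → ℤ → ℤ) (S U : ℤ → ℤ → Bool) (x j N : ℤ) : Bool × ℤ :=
  (S j N == U j N,
    if S j N = true then (if U j N = true then d * (x - X j N) else d * (X j N + (k - 2) - x)) else e)

theorem pq_of_rows (hk : 3 ≤ k) (hd0 : 0 < d) (hde : IsCoprime d e)
    (h1 : ∀ j N, X j (N + 1) = X j N + len (k - 1) (S j N))
    (h2 : ∀ j N, U j N = true → X (j + 1) N = X j N - off (k - 1) (S j N) ∧ S (j + 1) N = !S j N)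
    (h3 : ∀ j N, U (j + 1) N = !U j N)
    (h4 : ∀ j N, X (j - d) (N + c) = X j N + e ∧ S (j - d) (N + c) = S j N ∧
      U (j - d) (N + c) = U j N) :
    ∃ P Q, PQ (Tl k d e) P Q := by
  have h3' : ∀ j N, U (j - 1) N = !U j N := by
    intro j N
    have := h3 (j - 1) N
    rw [show j - 1 + 1 = j by ring] at this
    rw [this, Bool.not_not]
  refine ⟨fun t => ∃ j N, S j N = true ∧ U j N = true ∧ t = d * X j N + e * j,
    fun t => ∃ j N, S j N = true ∧ U j N = false ∧ t = d * (X j N + (k - 2)) + e * j, fun p => ?_⟩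
  -- two cells of the same integer are covered by the same pair
  have hB : ∀ x j N x' j' N', X j N ≤ x → x < X j N + len (k - 1) (S j N) →
      X j' N' ≤ x' → x' < X j' N' + len (k - 1) (S j' N') → d * x + e * j = d * x' + e * j' →
      cf k d e X S U x j N = cf k d e X S U x' j' N' := by
    intro x j N x' j' N' a1 a2 b1 b2 heq
    obtain ⟨i, hi⟩ : d ∣ j - j' := by
      have : d ∣ e * (j - j') := ⟨x' - x, by linarith⟩
      exact hde.dvd_of_dvd_mul_left this
    have hj : j' = j - i * d := by linarith
    have hx : x' = x + i * e := by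
      apply mul_left_cancel₀ (ne_of_gt hd0)
      rw [hj] at heq
      linarith
    subst hj
    subst hx
    obtain ⟨f1, f2, f3⟩ := rows_shift h4 i j N
    have hN : N + i * c = N' := rows_cell_uniq hk h1 (x := x + i * e) (j := j - i * d)
      (by rw [f1]; linarith) (by rw [f1, f2]; linarith) b1 b2
    subst hN
    unfold cf
    rw [f1, f2, f3]
    congr 1
    split_ifs
    · ring
    · ring
    · rfl
  have hA : ∀ s : Bool × ℤ, s.2 ∈ Tl k d e → (if s.1 = true then
      (∃ j N, S j N = true ∧ U j N = true ∧ p - s.2 = d * X j N + e * j) else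
      (∃ j N, S j N = true ∧ U j N = false ∧ p + s.2 = d * (X j N + (k - 2)) + e * j)) →
      ∃ x j N, X j N ≤ x ∧ x < X j N + len (k - 1) (S j N) ∧ p = d * x + e * j ∧
        s = cf k d e X S U x j N := by
    rintro ⟨σ, a⟩ ha hc
    simp only at ha hc
    cases σ
    · simp only [Bool.false_eq_true, if_false] at hc
      obtain ⟨j, N, hS, hU, hp⟩ := hc
      rcases ha with ⟨i, i0, i1, rfl⟩ | rfl
      · refine ⟨X j N + (k - 2) - i, j, N, by omega, ?_, by linarith, ?_⟩
        · rw [hS]; simp only [len, if_true]; omega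
        · unfold cf
          rw [hS, hU]
          simp only [if_true, Bool.false_eq_true, if_false]
          rw [show d * (X j N + (k - 2) - (X j N + (k - 2) - i)) = d * i by ring]
          rfl
      · have g1 := h2 (j - 1) N (by rw [h3', hU]; rfl)
        rw [show j - 1 + 1 = j by ring, hS] at g1
        have g2 : S (j - 1) N = false := by
          have := g1.2; revert this; cases S (j - 1) N <;> simp
        rw [g2] at g1
        simp only [off, Bool.false_eq_true, if_false] at g1
        refine ⟨X j N + (k - 2), j - 1, N, by omega, ?_, by linarith, ?_⟩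
        · rw [g2]; simp only [len, Bool.false_eq_true, if_false]; omega
        · unfold cf
          rw [g2, h3', hU]
          rfl
    · simp only [if_true] at hc
      obtain ⟨j, N, hS, hU, hp⟩ := hc
      rcases ha with ⟨i, i0, i1, rfl⟩ | rfl
      · refine ⟨X j N + i, j, N, by omega, ?_, by linarith, ?_⟩
        · rw [hS]; simp only [len, if_true]; omega
        · unfold cf
          rw [hS, hU]
          simp only [if_true]
          rw [show d * (X j N + i - X j N) = d * i by ring]
          rfl
      · have g1 := h2 j N hU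
        rw [hS] at g1
        simp only [off, if_true, Bool.not_true] at g1
        refine ⟨X j N, j + 1, N, by omega, ?_, by linarith, ?_⟩
        · rw [g1.2]; simp only [len, Bool.false_eq_true, if_false]; omega
        · unfold cf
          rw [g1.2, h3, hU]
          rfl
  -- existence
  obtain ⟨x, j, hxj⟩ : ∃ x j, p = d * x + e * j := by
    obtain ⟨u, v, huv⟩ := hde
    exact ⟨p * u, p * v, by linear_combination (-p) * huv⟩
  obtain ⟨N, a1, a2⟩ := rows_cell hk h1 x j
  refine ⟨cf k d e X S U x j N, ⟨?_, ?_⟩, ?_⟩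
  · unfold cf Tl
    cases hS : S j N
    · right; simp
    · rw [hS] at a2
      simp only [len, if_true] at a2
      left
      cases hU : U j N
      · simp only [if_true, Bool.false_eq_true, if_false]
        exact ⟨_, by omega, by omega, rfl⟩
      · simp only [if_true]
        exact ⟨_, by omega, by omega, rfl⟩
  · unfold cf
    cases hS : S j N
    · rw [hS] at a2
      simp only [len, Bool.false_eq_true, if_false] at a2
      have hx : x = X j N := by omega
      cases hU : U j N
      · rw [if_pos (show (false == false) = true from rfl), if_neg (by simp)]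
        have g1 := h2 (j - 1) N (by rw [h3', hU]; rfl)
        rw [show j - 1 + 1 = j by ring, hS] at g1
        have g2 : S (j - 1) N = true := by
          have := g1.2; revert this; cases S (j - 1) N <;> simp
        rw [g2] at g1
        simp only [off, if_true] at g1
        refine ⟨j - 1, N, g2, by rw [h3', hU]; rfl, ?_⟩
        rw [hxj, hx, g1.1]; ring
      · rw [if_neg (show ¬ (false == true) = true by decide), if_neg (by simp)]
        have g1 := h2 j N hU
        rw [hS] at g1
        simp only [off, Bool.false_eq_true, if_false, Bool.not_false] at g1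
        refine ⟨j + 1, N, g1.2, by rw [h3, hU]; rfl, ?_⟩
        rw [hxj, hx, g1.1]; ring
    · cases hU : U j N
      · rw [if_neg (show ¬ (true == false) = true by decide), if_pos rfl, if_neg (by simp)]
        exact ⟨j, N, hS, hU, by rw [hxj]; ring⟩
      · rw [if_pos (show (true == true) = true from rfl), if_pos rfl, if_pos rfl]
        exact ⟨j, N, hS, hU, by rw [hxj]; ring⟩
  · rintro s ⟨hs1, hs2⟩
    obtain ⟨x', j', N', b1, b2, hp, hs⟩ := hA s hs1 hs2
    rw [hs]
    exact (hB x j N x' j' N' a1 a2 b1 b2 (by rw [← hxj, ← hp])).symm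

end rows

/-- the general construction from a height function `H` and a switching function `τ` -/
theorem suff_general {k d e : ℤ} (hk : 3 ≤ k) (hd0 : 0 < d) (hde : IsCoprime d e) (τ H : ℤ → ℤ)
    (q κ c : ℤ) (hκ : k * q = e + d + κ) (hc : c = e - (k - 2) * q)
    (s1 : ∀ N, (τ (N + 1) - τ N) % 2 = 0 ∨ ∀ j, H (j + 1) = H j ∨
      (H (j + 1) = H j + 1 ∧ (H j - N - j) % 2 = 0) ∨
      (H (j + 1) = H j - 1 ∧ (H j - N - j) % 2 = 1))
    (s2 : ∀ j, H (j - d) = H j + κ)
    (s3 : ∀ N, (τ (N + c) - τ N - d) % 2 = 0) : ∃ P Q, PQ (Tl k d e) P Q := by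
  obtain ⟨l, hl⟩ : ∃ l : ℤ → ℤ → ℤ, ∀ j N, l j N = if (j - τ N) % 2 = 0 then H (j + 1) else H j :=
    ⟨_, fun j N => rfl⟩
  obtain ⟨D, hD⟩ : ∃ D : ℤ → ℤ → ℤ, ∀ j N, D j N = l j N + (N + j - l j N) % 2 :=
    ⟨_, fun j N => rfl⟩
  obtain ⟨B, hB⟩ : ∃ B : ℤ → ℤ → ℤ, ∀ j N, 2 * B j N = D j N + N - j :=
    ⟨fun j N => (D j N + N - j) / 2, fun j N => by
      show 2 * ((D j N + N - j) / 2) = D j N + N - j
      have := hD j N
      omega⟩
  have hw : c - d - κ = 2 * (e - (k - 1) * q) := by rw [hc]; linarith
  have hw2 : κ + c + d = 2 * q := by rw [hc]; linarith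
  have hl' : ∀ j N, l (j - d) (N + c) = l j N + κ := by
    intro j N
    have g1 := s3 N
    have g2 := s2 j
    have g3 := s2 (j + 1)
    rw [hl, hl, show j - d + 1 = j + 1 - d by ring]
    split_ifs <;> omega
  have hD' : ∀ j N, D (j - d) (N + c) = D j N + κ := by
    intro j N
    rw [hD, hD, hl']
    omega
  have hBc : ∀ j N, B (j - d) (N + c) = B j N + q := by
    intro j N
    have g1 := hB (j - d) (N + c)
    rw [hD'] at g1
    have g2 := hB j N
    omega
  have hBs : ∀ j N, B j (N + 1) = B j N + (if (N + j - l j N) % 2 = 0 then 1 else 0) := by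
    intro j N
    have g1 := hB j (N + 1)
    have g2 := hB j N
    rw [hD] at g1 g2
    have g3 := hl j N
    have g4 := hl j (N + 1)
    rcases s1 N with g5 | g5
    · have g6 : l j (N + 1) = l j N := by
        rw [g3, g4]; split_ifs <;> first | rfl | omega
      rw [g6] at g1
      split_ifs <;> omega
    · have g6 := g5 j
      split_ifs at g3 g4 ⊢ <;> omega
  have hBf : ∀ j N, (j - τ N) % 2 = 0 →
      B (j + 1) N = B j N - (if (N + j - l j N) % 2 = 0 then 0 else 1) ∧ l (j + 1) N = l j N := by
    intro j N hj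
    have g1 := hB (j + 1) N
    have g2 := hB j N
    rw [hD] at g1 g2
    have g6 : l (j + 1) N = l j N := by
      rw [hl, hl, if_neg (by omega), if_pos hj]
    rw [g6] at g1
    refine ⟨?_, g6⟩
    split_ifs <;> omega
  refine pq_of_rows (c := c) (X := fun j N => N + (k - 2) * B j N)
    (S := fun j N => decide ((N + j - l j N) % 2 = 0)) (U := fun j N => decide ((j - τ N) % 2 = 0))
    hk hd0 hde ?_ ?_ ?_ ?_
  · intro j N
    rw [hBs]
    by_cases g : (N + j - l j N) % 2 = 0
    · rw [if_pos g, decide_eq_true g]; simp only [len, if_true]; ring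
    · rw [if_neg g, decide_eq_false g]; simp only [len, Bool.false_eq_true, if_false]; ring
  · intro j N hU
    have hU' : (j - τ N) % 2 = 0 := of_decide_eq_true hU
    obtain ⟨g1, g2⟩ := hBf j N hU'
    rw [g1, g2]
    by_cases g : (N + j - l j N) % 2 = 0
    · rw [if_pos g, decide_eq_true g, decide_eq_false (by omega)]
      simp only [off, if_true, Bool.not_true, and_true]; ring
    · rw [if_neg g, decide_eq_false g, decide_eq_true (by omega)]
      simp only [off, Bool.false_eq_true, if_false, Bool.not_false, and_true]; ring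
  · intro j N
    by_cases g : (j - τ N) % 2 = 0
    · rw [decide_eq_true g, decide_eq_false (by omega)]; rfl
    · rw [decide_eq_false g, decide_eq_true (by omega)]; rfl
  · intro j N
    refine ⟨?_, ?_, ?_⟩
    · rw [hBc, hc]; ring
    · rw [hl']
      congr 1
      apply propext
      constructor <;> intro g <;> omega
    · congr 1
      apply propext
      have := s3 N
      constructor <;> intro g <;> omega

theorem suff_even {k d e : ℤ} (hk : 3 ≤ k) (hd0 : 0 < d) (hde : IsCoprime d e) (hd : d % 2 = 0) :
    ∃ P Q, PQ (Tl k d e) P Q := by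
  refine suff_general hk hd0 hde (fun _ => 0) (fun j => (e + d) * (j / d)) 0 (-(e + d)) e
    (by ring) (by ring) (fun N => Or.inl (by simp)) ?_ ?_
  · intro j
    have : (j - d) / d = j / d - 1 := by
      rw [show j - d = j + (-1) * d by ring, Int.add_mul_ediv_right _ _ (by omega)]; ring
    rw [this]; ring
  · intro N; omega

theorem suff_dvd {k d e : ℤ} (hk : 3 ≤ k) (hd0 : 0 < d) (hde : IsCoprime d e) (hd : k ∣ e + d) :
    ∃ P Q, PQ (Tl k d e) P Q := by
  obtain ⟨q, hq⟩ := hd
  refine suff_general hk hd0 hde (fun N => N) (fun j => 0) q 0 (e - (k - 2) * q)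
    (by linarith) rfl (fun N => Or.inr fun j => Or.inl rfl) (fun j => by simp) ?_
  intro N
  have : N + (e - (k - 2) * q) - N - d = 2 * (e - (k - 1) * q) := by linarith
  rw [this]; omega

theorem ediv_switch {w N : ℤ} (hw : 0 < w) (h : (N + 1) / w ≠ N / w) : w ∣ N + 1 := by
  by_contra hcon
  apply h
  have h1 := Int.emod_add_mul_ediv (N + 1) w
  have h2 : 0 ≤ (N + 1) % w := Int.emod_nonneg _ (by omega)
  have h3 : (N + 1) % w < w := Int.emod_lt_of_pos _ hw
  have h4 : (N + 1) % w ≠ 0 := fun h5 => hcon (Int.dvd_of_emod_eq_zero h5)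
  have h5 : N = ((N + 1) % w - 1) + w * ((N + 1) / w) := by linarith
  have h6 : N / w = ((N + 1) % w - 1) / w + (N + 1) / w := by
    conv_lhs => rw [h5]
    rw [Int.add_mul_ediv_left _ _ (by omega)]
  have h7 : ((N + 1) % w - 1) / w = 0 := Int.ediv_eq_zero_of_lt (by omega) (by omega)
  rw [h6, h7]; ring

theorem suff_odd {k d e q g : ℤ} (hk : 3 ≤ k) (hd0 : 0 < d) (hde : IsCoprime d e) (hd : d % 2 = 1)
    (hg0 : 0 ≤ g) (hgd : g ≤ d) (hq : k * q = e + 2 * g) (hqg : q ≠ g) :
    ∃ P Q, PQ (Tl k d e) P Q := by
  have hc : 2 * (q - g) = e - (k - 2) * q := by linarith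
  refine suff_general hk hd0 hde (fun N => N / |2 * (q - g)|)
    (fun j => (if j % d < g then -(j % d) else j % d - 2 * g + 1) + (j / d) * (d - 2 * g))
    q (2 * g - d) (2 * (q - g)) (by linarith) hc ?_ ?_ ?_
  · intro N
    by_cases hsw : ((N + 1) / |2 * (q - g)| - N / |2 * (q - g)|) % 2 = 0
    · left; exact hsw
    · right
      have hN : N % 2 = 1 := by
        have h1 : |2 * (q - g)| ∣ N + 1 := by
          apply ediv_switch (abs_pos.2 (by omega))
          intro h2; rw [h2] at hsw; simp at hsw
        have h2 : 2 * (q - g) ∣ N + 1 := (abs_dvd _ _).1 h1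
        have h3 : (2 : ℤ) ∣ N + 1 := dvd_trans ⟨q - g, rfl⟩ h2
        omega
      intro j
      have h1 := Int.emod_add_mul_ediv j d
      have h2 : 0 ≤ j % d := Int.emod_nonneg _ (by omega)
      have h3 : j % d < d := Int.emod_lt_of_pos _ hd0
      have h4 : (j / d) * (d - 2 * g) = d * (j / d) - 2 * (g * (j / d)) := by ring
      rcases lt_or_ge (j % d + 1) d with h5 | h5
      · have h6 : (j + 1) % d = j % d + 1 := by
          rw [Int.add_emod, Int.emod_eq_of_lt (show (0:ℤ) ≤ 1 by omega) (by omega)]
          exact Int.emod_eq_of_lt (by omega) h5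
        have h7 : (j + 1) / d = j / d := by
          have h8 := Int.emod_add_mul_ediv (j + 1) d
          rw [h6] at h8
          apply mul_left_cancel₀ (ne_of_gt hd0)
          linarith
        rw [h6, h7, h4]
        generalize d * (j / d) = v at *
        generalize g * (j / d) = w at *
        split_ifs <;> omega
      · have h6 : (j + 1) % d = 0 := by
          have : j + 1 = d * (j / d + 1) := by
            have : j % d = d - 1 := by omega
            linarith
          rw [this, Int.mul_emod_right]
        have h7 : (j + 1) / d = j / d + 1 := by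
          have h8 := Int.emod_add_mul_ediv (j + 1) d
          rw [h6] at h8
          apply mul_left_cancel₀ (ne_of_gt hd0)
          have : j % d = d - 1 := by omega
          linarith
        have h9 : (j / d + 1) * (d - 2 * g) = d * (j / d) - 2 * (g * (j / d)) + d - 2 * g := by ring
        rw [h6, h7, h4, h9]
        generalize d * (j / d) = v at *
        generalize g * (j / d) = w at *
        split_ifs <;> omega
  · intro j
    have h1 : (j - d) / d = j / d - 1 := by
      rw [show j - d = j + (-1) * d by ring, Int.add_mul_ediv_right _ _ (by omega)]; ring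
    have h2 : (j - d) % d = j % d := by rw [Int.sub_emod_right]
    rw [h1, h2]; ring
  · intro N
    have hne : 2 * (q - g) ≠ 0 := by omega
    rcases lt_or_gt_of_ne hne with h1 | h1
    · rw [abs_of_neg h1]
      have : (N + 2 * (q - g)) / -(2 * (q - g)) = N / -(2 * (q - g)) - 1 := by
        rw [show N + 2 * (q - g) = N + (-1) * -(2 * (q - g)) by ring,
          Int.add_mul_ediv_right _ _ (by omega)]; ring
      rw [this]; omega
    · rw [abs_of_pos h1]
      have : (N + 2 * (q - g)) / (2 * (q - g)) = N / (2 * (q - g)) + 1 := by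
        rw [show N + 2 * (q - g) = N + 1 * (2 * (q - g)) by ring,
          Int.add_mul_ediv_right _ _ (by omega)]
      rw [this]; omega

end MPae024f
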